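import Pool.Agent.MP_5c967c_co.H46.Lattice

/-! Double-lattice packings from a long chord and a height bound. -/

namespace Pool.Agent.MP_5c967c_co.H46

open MeasureTheory Set Metric Filter

theorem open_move (U : Set Plane) (hU : IsOpen U) (q : Plane) (hq : q ∈ U) (d : Plane) :
    ∃ e : ℝ, 0 < e ∧ q + e • d ∈ U := by
  have hc : Continuous (fun t : ℝ => q + t • d) := by fun_prop
  have h0 : Tendsto (fun t : ℝ => q + t • d) (nhds 0) (nhds q) := by
    have := hc.tendsto 0
    simpa using this
  have h1 : ∀ᶠ t in nhdsWithin (0 : ℝ) (Ioi 0), q + t • d ∈ U :=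
    (h0.eventually (hU.mem_nhds hq)).filter_mono nhdsWithin_le_nhds
  obtain ⟨e, he1, he2⟩ := (h1.and self_mem_nhdsWithin).exists
  exact ⟨e, he2, he1⟩

theorem avoid (U : Set Plane) (hU : IsOpen U) (hc : Convex ℝ U) (p u : Plane)
    (h : ∀ t : ℝ, p + t • u ∈ U → p + t • u + u ∉ U) :
    ∃ s : ℝ, ∀ k : ℤ, p + s • u + (k : ℝ) • u ∉ U := by
  set J : Set ℝ := {t | p + t • u ∈ U} with hJ
  have hmid : ∀ x y z : ℝ, x ∈ J → z ∈ J → x ≤ y → y ≤ z → y ∈ J := by
    intro x y z hx hz hxy hyz
    rcases hxy.eq_or_lt with rfl | hlt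
    · exact hx
    have hxz : 0 < z - x := by linarith
    have := hc hx hz (a := (z - y) / (z - x)) (b := (y - x) / (z - x))
      (div_nonneg (by linarith) hxz.le) (div_nonneg (by linarith) hxz.le) (by field_simp; ring)
    simp only [hJ, mem_ofPred_eq]
    convert this using 1
    ext i
    simp only [PiLp.add_apply, PiLp.smul_apply, smul_eq_mul]
    field_simp
    ring
  have hno : ∀ t, t ∈ J → t + 1 ∉ J := by
    intro t ht ht1
    apply h t ht
    simp only [hJ, mem_ofPred_eq] at ht1
    convert ht1 using 1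
    module
  have hk : ∀ s : ℝ, ∀ k : ℤ, p + s • u + (k : ℝ) • u = p + (s + k) • u := by
    intro s k; module
  by_cases hne : J.Nonempty
  · obtain ⟨t0, ht0⟩ := hne
    have hbd : BddBelow J := by
      refine ⟨t0 - 1, fun t ht => ?_⟩
      by_contra hlt
      push Not at hlt
      exact hno t ht (hmid t (t + 1) t0 ht ht0 (by linarith) (by linarith))
    refine ⟨sInf J, fun k hk' => ?_⟩
    rw [hk] at hk'
    rcases le_or_gt k 0 with hk0 | hk0
    · obtain ⟨e, he, he'⟩ := open_move U hU _ hk' (-u)
      have : sInf J + k - e ∈ J := by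
        simp only [hJ, mem_ofPred_eq]
        convert he' using 1
        module
      have h1 := csInf_le hbd this
      have : (k : ℝ) ≤ 0 := by exact_mod_cast hk0
      linarith
    · obtain ⟨e, he, he'⟩ := open_move U hU _ hk' u
      have hJ1 : sInf J + k + e ∈ J := by
        simp only [hJ, mem_ofPred_eq]
        convert he' using 1
        module
      obtain ⟨t, ht, hlt⟩ := exists_lt_of_csInf_lt ⟨t0, ht0⟩ (show sInf J < sInf J + e by linarith)
      have : (1 : ℝ) ≤ k := by exact_mod_cast hk0
      exact hno t ht (hmid t (t + 1) _ ht hJ1 (by linarith) (by linarith))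
  · refine ⟨0, fun k hk' => hne ⟨0 + k, ?_⟩⟩
    rw [hk] at hk'
    exact hk'

/-- point reflection composed with a translation, as an isometry -/
noncomputable def refl (c : Plane) : Plane ≃ᵢ Plane :=
  (LinearIsometryEquiv.neg ℝ (E := Plane)).toIsometryEquiv.trans (IsometryEquiv.addLeft c)

theorem refl_apply (c x : Plane) : refl c x = c - x := by
  simp [refl, sub_eq_add_neg]

theorem interior_iso (f : Plane ≃ᵢ Plane) (K : Set Plane) :
    interior (f '' K) = f '' interior K :=
  (f.toHomeomorph.image_interior K).symm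

theorem det2_add_left (x y u : Plane) : det2 (x + y) u = det2 x u + det2 y u := by
  simp [det2]; ring

theorem dl (K : Set Plane) (hK : Convex ℝ K) (R : ℝ) (hR : K ⊆ ball 0 R)
    (hne : (interior K).Nonempty) (v : ℝ) (hv0 : 0 ≤ v) (hv : ENNReal.ofReal v ≤ volume K)
    (M u g : Plane) (hM : M ∈ K) (hT : M + (2 : ℝ) • u ∈ K)
    (hl : ∀ x ∈ K, 0 ≤ det2 g (x - M) ∧ det2 g (x - M) ≤ 2 * det2 g u) (hgu : 0 < det2 g u)
    (yL h ρ : ℝ)
    (hy : ∀ p, p ∈ K → p + u ∈ K → yL ≤ det2 (p - M) u ∧ det2 (p - M) u ≤ yL + h)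
    (hpos : 0 < h) (hρ0 : 0 ≤ ρ) (hρ : ρ * (2 * h) ≤ v) :
    ENNReal.ofReal ρ ≤ packingDensity K := by
  set U := interior K with hU
  have hUo : IsOpen U := isOpen_interior
  have hUc : Convex ℝ U := hK.interior
  have hUK : U ⊆ K := interior_subset
  set r : Plane := (det2 g u)⁻¹ • g with hr
  have hru : det2 r u = 1 := by
    have : det2 r u = (det2 g u)⁻¹ * det2 g u := by simp [hr, det2]; ring
    rw [this]; field_simp
  have no2 : ∀ q ∈ U, q + (2 : ℝ) • u ∉ U := by
    intro q hq hq2
    obtain ⟨e, he, he'⟩ := open_move U hUo q hq (-u)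
    have h1 := (hl _ (hUK he')).1
    have h2 := (hl _ (hUK hq2)).2
    have e1 : det2 g (q + e • -u - M) = det2 g (q - M) - e * det2 g u := by simp [det2]; ring
    have e2 : det2 g (q + (2 : ℝ) • u - M) = det2 g (q - M) + 2 * det2 g u := by simp [det2]; ring
    have := mul_pos he hgu
    linarith
  have strict : ∀ p, p ∈ U → p + u ∈ U → yL < det2 (p - M) u ∧ det2 (p - M) u < yL + h := by
    intro p hp hpu
    have ho : IsOpen (U ∩ (fun x => x + u) ⁻¹' U) := hUo.inter (hUo.preimage (by fun_prop))
    constructor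
    · obtain ⟨e, he, he1, he2⟩ := open_move _ ho p ⟨hp, hpu⟩ (-r)
      have := (hy _ (hUK he1) (hUK he2)).1
      have e1 : det2 (p + e • -r - M) u = det2 (p - M) u - e * det2 r u := by simp [det2]; ring
      rw [e1, hru] at this
      linarith
    · obtain ⟨e, he, he1, he2⟩ := open_move _ ho p ⟨hp, hpu⟩ r
      have := (hy _ (hUK he1) (hUK he2)).2
      have e1 : det2 (p + e • r - M) u = det2 (p - M) u + e * det2 r u := by simp [det2]; ring
      rw [e1, hru] at this
      linarith
  have hMu : M + u ∈ K := by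
    have := hK hM hT (a := 1 / 2) (b := 1 / 2) (by norm_num) (by norm_num) (by norm_num)
    convert this using 1
    module
  have h00 := hy M hM hMu
  have hz : det2 (M - M) u = 0 := by simp [det2]
  rw [hz] at h00
  have heights : ∀ q ∈ U, 2 * yL < det2 (q - M) u ∧ det2 (q - M) u < 2 * (yL + h) := by
    intro q hq
    have m1 := hK.combo_interior_self_mem_interior hq hM (a := 1 / 2) (b := 1 / 2)
      (by norm_num) (by norm_num) (by norm_num)
    have m2 := hK.combo_interior_self_mem_interior hq hT (a := 1 / 2) (b := 1 / 2)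
      (by norm_num) (by norm_num) (by norm_num)
    have e : (1 / 2 : ℝ) • q + (1 / 2 : ℝ) • (M + (2 : ℝ) • u)
        = (1 / 2 : ℝ) • q + (1 / 2 : ℝ) • M + u := by module
    rw [e] at m2
    have := strict _ m1 m2
    have e2 : det2 ((1 / 2 : ℝ) • q + (1 / 2 : ℝ) • M - M) u = det2 (q - M) u / 2 := by
      simp [det2]; ring
    rw [e2] at this
    constructor <;> linarith [this.1, this.2]
  have av : ∀ Y : ℝ, (Y = yL ∨ Y = yL + h) →
      ∃ p : Plane, det2 (p - M) u = Y ∧ ∀ k : ℤ, p + (k : ℝ) • u ∉ U := by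
    intro Y hY
    have ed : ∀ t : ℝ, det2 (M + Y • r + t • u - M) u = Y := by
      intro t
      have : det2 (M + Y • r + t • u - M) u = Y * det2 r u := by simp [det2]; ring
      rw [this, hru, mul_one]
    obtain ⟨s, hs⟩ := avoid U hUo hUc (M + Y • r) u (by
      intro t h1 h2
      have := strict _ h1 h2
      rw [ed] at this
      rcases hY with rfl | rfl
      · exact lt_irrefl _ this.1
      · exact lt_irrefl _ this.2)
    exact ⟨_, ed s, hs⟩
  obtain ⟨pL, hpL, aL⟩ := av yL (Or.inl rfl)
  obtain ⟨pR, hpR, aR⟩ := av (yL + h) (Or.inr rfl)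
  set w := pR - pL with hw
  have hwu : det2 w u = h := by
    have : det2 w u = det2 (pR - M) u - det2 (pL - M) u := by simp [hw, det2]; ring
    rw [this, hpR, hpL]; ring
  set a : Plane := (2 : ℝ) • u with ha
  set b : Plane := (2 : ℝ) • w with hb
  have hab : det2 a b = - (4 * h) := by
    rw [← hwu]; simp [ha, hb, det2]; ring
  have key1 : ∀ x ∈ U, ∀ m n : ℤ, x + lat a b (m, n) ∈ U → m = 0 ∧ n = 0 := by
    intro x hx m n hx'
    have h1 := heights _ hx
    have h2 := heights _ hx'
    have e : det2 (x + lat a b (m, n) - M) u = det2 (x - M) u + n * (2 * h) := by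
      rw [← hwu]; simp [lat, ha, hb, det2]; ring
    rw [e] at h2
    have hn : n = 0 := by
      have a1 : (n : ℝ) < 1 := by nlinarith [h1.1, h2.2]
      have a2 : (-1 : ℝ) < n := by nlinarith [h1.2, h2.1]
      have a1' : n < 1 := by exact_mod_cast a1
      have a2' : -1 < n := by exact_mod_cast a2
      omega
    subst hn
    refine ⟨?_, rfl⟩
    by_contra hm
    rcases lt_or_gt_of_ne hm with hm | hm
    · have hm' : (m : ℝ) ≤ -1 := by exact_mod_cast (by omega : m ≤ -1)
      have hmne : (m : ℝ) ≠ 0 := by linarith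
      have := hUc hx hx' (a := -1 / m) (b := 1 + 1 / m)
        (div_nonneg_of_nonpos (by norm_num) (by linarith))
        (by
          have : -1 ≤ 1 / (m : ℝ) := by
            rw [le_div_iff_of_neg (by linarith)]; linarith
          linarith) (by ring)
      apply no2 _ hx'
      convert this using 1
      ext i
      simp [lat, ha]
      field_simp
      ring
    · have hm' : (1 : ℝ) ≤ m := by exact_mod_cast (by omega : 1 ≤ m)
      have hmne : (m : ℝ) ≠ 0 := by linarith
      have := hUc hx hx' (a := 1 - 1 / m) (b := 1 / m)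
        (by
          have : 1 / (m : ℝ) ≤ 1 := by
            rw [div_le_iff₀ (by linarith)]; linarith
          linarith) (by positivity) (by ring)
      apply no2 _ hx
      convert this using 1
      ext i
      simp [lat, ha]
      field_simp
      ring
  have key2 : ∀ x ∈ U, ∀ x' ∈ U, ∀ m n : ℤ, x + x' ≠ (2 : ℝ) • pL + lat a b (m, n) := by
    intro x hx x' hx' m n he
    have hmid := hUc hx hx' (a := 1 / 2) (b := 1 / 2) (by norm_num) (by norm_num) (by norm_num)
    have e : (1 / 2 : ℝ) • x + (1 / 2 : ℝ) • x' = pL + (n : ℝ) • w + (m : ℝ) • u := by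
      rw [← smul_add, he]; unfold lat; simp only [ha, hb]; module
    rw [e] at hmid
    have h1 := heights _ hmid
    have e2 : det2 (pL + (n : ℝ) • w + (m : ℝ) • u - M) u = yL + n * h := by
      rw [← hwu, ← hpL]; simp [det2]; ring
    rw [e2] at h1
    have a1 : (n : ℝ) < 2 := by nlinarith [h1.2, h00.1]
    have a2 : (-1 : ℝ) < n := by nlinarith [h1.1, h00.2]
    have a1' : n < 2 := by exact_mod_cast a1
    have a2' : -1 < n := by exact_mod_cast a2
    have : n = 0 ∨ n = 1 := by omega
    rcases this with rfl | rfl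
    · apply aL m; simpa using hmid
    · apply aR m; simpa [hw] using hmid
  let iso : Bool × ℤ × ℤ → Plane ≃ᵢ Plane := fun i =>
    if i.1 then IsometryEquiv.addLeft (lat a b i.2) else refl (lat a b i.2 + (2 : ℝ) • pL)
  let F : Bool × ℤ × ℤ → Set Plane := fun i => iso i '' K
  have latsub : ∀ z z' : ℤ × ℤ, lat a b z - lat a b z' = lat a b (z.1 - z'.1, z.2 - z'.2) := by
    intro z z'; unfold lat; push_cast; module
  have hdis : ∀ i j, i ≠ j → Disjoint (interior (F i)) (interior (F j)) := by
    rintro ⟨s, z⟩ ⟨s', z'⟩ hij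
    simp only [F, interior_iso]
    rw [Set.disjoint_left]
    rintro _ ⟨x, hx, rfl⟩ ⟨x', hx', he⟩
    cases s <;> cases s' <;> simp only [iso, refl_apply, if_true, Bool.false_eq_true, if_false,
      IsometryEquiv.addLeft_apply] at he
    · have : x + lat a b (z'.1 - z.1, z'.2 - z.2) = x' := by
        rw [← latsub]
        have : x' = lat a b z' + (2 : ℝ) • pL - (lat a b z + (2 : ℝ) • pL - x) := by
          rw [← he]; abel
        rw [this]; abel
      have := key1 x hx _ _ (this ▸ hx')
      apply hij
      ext <;> simp <;> omega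
    · apply key2 x hx x' hx' (z.1 - z'.1) (z.2 - z'.2)
      rw [← latsub]
      have : x' = lat a b z + (2 : ℝ) • pL - x - lat a b z' := by rw [← he]; abel
      rw [this]; abel
    · apply key2 x hx x' hx' (z'.1 - z.1) (z'.2 - z.2)
      rw [← latsub]
      have : x = lat a b z' + (2 : ℝ) • pL - x' - lat a b z := by rw [he]; abel
      rw [this]; abel
    · have : x + lat a b (z.1 - z'.1, z.2 - z'.2) = x' := by
        rw [← latsub]
        have : x' = lat a b z + x - lat a b z' := by rw [← he]; abel
        rw [this]; abel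
      have := key1 x hx _ _ (this ▸ hx')
      apply hij
      ext <;> simp <;> omega
  have inj : Function.Injective F := by
    intro i j hij
    by_contra hne'
    have := hdis i j hne'
    rw [← hij, disjoint_self] at this
    have h2 : (interior (F i)).Nonempty := by
      simp only [F, interior_iso]; exact hne.image _
    exact h2.ne_empty this
  have hpack : IsPacking K (range F) := by
    refine ⟨?_, ?_⟩
    · rintro _ ⟨i, rfl⟩; exact ⟨iso i, rfl⟩
    · rintro _ ⟨i, rfl⟩ _ ⟨j, rfl⟩ hij
      exact hdis i j (fun h => hij (h ▸ rfl))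
  have hd := density_ge K (refl ((2 : ℝ) • pL) '' K) a b v ρ (R + ‖(2 : ℝ) • pL‖)
    (by rw [hab]; linarith)
    (hR.trans (ball_subset_ball (by linarith [norm_nonneg ((2 : ℝ) • pL)])))
    (by
      rintro _ ⟨x, hx, rfl⟩
      have := hR hx
      rw [mem_ball_zero_iff] at this ⊢
      rw [refl_apply]
      linarith [norm_sub_le ((2 : ℝ) • pL) x])
    hv
    (by
      have : refl ((2 : ℝ) • pL) '' K = (fun x => (2 : ℝ) • pL + x) '' (-K) := by
        ext y; simp only [mem_image, refl_apply, Set.mem_neg]
        constructor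
        · rintro ⟨x, hx, rfl⟩; exact ⟨-x, by simpa using hx, by abel⟩
        · rintro ⟨x, hx, rfl⟩; exact ⟨-x, hx, by abel⟩
      rw [this, vol_shift, Measure.measure_neg]; exact hv)
    hv0 hρ0 (by rw [hab, abs_neg, abs_of_pos (by linarith)]; linarith) F
    (by intro z; simp [F, iso])
    (by
      intro z
      simp only [F, iso, Bool.false_eq_true, if_false, image_image, refl_apply]
      congr 1; ext x; simp only [PiLp.add_apply, PiLp.sub_apply]; ring)
    inj
  exact hd.trans (le_iSup₂_of_le (f := fun F (_ : IsPacking K F) => density F) _ hpack le_rfl)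

end Pool.Agent.MP_5c967c_co.H46
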