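import Pool.Agent.MP_5c967c_co.H46.Sound2
import Pool.Agent.MP_5c967c_co.H46.CC0
import Pool.Agent.MP_5c967c_co.H46.CC1

namespace Pool.Agent.MP_5c967c_co.H46

theorem okC : TyOK tyC := by decide +kernel

theorem rsC {lo hi : V6} {ctx : List ℕ} {tr : Tr} (h : run tyC 1000 917 lo hi ctx tr = true) :
    Claim tyC (1000 / (4 * 917) : ℝ) lo hi ctx :=
  run_sound okC (by norm_num) (by norm_num) (by norm_num) (by norm_num) h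

theorem nC0 : Claim tyC (1000 / (4 * 917) : ℝ) ⟨640, 0, 256, 0, 0, 0⟩ ⟨768, 512, 512, 512, 512, 256⟩ ctxC :=
  Claim.split 4 256 (by decide) (rsC tC0.2.2.2.1) (rsC tC0.2.2.2.2.1)

theorem nC1 : Claim tyC (1000 / (4 * 917) : ℝ) ⟨512, 0, 256, 0, 0, 0⟩ ⟨768, 512, 512, 512, 512, 256⟩ ctxC :=
  Claim.split 0 640 (by decide) (rsC tC0.2.2.1) nC0

theorem nC2 : Claim tyC (1000 / (4 * 917) : ℝ) ⟨512, 0, 0, 0, 0, 0⟩ ⟨768, 512, 512, 512, 512, 256⟩ ctxC :=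
  Claim.split 2 256 (by decide) (rsC tC0.2.1) nC1

theorem nC3 : Claim tyC (1000 / (4 * 917) : ℝ) ⟨512, 0, 0, 0, 0, 0⟩ ⟨768, 512, 512, 512, 512, 512⟩ ctxC :=
  Claim.split 5 256 (by decide) nC2 (rsC tC0.2.2.2.2.2.1)

theorem nC4 : Claim tyC (1000 / (4 * 917) : ℝ) ⟨768, 0, 256, 0, 0, 0⟩ ⟨1024, 256, 512, 256, 512, 512⟩ ctxC :=
  Claim.split 4 256 (by decide) (rsC tC0.2.2.2.2.2.2.2.1) (rsC tC0.2.2.2.2.2.2.2.2.1)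

theorem nC5 : Claim tyC (1000 / (4 * 917) : ℝ) ⟨768, 0, 256, 0, 0, 0⟩ ⟨1024, 512, 512, 256, 512, 512⟩ ctxC :=
  Claim.split 1 256 (by decide) nC4 (rsC tC0.2.2.2.2.2.2.2.2.2.1)

theorem nC6 : Claim tyC (1000 / (4 * 917) : ℝ) ⟨768, 0, 256, 256, 0, 0⟩ ⟨1024, 512, 512, 512, 512, 512⟩ ctxC :=
  Claim.split 4 256 (by decide) (rsC tC0.2.2.2.2.2.2.2.2.2.2.1) (rsC tC0.2.2.2.2.2.2.2.2.2.2.2.1)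

theorem nC7 : Claim tyC (1000 / (4 * 917) : ℝ) ⟨768, 0, 256, 0, 0, 0⟩ ⟨1024, 512, 512, 512, 512, 512⟩ ctxC :=
  Claim.split 3 256 (by decide) nC5 nC6

theorem nC8 : Claim tyC (1000 / (4 * 917) : ℝ) ⟨768, 0, 0, 0, 0, 0⟩ ⟨1024, 512, 512, 512, 512, 512⟩ ctxC :=
  Claim.split 2 256 (by decide) (rsC tC0.2.2.2.2.2.2.1) nC7

theorem nC9 : Claim tyC (1000 / (4 * 917) : ℝ) ⟨512, 0, 0, 0, 0, 0⟩ ⟨1024, 512, 512, 512, 512, 512⟩ ctxC :=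
  Claim.split 0 768 (by decide) nC3 nC8

theorem nC10 : Claim tyC (1000 / (4 * 917) : ℝ) ⟨512, 0, 0, 0, 0, 0⟩ ⟨1024, 512, 512, 512, 512, 1024⟩ ctxC :=
  Claim.split 5 512 (by decide) nC9 (rsC tC0.2.2.2.2.2.2.2.2.2.2.2.2.1)

theorem nC11 : Claim tyC (1000 / (4 * 917) : ℝ) ⟨512, 0, 0, 0, 512, 0⟩ ⟨1024, 512, 512, 512, 1024, 1024⟩ ctxC :=
  Claim.split 5 512 (by decide) (rsC tC0.2.2.2.2.2.2.2.2.2.2.2.2.2.1) (rsC tC0.2.2.2.2.2.2.2.2.2.2.2.2.2.2.1)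

theorem nC12 : Claim tyC (1000 / (4 * 917) : ℝ) ⟨512, 0, 0, 0, 0, 0⟩ ⟨1024, 512, 512, 512, 1024, 1024⟩ ctxC :=
  Claim.split 4 512 (by decide) nC10 nC11

theorem nC13 : Claim tyC (1000 / (4 * 917) : ℝ) ⟨512, 0, 0, 512, 0, 0⟩ ⟨1024, 512, 512, 1024, 1024, 1024⟩ ctxC :=
  Claim.split 4 512 (by decide) (rsC tC0.2.2.2.2.2.2.2.2.2.2.2.2.2.2.2.1) (rsC tC0.2.2.2.2.2.2.2.2.2.2.2.2.2.2.2.2.1)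

theorem nC14 : Claim tyC (1000 / (4 * 917) : ℝ) ⟨512, 0, 0, 0, 0, 0⟩ ⟨1024, 512, 512, 1024, 1024, 1024⟩ ctxC :=
  Claim.split 3 512 (by decide) nC12 nC13

theorem nC15 : Claim tyC (1000 / (4 * 917) : ℝ) ⟨512, 0, 512, 0, 256, 0⟩ ⟨768, 512, 1024, 512, 512, 512⟩ ctxC :=
  Claim.split 2 768 (by decide) (rsC tC0.2.2.2.2.2.2.2.2.2.2.2.2.2.2.2.2.2.2.1) (rsC tC0.2.2.2.2.2.2.2.2.2.2.2.2.2.2.2.2.2.2.2.1)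

theorem nC16 : Claim tyC (1000 / (4 * 917) : ℝ) ⟨512, 0, 512, 0, 0, 0⟩ ⟨768, 512, 1024, 512, 512, 512⟩ ctxC :=
  Claim.split 4 256 (by decide) (rsC tC0.2.2.2.2.2.2.2.2.2.2.2.2.2.2.2.2.2.1) nC15

theorem nC17 : Claim tyC (1000 / (4 * 917) : ℝ) ⟨960, 0, 512, 0, 0, 0⟩ ⟨1024, 512, 640, 512, 512, 512⟩ (16962 :: ctxC) :=
  Claim.split 1 256 (by decide) (rsC tC0.2.2.2.2.2.2.2.2.2.2.2.2.2.2.2.2.2.2.2.2.2.2.1) (rsC tC0.2.2.2.2.2.2.2.2.2.2.2.2.2.2.2.2.2.2.2.2.2.2.2.1)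

theorem nC18 : Claim tyC (1000 / (4 * 917) : ℝ) ⟨896, 0, 512, 0, 0, 0⟩ ⟨1024, 512, 640, 512, 512, 512⟩ (16962 :: ctxC) :=
  Claim.split 0 960 (by decide) (rsC tC0.2.2.2.2.2.2.2.2.2.2.2.2.2.2.2.2.2.2.2.2.2.1) nC17

theorem nC19 : Claim tyC (1000 / (4 * 917) : ℝ) ⟨768, 0, 512, 0, 0, 0⟩ ⟨1024, 512, 640, 512, 512, 512⟩ (16962 :: ctxC) :=
  Claim.split 0 896 (by decide) (rsC tC0.2.2.2.2.2.2.2.2.2.2.2.2.2.2.2.2.2.2.2.2.1) nC18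

theorem nC20 : Claim tyC (1000 / (4 * 917) : ℝ) ⟨768, 0, 512, 0, 0, 0⟩ ⟨1024, 256, 640, 256, 256, 256⟩ (24702 :: ctxC) :=
  Claim.split 4 128 (by decide) (rsC tC0.2.2.2.2.2.2.2.2.2.2.2.2.2.2.2.2.2.2.2.2.2.2.2.2.1) (rsC tC0.2.2.2.2.2.2.2.2.2.2.2.2.2.2.2.2.2.2.2.2.2.2.2.2.2.1)

theorem nC21 : Claim tyC (1000 / (4 * 917) : ℝ) ⟨768, 0, 512, 0, 0, 0⟩ ⟨1024, 512, 640, 256, 256, 256⟩ (24702 :: ctxC) :=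
  Claim.split 1 256 (by decide) nC20 (rsC tC0.2.2.2.2.2.2.2.2.2.2.2.2.2.2.2.2.2.2.2.2.2.2.2.2.2.2.1)

theorem nC22 : Claim tyC (1000 / (4 * 917) : ℝ) ⟨768, 0, 512, 0, 0, 0⟩ ⟨1024, 512, 640, 512, 256, 256⟩ (24702 :: ctxC) :=
  Claim.split 3 256 (by decide) nC21 (rsC tC0.2.2.2.2.2.2.2.2.2.2.2.2.2.2.2.2.2.2.2.2.2.2.2.2.2.2.2.1)

theorem nC23 : Claim tyC (1000 / (4 * 917) : ℝ) ⟨768, 0, 512, 0, 0, 0⟩ ⟨1024, 512, 640, 512, 256, 512⟩ (24702 :: ctxC) :=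
  Claim.split 5 256 (by decide) nC22 (rsC tC0.2.2.2.2.2.2.2.2.2.2.2.2.2.2.2.2.2.2.2.2.2.2.2.2.2.2.2.2.1)

theorem nC24 : Claim tyC (1000 / (4 * 917) : ℝ) ⟨768, 0, 512, 0, 256, 0⟩ ⟨1024, 256, 640, 256, 512, 512⟩ (24702 :: ctxC) :=
  Claim.split 5 256 (by decide) (rsC tC0.2.2.2.2.2.2.2.2.2.2.2.2.2.2.2.2.2.2.2.2.2.2.2.2.2.2.2.2.2.1) (rsC tC0.2.2.2.2.2.2.2.2.2.2.2.2.2.2.2.2.2.2.2.2.2.2.2.2.2.2.2.2.2.2.1)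

theorem nC25 : Claim tyC (1000 / (4 * 917) : ℝ) ⟨768, 0, 512, 0, 256, 0⟩ ⟨1024, 512, 640, 256, 512, 512⟩ (24702 :: ctxC) :=
  Claim.split 1 256 (by decide) nC24 (rsC tC0.2.2.2.2.2.2.2.2.2.2.2.2.2.2.2.2.2.2.2.2.2.2.2.2.2.2.2.2.2.2.2.1)

theorem nC26 : Claim tyC (1000 / (4 * 917) : ℝ) ⟨768, 256, 512, 256, 256, 0⟩ ⟨1024, 384, 640, 512, 512, 512⟩ (4376 :: 24702 :: ctxC) :=
  Claim.br 3001 (rsC tC0.2.2.2.2.2.2.2.2.2.2.2.2.2.2.2.2.2.2.2.2.2.2.2.2.2.2.2.2.2.2.2.2.2.2.1) (rsC tC0.2.2.2.2.2.2.2.2.2.2.2.2.2.2.2.2.2.2.2.2.2.2.2.2.2.2.2.2.2.2.2.2.2.2.2.1)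

theorem nC27 : Claim tyC (1000 / (4 * 917) : ℝ) ⟨768, 256, 512, 256, 256, 0⟩ ⟨1024, 384, 640, 512, 512, 512⟩ (24702 :: ctxC) :=
  Claim.br 12116 (rsC tC0.2.2.2.2.2.2.2.2.2.2.2.2.2.2.2.2.2.2.2.2.2.2.2.2.2.2.2.2.2.2.2.2.2.1) nC26

theorem nC28 : Claim tyC (1000 / (4 * 917) : ℝ) ⟨768, 256, 512, 256, 256, 0⟩ ⟨1024, 512, 640, 512, 512, 512⟩ (24702 :: ctxC) :=
  Claim.split 1 384 (by decide) nC27 (rsC tC0.2.2.2.2.2.2.2.2.2.2.2.2.2.2.2.2.2.2.2.2.2.2.2.2.2.2.2.2.2.2.2.2.2.2.2.2.1)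

theorem nC29 : Claim tyC (1000 / (4 * 917) : ℝ) ⟨768, 0, 512, 256, 256, 0⟩ ⟨1024, 512, 640, 512, 512, 512⟩ (24702 :: ctxC) :=
  Claim.split 1 256 (by decide) (rsC tC0.2.2.2.2.2.2.2.2.2.2.2.2.2.2.2.2.2.2.2.2.2.2.2.2.2.2.2.2.2.2.2.2.1) nC28

theorem nC30 : Claim tyC (1000 / (4 * 917) : ℝ) ⟨768, 0, 512, 0, 256, 0⟩ ⟨1024, 512, 640, 512, 512, 512⟩ (24702 :: ctxC) :=
  Claim.split 3 256 (by decide) nC25 nC29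

theorem nC31 : Claim tyC (1000 / (4 * 917) : ℝ) ⟨768, 0, 512, 0, 0, 0⟩ ⟨1024, 512, 640, 512, 512, 512⟩ (24702 :: ctxC) :=
  Claim.split 4 256 (by decide) nC23 nC30

theorem nC32 : Claim tyC (1000 / (4 * 917) : ℝ) ⟨768, 0, 512, 0, 0, 0⟩ ⟨1024, 512, 640, 512, 512, 512⟩ ctxC :=
  Claim.br 16962 nC19 nC31

theorem nC33 : Claim tyC (1000 / (4 * 917) : ℝ) ⟨768, 0, 640, 0, 0, 0⟩ ⟨1024, 512, 768, 512, 256, 512⟩ ctxC :=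
  Claim.split 5 256 (by decide) (rsC tC0.2.2.2.2.2.2.2.2.2.2.2.2.2.2.2.2.2.2.2.2.2.2.2.2.2.2.2.2.2.2.2.2.2.2.2.2.2.1) (rsC tC0.2.2.2.2.2.2.2.2.2.2.2.2.2.2.2.2.2.2.2.2.2.2.2.2.2.2.2.2.2.2.2.2.2.2.2.2.2.2.1)

theorem nC34 : Claim tyC (1000 / (4 * 917) : ℝ) ⟨768, 0, 640, 0, 256, 0⟩ ⟨1024, 256, 768, 256, 512, 256⟩ ctxC :=
  Claim.split 3 128 (by decide) (rsC tC0.2.2.2.2.2.2.2.2.2.2.2.2.2.2.2.2.2.2.2.2.2.2.2.2.2.2.2.2.2.2.2.2.2.2.2.2.2.2.2.1) (rsC tC0.2.2.2.2.2.2.2.2.2.2.2.2.2.2.2.2.2.2.2.2.2.2.2.2.2.2.2.2.2.2.2.2.2.2.2.2.2.2.2.2.1)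

theorem nC35 : Claim tyC (1000 / (4 * 917) : ℝ) ⟨768, 0, 640, 0, 256, 0⟩ ⟨1024, 512, 768, 256, 512, 256⟩ ctxC :=
  Claim.split 1 256 (by decide) nC34 (rsC tC0.2.2.2.2.2.2.2.2.2.2.2.2.2.2.2.2.2.2.2.2.2.2.2.2.2.2.2.2.2.2.2.2.2.2.2.2.2.2.2.2.2.1)

theorem nC36 : Claim tyC (1000 / (4 * 917) : ℝ) ⟨768, 0, 640, 0, 256, 0⟩ ⟨1024, 512, 768, 256, 512, 512⟩ ctxC :=
  Claim.split 5 256 (by decide) nC35 (rsC tC0.2.2.2.2.2.2.2.2.2.2.2.2.2.2.2.2.2.2.2.2.2.2.2.2.2.2.2.2.2.2.2.2.2.2.2.2.2.2.2.2.2.2.1)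

theorem nC37 : Claim tyC (1000 / (4 * 917) : ℝ) ⟨768, 0, 640, 256, 256, 256⟩ ⟨1024, 512, 768, 512, 512, 512⟩ ctxC :=
  Claim.split 0 896 (by decide) (rsC tC0.2.2.2.2.2.2.2.2.2.2.2.2.2.2.2.2.2.2.2.2.2.2.2.2.2.2.2.2.2.2.2.2.2.2.2.2.2.2.2.2.2.2.2.2.1) (rsC tC0.2.2.2.2.2.2.2.2.2.2.2.2.2.2.2.2.2.2.2.2.2.2.2.2.2.2.2.2.2.2.2.2.2.2.2.2.2.2.2.2.2.2.2.2.2.1)

theorem nC38 : Claim tyC (1000 / (4 * 917) : ℝ) ⟨768, 0, 640, 256, 256, 0⟩ ⟨1024, 512, 768, 512, 512, 512⟩ ctxC :=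
  Claim.split 5 256 (by decide) (rsC tC0.2.2.2.2.2.2.2.2.2.2.2.2.2.2.2.2.2.2.2.2.2.2.2.2.2.2.2.2.2.2.2.2.2.2.2.2.2.2.2.2.2.2.2.1) nC37

theorem nC39 : Claim tyC (1000 / (4 * 917) : ℝ) ⟨768, 0, 640, 0, 256, 0⟩ ⟨1024, 512, 768, 512, 512, 512⟩ ctxC :=
  Claim.split 3 256 (by decide) nC36 nC38

theorem nC40 : Claim tyC (1000 / (4 * 917) : ℝ) ⟨768, 0, 640, 0, 0, 0⟩ ⟨1024, 512, 768, 512, 512, 512⟩ ctxC :=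
  Claim.split 4 256 (by decide) nC33 nC39

theorem nC41 : Claim tyC (1000 / (4 * 917) : ℝ) ⟨768, 0, 512, 0, 0, 0⟩ ⟨1024, 512, 768, 512, 512, 512⟩ ctxC :=
  Claim.split 2 640 (by decide) nC32 nC40

theorem nC42 : Claim tyC (1000 / (4 * 917) : ℝ) ⟨768, 0, 768, 256, 256, 0⟩ ⟨1024, 256, 1024, 512, 512, 512⟩ ctxC :=
  Claim.split 0 896 (by decide) (rsC tC0.2.2.2.2.2.2.2.2.2.2.2.2.2.2.2.2.2.2.2.2.2.2.2.2.2.2.2.2.2.2.2.2.2.2.2.2.2.2.2.2.2.2.2.2.2.2.2.2.1) (rsC tC0.2.2.2.2.2.2.2.2.2.2.2.2.2.2.2.2.2.2.2.2.2.2.2.2.2.2.2.2.2.2.2.2.2.2.2.2.2.2.2.2.2.2.2.2.2.2.2.2.2.1)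

theorem nC43 : Claim tyC (1000 / (4 * 917) : ℝ) ⟨768, 256, 768, 256, 256, 0⟩ ⟨1024, 512, 1024, 512, 512, 512⟩ (4376 :: 41701 :: ctxC) :=
  Claim.split 0 896 (by decide) (rsC tC0.2.2.2.2.2.2.2.2.2.2.2.2.2.2.2.2.2.2.2.2.2.2.2.2.2.2.2.2.2.2.2.2.2.2.2.2.2.2.2.2.2.2.2.2.2.2.2.2.2.2.2.2.1) (rsC tC0.2.2.2.2.2.2.2.2.2.2.2.2.2.2.2.2.2.2.2.2.2.2.2.2.2.2.2.2.2.2.2.2.2.2.2.2.2.2.2.2.2.2.2.2.2.2.2.2.2.2.2.2.2.1)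

theorem nC44 : Claim tyC (1000 / (4 * 917) : ℝ) ⟨768, 256, 768, 256, 256, 0⟩ ⟨1024, 512, 1024, 512, 512, 512⟩ (41701 :: ctxC) :=
  Claim.br 12116 (rsC tC0.2.2.2.2.2.2.2.2.2.2.2.2.2.2.2.2.2.2.2.2.2.2.2.2.2.2.2.2.2.2.2.2.2.2.2.2.2.2.2.2.2.2.2.2.2.2.2.2.2.2.2.1) nC43

theorem nC45 : Claim tyC (1000 / (4 * 917) : ℝ) ⟨768, 256, 768, 256, 256, 0⟩ ⟨1024, 512, 1024, 512, 512, 512⟩ ctxC :=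
  Claim.br 3001 (rsC tC0.2.2.2.2.2.2.2.2.2.2.2.2.2.2.2.2.2.2.2.2.2.2.2.2.2.2.2.2.2.2.2.2.2.2.2.2.2.2.2.2.2.2.2.2.2.2.2.2.2.2.1) nC44

theorem nC46 : Claim tyC (1000 / (4 * 917) : ℝ) ⟨768, 0, 768, 256, 256, 0⟩ ⟨1024, 512, 1024, 512, 512, 512⟩ ctxC :=
  Claim.split 1 256 (by decide) nC42 nC45

theorem nC47 : Claim tyC (1000 / (4 * 917) : ℝ) ⟨768, 0, 768, 0, 256, 0⟩ ⟨1024, 512, 1024, 512, 512, 512⟩ ctxC :=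
  Claim.split 3 256 (by decide) (rsC tC0.2.2.2.2.2.2.2.2.2.2.2.2.2.2.2.2.2.2.2.2.2.2.2.2.2.2.2.2.2.2.2.2.2.2.2.2.2.2.2.2.2.2.2.2.2.2.2.1) nC46

theorem nC48 : Claim tyC (1000 / (4 * 917) : ℝ) ⟨768, 0, 768, 0, 0, 0⟩ ⟨1024, 512, 1024, 512, 512, 512⟩ ctxC :=
  Claim.split 4 256 (by decide) (rsC tC0.2.2.2.2.2.2.2.2.2.2.2.2.2.2.2.2.2.2.2.2.2.2.2.2.2.2.2.2.2.2.2.2.2.2.2.2.2.2.2.2.2.2.2.2.2.2.1) nC47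

theorem nC49 : Claim tyC (1000 / (4 * 917) : ℝ) ⟨768, 0, 512, 0, 0, 0⟩ ⟨1024, 512, 1024, 512, 512, 512⟩ ctxC :=
  Claim.split 2 768 (by decide) nC41 nC48

theorem nC50 : Claim tyC (1000 / (4 * 917) : ℝ) ⟨512, 0, 512, 0, 0, 0⟩ ⟨1024, 512, 1024, 512, 512, 512⟩ ctxC :=
  Claim.split 0 768 (by decide) nC16 nC49

theorem nC51 : Claim tyC (1000 / (4 * 917) : ℝ) ⟨512, 0, 512, 0, 0, 0⟩ ⟨1024, 512, 1024, 512, 512, 1024⟩ ctxC :=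
  Claim.split 5 512 (by decide) nC50 (rsC tC0.2.2.2.2.2.2.2.2.2.2.2.2.2.2.2.2.2.2.2.2.2.2.2.2.2.2.2.2.2.2.2.2.2.2.2.2.2.2.2.2.2.2.2.2.2.2.2.2.2.2.2.2.2.2.1)

theorem nC52 : Claim tyC (1000 / (4 * 917) : ℝ) ⟨896, 0, 512, 0, 512, 128⟩ ⟨1024, 256, 1024, 512, 768, 256⟩ ctxC :=
  Claim.split 4 640 (by decide) (rsC tC0.2.2.2.2.2.2.2.2.2.2.2.2.2.2.2.2.2.2.2.2.2.2.2.2.2.2.2.2.2.2.2.2.2.2.2.2.2.2.2.2.2.2.2.2.2.2.2.2.2.2.2.2.2.2.2.2.2.2.1) (rsC tC0.2.2.2.2.2.2.2.2.2.2.2.2.2.2.2.2.2.2.2.2.2.2.2.2.2.2.2.2.2.2.2.2.2.2.2.2.2.2.2.2.2.2.2.2.2.2.2.2.2.2.2.2.2.2.2.2.2.2.2.1)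

theorem nC53 : Claim tyC (1000 / (4 * 917) : ℝ) ⟨896, 0, 512, 0, 512, 0⟩ ⟨1024, 256, 1024, 512, 768, 256⟩ ctxC :=
  Claim.split 5 128 (by decide) (rsC tC0.2.2.2.2.2.2.2.2.2.2.2.2.2.2.2.2.2.2.2.2.2.2.2.2.2.2.2.2.2.2.2.2.2.2.2.2.2.2.2.2.2.2.2.2.2.2.2.2.2.2.2.2.2.2.2.2.2.1) nC52

theorem nC54 : Claim tyC (1000 / (4 * 917) : ℝ) ⟨896, 128, 512, 0, 512, 256⟩ ⟨1024, 256, 1024, 512, 768, 512⟩ (4376 :: 16673 :: ctxC) :=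
  Claim.split 3 256 (by decide) (rsC tC0.2.2.2.2.2.2.2.2.2.2.2.2.2.2.2.2.2.2.2.2.2.2.2.2.2.2.2.2.2.2.2.2.2.2.2.2.2.2.2.2.2.2.2.2.2.2.2.2.2.2.2.2.2.2.2.2.2.2.2.2.2.2.2.1) (rsC tC1.1)

theorem nC55 : Claim tyC (1000 / (4 * 917) : ℝ) ⟨896, 128, 512, 0, 512, 256⟩ ⟨1024, 256, 1024, 512, 768, 512⟩ (16673 :: ctxC) :=
  Claim.br 12116 (rsC tC0.2.2.2.2.2.2.2.2.2.2.2.2.2.2.2.2.2.2.2.2.2.2.2.2.2.2.2.2.2.2.2.2.2.2.2.2.2.2.2.2.2.2.2.2.2.2.2.2.2.2.2.2.2.2.2.2.2.2.2.2.2.2.1) nC54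

theorem nC56 : Claim tyC (1000 / (4 * 917) : ℝ) ⟨896, 128, 512, 0, 512, 256⟩ ⟨1024, 256, 1024, 512, 768, 512⟩ ctxC :=
  Claim.br 8933 (rsC tC0.2.2.2.2.2.2.2.2.2.2.2.2.2.2.2.2.2.2.2.2.2.2.2.2.2.2.2.2.2.2.2.2.2.2.2.2.2.2.2.2.2.2.2.2.2.2.2.2.2.2.2.2.2.2.2.2.2.2.2.2.2.1) nC55

theorem nC57 : Claim tyC (1000 / (4 * 917) : ℝ) ⟨896, 0, 512, 0, 512, 256⟩ ⟨1024, 256, 1024, 512, 768, 512⟩ ctxC :=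
  Claim.split 1 128 (by decide) (rsC tC0.2.2.2.2.2.2.2.2.2.2.2.2.2.2.2.2.2.2.2.2.2.2.2.2.2.2.2.2.2.2.2.2.2.2.2.2.2.2.2.2.2.2.2.2.2.2.2.2.2.2.2.2.2.2.2.2.2.2.2.2.1) nC56

theorem nC58 : Claim tyC (1000 / (4 * 917) : ℝ) ⟨896, 0, 512, 0, 512, 0⟩ ⟨1024, 256, 1024, 512, 768, 512⟩ ctxC :=
  Claim.split 5 256 (by decide) nC53 nC57

theorem nC59 : Claim tyC (1000 / (4 * 917) : ℝ) ⟨768, 0, 512, 0, 512, 0⟩ ⟨1024, 256, 1024, 512, 768, 512⟩ ctxC :=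
  Claim.split 0 896 (by decide) (rsC tC0.2.2.2.2.2.2.2.2.2.2.2.2.2.2.2.2.2.2.2.2.2.2.2.2.2.2.2.2.2.2.2.2.2.2.2.2.2.2.2.2.2.2.2.2.2.2.2.2.2.2.2.2.2.2.2.2.1) nC58

theorem nC60 : Claim tyC (1000 / (4 * 917) : ℝ) ⟨896, 256, 512, 256, 512, 256⟩ ⟨1024, 512, 1024, 512, 768, 512⟩ (4376 :: 16673 :: ctxC) :=
  Claim.split 4 640 (by decide) (rsC tC1.2.2.2.2.2.2.1) (rsC tC1.2.2.2.2.2.2.2.1)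

theorem nC61 : Claim tyC (1000 / (4 * 917) : ℝ) ⟨896, 256, 512, 256, 512, 256⟩ ⟨1024, 512, 1024, 512, 768, 512⟩ (16673 :: ctxC) :=
  Claim.br 12116 (rsC tC1.2.2.2.2.2.1) nC60

theorem nC62 : Claim tyC (1000 / (4 * 917) : ℝ) ⟨896, 256, 512, 256, 512, 256⟩ ⟨1024, 512, 1024, 512, 768, 512⟩ ctxC :=
  Claim.br 8933 (rsC tC1.2.2.2.2.1) nC61

theorem nC63 : Claim tyC (1000 / (4 * 917) : ℝ) ⟨768, 256, 512, 256, 512, 256⟩ ⟨1024, 512, 1024, 512, 768, 512⟩ ctxC :=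
  Claim.split 0 896 (by decide) (rsC tC1.2.2.2.1) nC62

theorem nC64 : Claim tyC (1000 / (4 * 917) : ℝ) ⟨768, 256, 512, 0, 512, 256⟩ ⟨1024, 512, 1024, 512, 768, 512⟩ ctxC :=
  Claim.split 3 256 (by decide) (rsC tC1.2.2.1) nC63

theorem nC65 : Claim tyC (1000 / (4 * 917) : ℝ) ⟨768, 256, 512, 0, 512, 0⟩ ⟨1024, 512, 1024, 512, 768, 512⟩ ctxC :=
  Claim.split 5 256 (by decide) (rsC tC1.2.1) nC64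

theorem nC66 : Claim tyC (1000 / (4 * 917) : ℝ) ⟨768, 0, 512, 0, 512, 0⟩ ⟨1024, 512, 1024, 512, 768, 512⟩ ctxC :=
  Claim.split 1 256 (by decide) nC59 nC65

theorem nC67 : Claim tyC (1000 / (4 * 917) : ℝ) ⟨768, 0, 512, 0, 512, 0⟩ ⟨1024, 512, 1024, 512, 1024, 512⟩ ctxC :=
  Claim.split 4 768 (by decide) nC66 (rsC tC1.2.2.2.2.2.2.2.2.1)

theorem nC68 : Claim tyC (1000 / (4 * 917) : ℝ) ⟨512, 0, 512, 0, 512, 0⟩ ⟨1024, 512, 1024, 512, 1024, 512⟩ ctxC :=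
  Claim.split 0 768 (by decide) (rsC tC0.2.2.2.2.2.2.2.2.2.2.2.2.2.2.2.2.2.2.2.2.2.2.2.2.2.2.2.2.2.2.2.2.2.2.2.2.2.2.2.2.2.2.2.2.2.2.2.2.2.2.2.2.2.2.2.1) nC67

theorem nC69 : Claim tyC (1000 / (4 * 917) : ℝ) ⟨768, 0, 512, 0, 512, 512⟩ ⟨1024, 512, 1024, 512, 1024, 1024⟩ ctxC :=
  Claim.split 4 768 (by decide) (rsC tC1.2.2.2.2.2.2.2.2.2.2.1) (rsC tC1.2.2.2.2.2.2.2.2.2.2.2.1)

theorem nC70 : Claim tyC (1000 / (4 * 917) : ℝ) ⟨512, 0, 512, 0, 512, 512⟩ ⟨1024, 512, 1024, 512, 1024, 1024⟩ ctxC :=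
  Claim.split 0 768 (by decide) (rsC tC1.2.2.2.2.2.2.2.2.2.1) nC69

theorem nC71 : Claim tyC (1000 / (4 * 917) : ℝ) ⟨512, 0, 512, 0, 512, 0⟩ ⟨1024, 512, 1024, 512, 1024, 1024⟩ ctxC :=
  Claim.split 5 512 (by decide) nC68 nC70

theorem nC72 : Claim tyC (1000 / (4 * 917) : ℝ) ⟨512, 0, 512, 0, 0, 0⟩ ⟨1024, 512, 1024, 512, 1024, 1024⟩ ctxC :=
  Claim.split 4 512 (by decide) nC51 nC71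

theorem nC73 : Claim tyC (1000 / (4 * 917) : ℝ) ⟨896, 256, 512, 512, 256, 0⟩ ⟨1024, 512, 1024, 768, 512, 512⟩ (4376 :: 24702 :: ctxC) :=
  Claim.split 2 768 (by decide) (rsC tC1.2.2.2.2.2.2.2.2.2.2.2.2.2.2.2.2.2.2.1) (rsC tC1.2.2.2.2.2.2.2.2.2.2.2.2.2.2.2.2.2.2.2.1)

theorem nC74 : Claim tyC (1000 / (4 * 917) : ℝ) ⟨896, 256, 512, 512, 256, 0⟩ ⟨1024, 512, 1024, 768, 512, 512⟩ (24702 :: ctxC) :=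
  Claim.br 12116 (rsC tC1.2.2.2.2.2.2.2.2.2.2.2.2.2.2.2.2.2.1) nC73

theorem nC75 : Claim tyC (1000 / (4 * 917) : ℝ) ⟨896, 256, 512, 512, 256, 0⟩ ⟨1024, 512, 1024, 768, 512, 512⟩ ctxC :=
  Claim.br 16962 (rsC tC1.2.2.2.2.2.2.2.2.2.2.2.2.2.2.2.2.1) nC74

theorem nC76 : Claim tyC (1000 / (4 * 917) : ℝ) ⟨896, 0, 512, 512, 256, 0⟩ ⟨1024, 512, 1024, 768, 512, 512⟩ ctxC :=
  Claim.split 1 256 (by decide) (rsC tC1.2.2.2.2.2.2.2.2.2.2.2.2.2.2.2.1) nC75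

theorem nC77 : Claim tyC (1000 / (4 * 917) : ℝ) ⟨768, 0, 512, 512, 256, 0⟩ ⟨1024, 512, 1024, 768, 512, 512⟩ ctxC :=
  Claim.split 0 896 (by decide) (rsC tC1.2.2.2.2.2.2.2.2.2.2.2.2.2.2.1) nC76

theorem nC78 : Claim tyC (1000 / (4 * 917) : ℝ) ⟨768, 0, 512, 512, 256, 0⟩ ⟨1024, 512, 1024, 1024, 512, 512⟩ ctxC :=
  Claim.split 3 768 (by decide) nC77 (rsC tC1.2.2.2.2.2.2.2.2.2.2.2.2.2.2.2.2.2.2.2.2.1)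

theorem nC79 : Claim tyC (1000 / (4 * 917) : ℝ) ⟨768, 0, 512, 512, 0, 0⟩ ⟨1024, 512, 1024, 1024, 512, 512⟩ ctxC :=
  Claim.split 4 256 (by decide) (rsC tC1.2.2.2.2.2.2.2.2.2.2.2.2.2.1) nC78

theorem nC80 : Claim tyC (1000 / (4 * 917) : ℝ) ⟨512, 0, 512, 512, 0, 0⟩ ⟨1024, 512, 1024, 1024, 512, 512⟩ ctxC :=
  Claim.split 0 768 (by decide) (rsC tC1.2.2.2.2.2.2.2.2.2.2.2.2.1) nC79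

theorem nC81 : Claim tyC (1000 / (4 * 917) : ℝ) ⟨512, 0, 512, 512, 0, 0⟩ ⟨1024, 512, 1024, 1024, 512, 1024⟩ ctxC :=
  Claim.split 5 512 (by decide) nC80 (rsC tC1.2.2.2.2.2.2.2.2.2.2.2.2.2.2.2.2.2.2.2.2.2.1)

theorem nC82 : Claim tyC (1000 / (4 * 917) : ℝ) ⟨896, 256, 768, 512, 512, 512⟩ ⟨1024, 512, 1024, 1024, 1024, 1024⟩ ctxC :=
  Claim.split 5 768 (by decide) (rsC tC1.2.2.2.2.2.2.2.2.2.2.2.2.2.2.2.2.2.2.2.2.2.2.2.2.2.2.2.1) (rsC tC1.2.2.2.2.2.2.2.2.2.2.2.2.2.2.2.2.2.2.2.2.2.2.2.2.2.2.2.2.1)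

theorem nC83 : Claim tyC (1000 / (4 * 917) : ℝ) ⟨896, 0, 768, 512, 512, 512⟩ ⟨1024, 512, 1024, 1024, 1024, 1024⟩ ctxC :=
  Claim.split 1 256 (by decide) (rsC tC1.2.2.2.2.2.2.2.2.2.2.2.2.2.2.2.2.2.2.2.2.2.2.2.2.2.2.1) nC82

theorem nC84 : Claim tyC (1000 / (4 * 917) : ℝ) ⟨896, 0, 512, 512, 512, 512⟩ ⟨1024, 512, 1024, 1024, 1024, 1024⟩ ctxC :=
  Claim.split 2 768 (by decide) (rsC tC1.2.2.2.2.2.2.2.2.2.2.2.2.2.2.2.2.2.2.2.2.2.2.2.2.2.1) nC83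

theorem nC85 : Claim tyC (1000 / (4 * 917) : ℝ) ⟨768, 0, 512, 512, 512, 512⟩ ⟨1024, 512, 1024, 1024, 1024, 1024⟩ ctxC :=
  Claim.split 0 896 (by decide) (rsC tC1.2.2.2.2.2.2.2.2.2.2.2.2.2.2.2.2.2.2.2.2.2.2.2.2.1) nC84

theorem nC86 : Claim tyC (1000 / (4 * 917) : ℝ) ⟨512, 0, 512, 512, 512, 512⟩ ⟨1024, 512, 1024, 1024, 1024, 1024⟩ ctxC :=
  Claim.split 0 768 (by decide) (rsC tC1.2.2.2.2.2.2.2.2.2.2.2.2.2.2.2.2.2.2.2.2.2.2.2.1) nC85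

theorem nC87 : Claim tyC (1000 / (4 * 917) : ℝ) ⟨512, 0, 512, 512, 512, 0⟩ ⟨1024, 512, 1024, 1024, 1024, 1024⟩ ctxC :=
  Claim.split 5 512 (by decide) (rsC tC1.2.2.2.2.2.2.2.2.2.2.2.2.2.2.2.2.2.2.2.2.2.2.1) nC86

theorem nC88 : Claim tyC (1000 / (4 * 917) : ℝ) ⟨512, 0, 512, 512, 0, 0⟩ ⟨1024, 512, 1024, 1024, 1024, 1024⟩ ctxC :=
  Claim.split 4 512 (by decide) nC81 nC87

theorem nC89 : Claim tyC (1000 / (4 * 917) : ℝ) ⟨512, 0, 512, 0, 0, 0⟩ ⟨1024, 512, 1024, 1024, 1024, 1024⟩ ctxC :=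
  Claim.split 3 512 (by decide) nC72 nC88

theorem nC90 : Claim tyC (1000 / (4 * 917) : ℝ) ⟨512, 0, 0, 0, 0, 0⟩ ⟨1024, 512, 1024, 1024, 1024, 1024⟩ ctxC :=
  Claim.split 2 512 (by decide) nC14 nC89

theorem nC91 : Claim tyC (1000 / (4 * 917) : ℝ) ⟨512, 512, 0, 0, 0, 0⟩ ⟨1024, 1024, 512, 512, 1024, 1024⟩ ctxC :=
  Claim.split 4 512 (by decide) (rsC tC1.2.2.2.2.2.2.2.2.2.2.2.2.2.2.2.2.2.2.2.2.2.2.2.2.2.2.2.2.2.1) (rsC tC1.2.2.2.2.2.2.2.2.2.2.2.2.2.2.2.2.2.2.2.2.2.2.2.2.2.2.2.2.2.2.1)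

theorem nC92 : Claim tyC (1000 / (4 * 917) : ℝ) ⟨512, 512, 0, 0, 0, 0⟩ ⟨1024, 1024, 512, 1024, 1024, 1024⟩ ctxC :=
  Claim.split 3 512 (by decide) nC91 (rsC tC1.2.2.2.2.2.2.2.2.2.2.2.2.2.2.2.2.2.2.2.2.2.2.2.2.2.2.2.2.2.2.2.1)

theorem nC93 : Claim tyC (1000 / (4 * 917) : ℝ) ⟨512, 512, 512, 256, 256, 0⟩ ⟨1024, 1024, 1024, 512, 512, 512⟩ ctxC :=
  Claim.split 0 768 (by decide) (rsC tC1.2.2.2.2.2.2.2.2.2.2.2.2.2.2.2.2.2.2.2.2.2.2.2.2.2.2.2.2.2.2.2.2.2.2.1) (rsC tC1.2.2.2.2.2.2.2.2.2.2.2.2.2.2.2.2.2.2.2.2.2.2.2.2.2.2.2.2.2.2.2.2.2.2.2.1)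

theorem nC94 : Claim tyC (1000 / (4 * 917) : ℝ) ⟨512, 512, 512, 0, 256, 0⟩ ⟨1024, 1024, 1024, 512, 512, 512⟩ ctxC :=
  Claim.split 3 256 (by decide) (rsC tC1.2.2.2.2.2.2.2.2.2.2.2.2.2.2.2.2.2.2.2.2.2.2.2.2.2.2.2.2.2.2.2.2.2.1) nC93

theorem nC95 : Claim tyC (1000 / (4 * 917) : ℝ) ⟨512, 512, 512, 0, 0, 0⟩ ⟨1024, 1024, 1024, 512, 512, 512⟩ ctxC :=
  Claim.split 4 256 (by decide) (rsC tC1.2.2.2.2.2.2.2.2.2.2.2.2.2.2.2.2.2.2.2.2.2.2.2.2.2.2.2.2.2.2.2.2.1) nC94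

theorem nC96 : Claim tyC (1000 / (4 * 917) : ℝ) ⟨512, 512, 512, 0, 0, 0⟩ ⟨1024, 1024, 1024, 512, 512, 1024⟩ ctxC :=
  Claim.split 5 512 (by decide) nC95 (rsC tC1.2.2.2.2.2.2.2.2.2.2.2.2.2.2.2.2.2.2.2.2.2.2.2.2.2.2.2.2.2.2.2.2.2.2.2.2.1)

theorem nC97 : Claim tyC (1000 / (4 * 917) : ℝ) ⟨512, 512, 512, 0, 512, 0⟩ ⟨1024, 1024, 1024, 512, 1024, 1024⟩ ctxC :=
  Claim.split 5 512 (by decide) (rsC tC1.2.2.2.2.2.2.2.2.2.2.2.2.2.2.2.2.2.2.2.2.2.2.2.2.2.2.2.2.2.2.2.2.2.2.2.2.2.1) (rsC tC1.2.2.2.2.2.2.2.2.2.2.2.2.2.2.2.2.2.2.2.2.2.2.2.2.2.2.2.2.2.2.2.2.2.2.2.2.2.2.1)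

theorem nC98 : Claim tyC (1000 / (4 * 917) : ℝ) ⟨512, 512, 512, 0, 0, 0⟩ ⟨1024, 1024, 1024, 512, 1024, 1024⟩ ctxC :=
  Claim.split 4 512 (by decide) nC96 nC97

theorem nC99 : Claim tyC (1000 / (4 * 917) : ℝ) ⟨768, 512, 512, 512, 256, 0⟩ ⟨1024, 1024, 768, 768, 512, 512⟩ ctxC :=
  Claim.split 1 768 (by decide) (rsC tC1.2.2.2.2.2.2.2.2.2.2.2.2.2.2.2.2.2.2.2.2.2.2.2.2.2.2.2.2.2.2.2.2.2.2.2.2.2.2.2.2.2.1) (rsC tC1.2.2.2.2.2.2.2.2.2.2.2.2.2.2.2.2.2.2.2.2.2.2.2.2.2.2.2.2.2.2.2.2.2.2.2.2.2.2.2.2.2.2.1)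

theorem nC100 : Claim tyC (1000 / (4 * 917) : ℝ) ⟨768, 512, 512, 512, 0, 0⟩ ⟨1024, 1024, 768, 768, 512, 512⟩ ctxC :=
  Claim.split 4 256 (by decide) (rsC tC1.2.2.2.2.2.2.2.2.2.2.2.2.2.2.2.2.2.2.2.2.2.2.2.2.2.2.2.2.2.2.2.2.2.2.2.2.2.2.2.2.1) nC99

theorem nC101 : Claim tyC (1000 / (4 * 917) : ℝ) ⟨768, 512, 512, 512, 0, 0⟩ ⟨1024, 1024, 768, 1024, 512, 512⟩ ctxC :=
  Claim.split 3 768 (by decide) nC100 (rsC tC1.2.2.2.2.2.2.2.2.2.2.2.2.2.2.2.2.2.2.2.2.2.2.2.2.2.2.2.2.2.2.2.2.2.2.2.2.2.2.2.2.2.2.2.1)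

theorem nC102 : Claim tyC (1000 / (4 * 917) : ℝ) ⟨768, 512, 512, 512, 0, 0⟩ ⟨1024, 1024, 1024, 1024, 512, 512⟩ ctxC :=
  Claim.split 2 768 (by decide) nC101 (rsC tC1.2.2.2.2.2.2.2.2.2.2.2.2.2.2.2.2.2.2.2.2.2.2.2.2.2.2.2.2.2.2.2.2.2.2.2.2.2.2.2.2.2.2.2.2.1)

theorem nC103 : Claim tyC (1000 / (4 * 917) : ℝ) ⟨512, 512, 512, 512, 0, 0⟩ ⟨1024, 1024, 1024, 1024, 512, 512⟩ ctxC :=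
  Claim.split 0 768 (by decide) (rsC tC1.2.2.2.2.2.2.2.2.2.2.2.2.2.2.2.2.2.2.2.2.2.2.2.2.2.2.2.2.2.2.2.2.2.2.2.2.2.2.2.1) nC102

theorem nC104 : Claim tyC (1000 / (4 * 917) : ℝ) ⟨512, 512, 512, 512, 0, 0⟩ ⟨1024, 1024, 1024, 1024, 512, 1024⟩ ctxC :=
  Claim.split 5 512 (by decide) nC103 (rsC tC1.2.2.2.2.2.2.2.2.2.2.2.2.2.2.2.2.2.2.2.2.2.2.2.2.2.2.2.2.2.2.2.2.2.2.2.2.2.2.2.2.2.2.2.2.2.1)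

theorem nC105 : Claim tyC (1000 / (4 * 917) : ℝ) ⟨512, 512, 512, 512, 512, 0⟩ ⟨1024, 1024, 1024, 1024, 1024, 1024⟩ ctxC :=
  Claim.split 5 512 (by decide) (rsC tC1.2.2.2.2.2.2.2.2.2.2.2.2.2.2.2.2.2.2.2.2.2.2.2.2.2.2.2.2.2.2.2.2.2.2.2.2.2.2.2.2.2.2.2.2.2.2.1) (rsC tC1.2.2.2.2.2.2.2.2.2.2.2.2.2.2.2.2.2.2.2.2.2.2.2.2.2.2.2.2.2.2.2.2.2.2.2.2.2.2.2.2.2.2.2.2.2.2.2.1)

theorem nC106 : Claim tyC (1000 / (4 * 917) : ℝ) ⟨512, 512, 512, 512, 0, 0⟩ ⟨1024, 1024, 1024, 1024, 1024, 1024⟩ ctxC :=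
  Claim.split 4 512 (by decide) nC104 nC105

theorem nC107 : Claim tyC (1000 / (4 * 917) : ℝ) ⟨512, 512, 512, 0, 0, 0⟩ ⟨1024, 1024, 1024, 1024, 1024, 1024⟩ ctxC :=
  Claim.split 3 512 (by decide) nC98 nC106

theorem nC108 : Claim tyC (1000 / (4 * 917) : ℝ) ⟨512, 512, 0, 0, 0, 0⟩ ⟨1024, 1024, 1024, 1024, 1024, 1024⟩ ctxC :=
  Claim.split 2 512 (by decide) nC92 nC107

theorem nC109 : Claim tyC (1000 / (4 * 917) : ℝ) ⟨512, 0, 0, 0, 0, 0⟩ ⟨1024, 1024, 1024, 1024, 1024, 1024⟩ ctxC :=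
  Claim.split 1 512 (by decide) nC90 nC108

theorem nC110 : Claim tyC (1000 / (4 * 917) : ℝ) ⟨0, 0, 0, 0, 0, 0⟩ ⟨1024, 1024, 1024, 1024, 1024, 1024⟩ ctxC :=
  Claim.split 0 512 (by decide) (rsC tC0.1) nC109

theorem allC : Claim tyC (1000 / (4 * 917) : ℝ) ⟨0, 0, 0, 0, 0, 0⟩ ⟨1024, 1024, 1024, 1024, 1024, 1024⟩ ctxC := nC110

end Pool.Agent.MP_5c967c_co.H46
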