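import Pool.Agent.MP_5c967c_co.H46.Sound2
import Pool.Agent.MP_5c967c_co.H46.CP

namespace Pool.Agent.MP_5c967c_co.H46

theorem okD : TyOK tyD := by decide +kernel

theorem rsD {lo hi : V6} {ctx : List ℕ} {tr : Tr} (h : run tyD 89 82 lo hi ctx tr = true) :
    Claim tyD (89 / (4 * 82) : ℝ) lo hi ctx :=
  run_sound okD (by norm_num) (by norm_num) (by norm_num) (by norm_num) h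

theorem nD0_1 : Claim tyD (89 / (4 * 82) : ℝ) ⟨0, 0, 0, 0, 0, 0⟩ ⟨512, 1024, 1024, 1024, 0, 0⟩ (24702 :: ctxD) :=
  Claim.split 1 512 (by decide) (rsD tP.1) (rsD tP.2.1)

theorem nD0_2 : Claim tyD (89 / (4 * 82) : ℝ) ⟨0, 0, 0, 0, 0, 0⟩ ⟨1024, 1024, 1024, 1024, 0, 0⟩ (24702 :: ctxD) :=
  Claim.split 0 512 (by decide) nD0_1 (rsD tP.2.2.1)

theorem allD0 : Claim tyD (89 / (4 * 82) : ℝ) ⟨0, 0, 0, 0, 0, 0⟩ ⟨1024, 1024, 1024, 1024, 0, 0⟩ (24702 :: ctxD) := nD0_2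

theorem allD1 : Claim tyD (89 / (4 * 82) : ℝ) ⟨0, 0, 0, 0, 0, 0⟩ ⟨1024, 1024, 1024, 1024, 0, 0⟩ (34033 :: ctxD) := (rsD tP.2.2.2.1)

theorem nD2_1 : Claim tyD (89 / (4 * 82) : ℝ) ⟨0, 0, 0, 0, 0, 0⟩ ⟨1024, 1024, 1024, 1024, 0, 0⟩ (4484 :: ctxD) :=
  Claim.split 0 512 (by decide) (rsD tP.2.2.2.2.1) (rsD tP.2.2.2.2.2.1)

theorem allD2 : Claim tyD (89 / (4 * 82) : ℝ) ⟨0, 0, 0, 0, 0, 0⟩ ⟨1024, 1024, 1024, 1024, 0, 0⟩ (4484 :: ctxD) := nD2_1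

theorem allD3 : Claim tyD (89 / (4 * 82) : ℝ) ⟨0, 0, 0, 0, 0, 0⟩ ⟨1024, 1024, 1024, 1024, 0, 0⟩ (13635 :: ctxD) := (rsD tP.2.2.2.2.2.2.1)

theorem nD4_1 : Claim tyD (89 / (4 * 82) : ℝ) ⟨0, 0, 0, 0, 0, 0⟩ ⟨512, 1024, 1024, 1024, 0, 0⟩ (22966 :: ctxD) :=
  Claim.split 1 512 (by decide) (rsD tP.2.2.2.2.2.2.2.1) (rsD tP.2.2.2.2.2.2.2.2.1)

theorem nD4_2 : Claim tyD (89 / (4 * 82) : ℝ) ⟨512, 0, 512, 0, 0, 0⟩ ⟨1024, 512, 1024, 512, 0, 0⟩ (22966 :: ctxD) :=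
  Claim.split 1 256 (by decide) (rsD tP.2.2.2.2.2.2.2.2.2.2.1) (rsD tP.2.2.2.2.2.2.2.2.2.2.2.1)

theorem nD4_3 : Claim tyD (89 / (4 * 82) : ℝ) ⟨512, 0, 512, 0, 0, 0⟩ ⟨1024, 512, 1024, 1024, 0, 0⟩ (22966 :: ctxD) :=
  Claim.split 3 512 (by decide) nD4_2 (rsD tP.2.2.2.2.2.2.2.2.2.2.2.2.1)

theorem nD4_4 : Claim tyD (89 / (4 * 82) : ℝ) ⟨512, 0, 0, 0, 0, 0⟩ ⟨1024, 512, 1024, 1024, 0, 0⟩ (22966 :: ctxD) :=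
  Claim.split 2 512 (by decide) (rsD tP.2.2.2.2.2.2.2.2.2.1) nD4_3

theorem nD4_5 : Claim tyD (89 / (4 * 82) : ℝ) ⟨512, 0, 0, 0, 0, 0⟩ ⟨1024, 1024, 1024, 1024, 0, 0⟩ (22966 :: ctxD) :=
  Claim.split 1 512 (by decide) nD4_4 (rsD tP.2.2.2.2.2.2.2.2.2.2.2.2.2.1)

theorem nD4_6 : Claim tyD (89 / (4 * 82) : ℝ) ⟨0, 0, 0, 0, 0, 0⟩ ⟨1024, 1024, 1024, 1024, 0, 0⟩ (22966 :: ctxD) :=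
  Claim.split 0 512 (by decide) nD4_1 nD4_5

theorem allD4 : Claim tyD (89 / (4 * 82) : ℝ) ⟨0, 0, 0, 0, 0, 0⟩ ⟨1024, 1024, 1024, 1024, 0, 0⟩ (22966 :: ctxD) := nD4_6

theorem okE : TyOK tyE := by decide +kernel

theorem rsE {lo hi : V6} {ctx : List ℕ} {tr : Tr} (h : run tyE 89 82 lo hi ctx tr = true) :
    Claim tyE (89 / (4 * 82) : ℝ) lo hi ctx :=
  run_sound okE (by norm_num) (by norm_num) (by norm_num) (by norm_num) h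

theorem nE0_1 : Claim tyE (89 / (4 * 82) : ℝ) ⟨512, 0, 0, 0, 0, 0⟩ ⟨1024, 512, 512, 512, 0, 0⟩ (24702 :: ctxE) :=
  Claim.split 0 768 (by decide) (rsE tP.2.2.2.2.2.2.2.2.2.2.2.2.2.2.2.1) (rsE tP.2.2.2.2.2.2.2.2.2.2.2.2.2.2.2.2.1)

theorem nE0_2 : Claim tyE (89 / (4 * 82) : ℝ) ⟨512, 0, 0, 0, 0, 0⟩ ⟨1024, 512, 512, 1024, 0, 0⟩ (24702 :: ctxE) :=
  Claim.split 3 512 (by decide) nE0_1 (rsE tP.2.2.2.2.2.2.2.2.2.2.2.2.2.2.2.2.2.1)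

theorem nE0_3 : Claim tyE (89 / (4 * 82) : ℝ) ⟨896, 0, 640, 0, 0, 0⟩ ⟨1024, 512, 768, 256, 0, 0⟩ (24702 :: ctxE) :=
  Claim.split 2 704 (by decide) (rsE tP.2.2.2.2.2.2.2.2.2.2.2.2.2.2.2.2.2.2.2.2.2.1) (rsE tP.2.2.2.2.2.2.2.2.2.2.2.2.2.2.2.2.2.2.2.2.2.2.1)

theorem nE0_4 : Claim tyE (89 / (4 * 82) : ℝ) ⟨896, 0, 512, 0, 0, 0⟩ ⟨1024, 512, 768, 256, 0, 0⟩ (24702 :: ctxE) :=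
  Claim.split 2 640 (by decide) (rsE tP.2.2.2.2.2.2.2.2.2.2.2.2.2.2.2.2.2.2.2.2.1) nE0_3

theorem nE0_5 : Claim tyE (89 / (4 * 82) : ℝ) ⟨896, 0, 512, 0, 0, 0⟩ ⟨1024, 512, 768, 512, 0, 0⟩ (24702 :: ctxE) :=
  Claim.split 3 256 (by decide) nE0_4 (rsE tP.2.2.2.2.2.2.2.2.2.2.2.2.2.2.2.2.2.2.2.2.2.2.2.1)

theorem nE0_6 : Claim tyE (89 / (4 * 82) : ℝ) ⟨768, 0, 512, 0, 0, 0⟩ ⟨1024, 512, 768, 512, 0, 0⟩ (24702 :: ctxE) :=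
  Claim.split 0 896 (by decide) (rsE tP.2.2.2.2.2.2.2.2.2.2.2.2.2.2.2.2.2.2.2.1) nE0_5

theorem nE0_7 : Claim tyE (89 / (4 * 82) : ℝ) ⟨768, 0, 512, 0, 0, 0⟩ ⟨1024, 512, 1024, 512, 0, 0⟩ (24702 :: ctxE) :=
  Claim.split 2 768 (by decide) nE0_6 (rsE tP.2.2.2.2.2.2.2.2.2.2.2.2.2.2.2.2.2.2.2.2.2.2.2.2.1)

theorem nE0_8 : Claim tyE (89 / (4 * 82) : ℝ) ⟨512, 0, 512, 0, 0, 0⟩ ⟨1024, 512, 1024, 512, 0, 0⟩ (24702 :: ctxE) :=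
  Claim.split 0 768 (by decide) (rsE tP.2.2.2.2.2.2.2.2.2.2.2.2.2.2.2.2.2.2.1) nE0_7

theorem nE0_9 : Claim tyE (89 / (4 * 82) : ℝ) ⟨512, 0, 512, 0, 0, 0⟩ ⟨1024, 512, 1024, 1024, 0, 0⟩ (24702 :: ctxE) :=
  Claim.split 3 512 (by decide) nE0_8 (rsE tP.2.2.2.2.2.2.2.2.2.2.2.2.2.2.2.2.2.2.2.2.2.2.2.2.2.1)

theorem nE0_10 : Claim tyE (89 / (4 * 82) : ℝ) ⟨512, 0, 0, 0, 0, 0⟩ ⟨1024, 512, 1024, 1024, 0, 0⟩ (24702 :: ctxE) :=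
  Claim.split 2 512 (by decide) nE0_2 nE0_9

theorem nE0_11 : Claim tyE (89 / (4 * 82) : ℝ) ⟨512, 0, 0, 0, 0, 0⟩ ⟨1024, 1024, 1024, 1024, 0, 0⟩ (24702 :: ctxE) :=
  Claim.split 1 512 (by decide) nE0_10 (rsE tP.2.2.2.2.2.2.2.2.2.2.2.2.2.2.2.2.2.2.2.2.2.2.2.2.2.2.1)

theorem nE0_12 : Claim tyE (89 / (4 * 82) : ℝ) ⟨0, 0, 0, 0, 0, 0⟩ ⟨1024, 1024, 1024, 1024, 0, 0⟩ (24702 :: ctxE) :=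
  Claim.split 0 512 (by decide) (rsE tP.2.2.2.2.2.2.2.2.2.2.2.2.2.2.1) nE0_11

theorem allE0 : Claim tyE (89 / (4 * 82) : ℝ) ⟨0, 0, 0, 0, 0, 0⟩ ⟨1024, 1024, 1024, 1024, 0, 0⟩ (24702 :: ctxE) := nE0_12

theorem nE1_1 : Claim tyE (89 / (4 * 82) : ℝ) ⟨0, 0, 0, 0, 0, 0⟩ ⟨1024, 1024, 1024, 1024, 0, 0⟩ (34033 :: ctxE) :=
  Claim.split 0 512 (by decide) (rsE tP.2.2.2.2.2.2.2.2.2.2.2.2.2.2.2.2.2.2.2.2.2.2.2.2.2.2.2.1) (rsE tP.2.2.2.2.2.2.2.2.2.2.2.2.2.2.2.2.2.2.2.2.2.2.2.2.2.2.2.2.1)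

theorem allE1 : Claim tyE (89 / (4 * 82) : ℝ) ⟨0, 0, 0, 0, 0, 0⟩ ⟨1024, 1024, 1024, 1024, 0, 0⟩ (34033 :: ctxE) := nE1_1

theorem nE2_1 : Claim tyE (89 / (4 * 82) : ℝ) ⟨0, 0, 0, 0, 0, 0⟩ ⟨1024, 1024, 1024, 1024, 0, 0⟩ (4484 :: ctxE) :=
  Claim.split 0 512 (by decide) (rsE tP.2.2.2.2.2.2.2.2.2.2.2.2.2.2.2.2.2.2.2.2.2.2.2.2.2.2.2.2.2.1) (rsE tP.2.2.2.2.2.2.2.2.2.2.2.2.2.2.2.2.2.2.2.2.2.2.2.2.2.2.2.2.2.2.1)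

theorem allE2 : Claim tyE (89 / (4 * 82) : ℝ) ⟨0, 0, 0, 0, 0, 0⟩ ⟨1024, 1024, 1024, 1024, 0, 0⟩ (4484 :: ctxE) := nE2_1

theorem allE3 : Claim tyE (89 / (4 * 82) : ℝ) ⟨0, 0, 0, 0, 0, 0⟩ ⟨1024, 1024, 1024, 1024, 0, 0⟩ (13635 :: ctxE) := (rsE tP.2.2.2.2.2.2.2.2.2.2.2.2.2.2.2.2.2.2.2.2.2.2.2.2.2.2.2.2.2.2.2.1)

theorem nE4_1 : Claim tyE (89 / (4 * 82) : ℝ) ⟨768, 0, 0, 0, 0, 0⟩ ⟨1024, 512, 512, 512, 0, 0⟩ (22966 :: ctxE) :=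
  Claim.br 16962 (rsE tP.2.2.2.2.2.2.2.2.2.2.2.2.2.2.2.2.2.2.2.2.2.2.2.2.2.2.2.2.2.2.2.2.2.2.1) (rsE tP.2.2.2.2.2.2.2.2.2.2.2.2.2.2.2.2.2.2.2.2.2.2.2.2.2.2.2.2.2.2.2.2.2.2.2.1)

theorem nE4_2 : Claim tyE (89 / (4 * 82) : ℝ) ⟨512, 0, 0, 0, 0, 0⟩ ⟨1024, 512, 512, 512, 0, 0⟩ (22966 :: ctxE) :=
  Claim.split 0 768 (by decide) (rsE tP.2.2.2.2.2.2.2.2.2.2.2.2.2.2.2.2.2.2.2.2.2.2.2.2.2.2.2.2.2.2.2.2.2.1) nE4_1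

theorem nE4_3 : Claim tyE (89 / (4 * 82) : ℝ) ⟨512, 0, 0, 0, 0, 0⟩ ⟨1024, 512, 512, 1024, 0, 0⟩ (22966 :: ctxE) :=
  Claim.split 3 512 (by decide) nE4_2 (rsE tP.2.2.2.2.2.2.2.2.2.2.2.2.2.2.2.2.2.2.2.2.2.2.2.2.2.2.2.2.2.2.2.2.2.2.2.2.1)

theorem nE4_4 : Claim tyE (89 / (4 * 82) : ℝ) ⟨896, 0, 640, 0, 0, 0⟩ ⟨1024, 512, 768, 256, 0, 0⟩ (24702 :: 22966 :: ctxE) :=
  Claim.split 2 704 (by decide) (rsE tP.2.2.2.2.2.2.2.2.2.2.2.2.2.2.2.2.2.2.2.2.2.2.2.2.2.2.2.2.2.2.2.2.2.2.2.2.2.2.2.2.2.1) (rsE tP.2.2.2.2.2.2.2.2.2.2.2.2.2.2.2.2.2.2.2.2.2.2.2.2.2.2.2.2.2.2.2.2.2.2.2.2.2.2.2.2.2.2.1)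

theorem nE4_5 : Claim tyE (89 / (4 * 82) : ℝ) ⟨896, 0, 512, 0, 0, 0⟩ ⟨1024, 512, 768, 256, 0, 0⟩ (24702 :: 22966 :: ctxE) :=
  Claim.split 2 640 (by decide) (rsE tP.2.2.2.2.2.2.2.2.2.2.2.2.2.2.2.2.2.2.2.2.2.2.2.2.2.2.2.2.2.2.2.2.2.2.2.2.2.2.2.2.1) nE4_4

theorem nE4_6 : Claim tyE (89 / (4 * 82) : ℝ) ⟨896, 0, 512, 0, 0, 0⟩ ⟨1024, 512, 768, 256, 0, 0⟩ (22966 :: ctxE) :=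
  Claim.br 16962 (rsE tP.2.2.2.2.2.2.2.2.2.2.2.2.2.2.2.2.2.2.2.2.2.2.2.2.2.2.2.2.2.2.2.2.2.2.2.2.2.2.2.1) nE4_5

theorem nE4_7 : Claim tyE (89 / (4 * 82) : ℝ) ⟨896, 0, 512, 0, 0, 0⟩ ⟨1024, 512, 768, 512, 0, 0⟩ (22966 :: ctxE) :=
  Claim.split 3 256 (by decide) nE4_6 (rsE tP.2.2.2.2.2.2.2.2.2.2.2.2.2.2.2.2.2.2.2.2.2.2.2.2.2.2.2.2.2.2.2.2.2.2.2.2.2.2.2.2.2.2.2.1)

theorem nE4_8 : Claim tyE (89 / (4 * 82) : ℝ) ⟨768, 0, 512, 0, 0, 0⟩ ⟨1024, 512, 768, 512, 0, 0⟩ (22966 :: ctxE) :=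
  Claim.split 0 896 (by decide) (rsE tP.2.2.2.2.2.2.2.2.2.2.2.2.2.2.2.2.2.2.2.2.2.2.2.2.2.2.2.2.2.2.2.2.2.2.2.2.2.2.1) nE4_7

theorem nE4_9 : Claim tyE (89 / (4 * 82) : ℝ) ⟨768, 0, 512, 0, 0, 0⟩ ⟨1024, 512, 1024, 512, 0, 0⟩ (22966 :: ctxE) :=
  Claim.split 2 768 (by decide) nE4_8 (rsE tP.2.2.2.2.2.2.2.2.2.2.2.2.2.2.2.2.2.2.2.2.2.2.2.2.2.2.2.2.2.2.2.2.2.2.2.2.2.2.2.2.2.2.2.2.1)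

theorem nE4_10 : Claim tyE (89 / (4 * 82) : ℝ) ⟨512, 0, 512, 0, 0, 0⟩ ⟨1024, 512, 1024, 512, 0, 0⟩ (22966 :: ctxE) :=
  Claim.split 0 768 (by decide) (rsE tP.2.2.2.2.2.2.2.2.2.2.2.2.2.2.2.2.2.2.2.2.2.2.2.2.2.2.2.2.2.2.2.2.2.2.2.2.2.1) nE4_9

theorem nE4_11 : Claim tyE (89 / (4 * 82) : ℝ) ⟨512, 0, 512, 0, 0, 0⟩ ⟨1024, 512, 1024, 1024, 0, 0⟩ (22966 :: ctxE) :=
  Claim.split 3 512 (by decide) nE4_10 (rsE tP.2.2.2.2.2.2.2.2.2.2.2.2.2.2.2.2.2.2.2.2.2.2.2.2.2.2.2.2.2.2.2.2.2.2.2.2.2.2.2.2.2.2.2.2.2.1)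

theorem nE4_12 : Claim tyE (89 / (4 * 82) : ℝ) ⟨512, 0, 0, 0, 0, 0⟩ ⟨1024, 512, 1024, 1024, 0, 0⟩ (22966 :: ctxE) :=
  Claim.split 2 512 (by decide) nE4_3 nE4_11

theorem nE4_13 : Claim tyE (89 / (4 * 82) : ℝ) ⟨512, 0, 0, 0, 0, 0⟩ ⟨1024, 1024, 1024, 1024, 0, 0⟩ (22966 :: ctxE) :=
  Claim.split 1 512 (by decide) nE4_12 (rsE tP.2.2.2.2.2.2.2.2.2.2.2.2.2.2.2.2.2.2.2.2.2.2.2.2.2.2.2.2.2.2.2.2.2.2.2.2.2.2.2.2.2.2.2.2.2.2.1)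

theorem nE4_14 : Claim tyE (89 / (4 * 82) : ℝ) ⟨0, 0, 0, 0, 0, 0⟩ ⟨1024, 1024, 1024, 1024, 0, 0⟩ (22966 :: ctxE) :=
  Claim.split 0 512 (by decide) (rsE tP.2.2.2.2.2.2.2.2.2.2.2.2.2.2.2.2.2.2.2.2.2.2.2.2.2.2.2.2.2.2.2.2.1) nE4_13

theorem allE4 : Claim tyE (89 / (4 * 82) : ℝ) ⟨0, 0, 0, 0, 0, 0⟩ ⟨1024, 1024, 1024, 1024, 0, 0⟩ (22966 :: ctxE) := nE4_14

end Pool.Agent.MP_5c967c_co.H46
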