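import Pool.Agent.MP_5c967c_co.H46.Defs

/-! Areas of parallelograms and triangles; the fan bound for the area of a convex set. -/

namespace Pool.Agent.MP_5c967c_co.H46

open MeasureTheory Set

/-- determinant of two plane vectors -/
def det2 (x y : Plane) : ℝ := x 0 * y 1 - x 1 * y 0

/-- twice the signed area of a triangle -/
def tri (a b c : Plane) : ℝ := (b 0 - a 0) * (c 1 - a 1) - (b 1 - a 1) * (c 0 - a 0)

/-- the linear map with columns `a`, `b` -/
noncomputable def lin (a b : Plane) : Plane →ₗ[ℝ] Plane :=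
  Matrix.toEuclideanLin !![a 0, b 0; a 1, b 1]

theorem lin_apply (a b x : Plane) : lin a b x = x 0 • a + x 1 • b := by
  ext i
  fin_cases i <;>
    simp [lin, Matrix.toLpLin_apply, dotProduct, Fin.sum_univ_two] <;> ring

theorem lin_det (a b : Plane) : LinearMap.det (lin a b) = det2 a b := by
  unfold lin
  rw [Matrix.toEuclideanLin_eq_toLin_orthonormal, LinearMap.det_toLin, Matrix.det_fin_two]
  simp [det2]; ring

theorem vol_pre (s : Set (ℝ × ℝ)) (hs : MeasurableSet s) :
    volume {x : Plane | (x 0, x 1) ∈ s} = volume s := by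
  have h1 := (volume_preserving_finTwoArrow ℝ).comp (PiLp.volume_preserving_ofLp (Fin 2))
  have := h1.measure_preimage hs.nullMeasurableSet
  rw [← this]
  rfl

theorem vol_square : volume {x : Plane | (x 0, x 1) ∈ (Icc (0:ℝ) 1) ×ˢ (Icc (0:ℝ) 1)} = 1 := by
  rw [vol_pre _ (measurableSet_Icc.prod measurableSet_Icc), Measure.volume_eq_prod,
    Measure.prod_prod]
  simp

theorem vol_stdTri : volume {x : Plane | (x 0, x 1) ∈
    regionBetween (fun _ => (0:ℝ)) (fun t => 1 - t) (Ioo 0 1)} = ENNReal.ofReal (1 / 2) := by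
  rw [vol_pre _ (measurableSet_regionBetween measurable_const (by fun_prop) measurableSet_Ioo),
    Measure.volume_eq_prod, volume_regionBetween_eq_integral]
  · congr 1
    have : ∫ y in Ioo (0:ℝ) 1, (((fun t : ℝ => 1 - t) - fun _ : ℝ => (0:ℝ)) : ℝ → ℝ) y
        = ∫ y in (0:ℝ)..1, (1 - y) := by
      rw [intervalIntegral.integral_of_le zero_le_one, integral_Ioc_eq_integral_Ioo]
      simp
    rw [this, intervalIntegral.integral_sub (by simp) (by simp)]
    simp; norm_num
  · exact integrableOn_const (by simp)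
  · exact (Continuous.integrableOn_Icc (by fun_prop)).mono_set Ioo_subset_Icc_self
  · exact measurableSet_Ioo
  · intro x hx; linarith [hx.2]

/-- closed parallelogram -/
def para (a b : Plane) : Set Plane :=
  lin a b '' {x : Plane | (x 0, x 1) ∈ (Icc (0:ℝ) 1) ×ˢ (Icc (0:ℝ) 1)}

theorem vol_para (a b : Plane) : volume (para a b) = ENNReal.ofReal |det2 a b| := by
  unfold para
  rw [Measure.addHaar_image_linearMap, lin_det, vol_square, mul_one]

theorem vol_shift (v : Plane) (s : Set Plane) : volume ((fun x => v + x) '' s) = volume s := by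
  rw [image_add_left, measure_preimage_add]

theorem cut (K : Set Plane) (hK : Convex ℝ K) (O P Q : Plane) (hO : O ∈ K) (hP : P ∈ K)
    (hQ : Q ∈ K) (ht : 0 ≤ tri O P Q) :
    ENNReal.ofReal (tri O P Q / 2) + volume (K ∩ {x | 0 ≤ tri O Q x}) ≤ volume K := by
  have hm : MeasurableSet {x : Plane | 0 ≤ tri O Q x} := by
    apply IsClosed.measurableSet
    apply isClosed_le continuous_const
    unfold tri; fun_prop
  rcases ht.eq_or_lt with h0 | hpos
  · rw [← h0]; simp only [zero_div, ENNReal.ofReal_zero, zero_add]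
    exact measure_mono inter_subset_left
  rw [← measure_inter_add_sdiff K hm, add_comm]
  gcongr
  have hv : volume ((fun x => O + x) '' (lin (P - O) (Q - O) '' {x : Plane | (x 0, x 1) ∈
      regionBetween (fun _ => (0:ℝ)) (fun t => 1 - t) (Ioo 0 1)}))
      = ENNReal.ofReal (tri O P Q / 2) := by
    rw [vol_shift, Measure.addHaar_image_linearMap, lin_det, vol_stdTri,
      ← ENNReal.ofReal_mul (abs_nonneg _)]
    congr 1
    have : det2 (P - O) (Q - O) = tri O P Q := by simp [det2, tri]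
    rw [this, abs_of_pos hpos]; ring
  rw [← hv]
  apply measure_mono
  rintro _ ⟨_, ⟨x, hx, rfl⟩, rfl⟩
  simp only [regionBetween, mem_ofPred_eq, mem_Ioo] at hx
  obtain ⟨⟨h1, h2⟩, h3, h4⟩ := hx
  constructor
  · have : O + lin (P - O) (Q - O) x = (1 - x 0 - x 1) • O + x 0 • P + x 1 • Q := by
      rw [lin_apply]; module
    simp only
    rw [this]
    have h := hK.sum_mem (t := Finset.univ) (w := ![1 - x 0 - x 1, x 0, x 1]) (z := ![O, P, Q])
      (by intro i _; fin_cases i <;> simp <;> linarith)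
      (by simp [Fin.sum_univ_three]; ring)
      (by intro i _; fin_cases i <;> simpa)
    simpa [Fin.sum_univ_three] using h
  · simp only [mem_ofPred_eq, not_le]
    rw [lin_apply]
    have : tri O Q (O + (x 0 • (P - O) + x 1 • (Q - O))) = - (x 0 * tri O P Q) := by
      simp [tri]; ring
    rw [this]
    have := mul_pos h1 hpos
    linarith

theorem convex_half (a b : Plane) : Convex ℝ {x : Plane | 0 ≤ tri a b x} := by
  intro x hx y hy s t hs ht hst
  simp only [mem_ofPred_eq] at *
  have : tri a b (s • x + t • y) = s * tri a b x + t * tri a b y := by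
    have : s = 1 - t := by linarith
    subst this
    simp [tri]; ring
  rw [this]; positivity

/-- fan bound for six points -/
theorem fan6 (K : Set Plane) (hK : Convex ℝ K) (V : Fin 6 → Plane) (hV : ∀ i, V i ∈ K)
    (ht : ∀ i j k, i < j → j < k → 0 ≤ tri (V i) (V j) (V k)) :
    ENNReal.ofReal ((tri (V 0) (V 1) (V 2) + tri (V 0) (V 2) (V 3) + tri (V 0) (V 3) (V 4)
      + tri (V 0) (V 4) (V 5)) / 2) ≤ volume K := by
  have z : ∀ a b : Plane, 0 ≤ tri a b a := by intro a b; simp [tri]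
  have z' : ∀ a b : Plane, 0 ≤ tri a b b := by intro a b; simp [tri]; ring_nf; rfl
  have t1 := ht 0 1 2 (by decide) (by decide)
  have t2 := ht 0 2 3 (by decide) (by decide)
  have t3 := ht 0 3 4 (by decide) (by decide)
  have t4 := ht 0 4 5 (by decide) (by decide)
  have c1 := cut K hK _ _ _ (hV 0) (hV 1) (hV 2) t1
  have k2 := hK.inter (convex_half (V 0) (V 2))
  have c2 := cut _ k2 (V 0) (V 2) (V 3) ⟨hV 0, z _ _⟩ ⟨hV 2, z' _ _⟩ ⟨hV 3, t2⟩ t2
  have k3 := k2.inter (convex_half (V 0) (V 3))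
  have c3 := cut _ k3 (V 0) (V 3) (V 4) ⟨⟨hV 0, z _ _⟩, z _ _⟩ ⟨⟨hV 3, t2⟩, z' _ _⟩
    ⟨⟨hV 4, ht 0 2 4 (by decide) (by decide)⟩, t3⟩ t3
  have k4 := k3.inter (convex_half (V 0) (V 4))
  have c4 := cut _ k4 (V 0) (V 4) (V 5) ⟨⟨⟨hV 0, z _ _⟩, z _ _⟩, z _ _⟩
    ⟨⟨⟨hV 4, ht 0 2 4 (by decide) (by decide)⟩, t3⟩, z' _ _⟩
    ⟨⟨⟨hV 5, ht 0 2 5 (by decide) (by decide)⟩, ht 0 3 5 (by decide) (by decide)⟩, t4⟩ t4
  have e : ENNReal.ofReal ((tri (V 0) (V 1) (V 2) + tri (V 0) (V 2) (V 3) + tri (V 0) (V 3) (V 4)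
      + tri (V 0) (V 4) (V 5)) / 2) = ENNReal.ofReal (tri (V 0) (V 1) (V 2) / 2) +
      (ENNReal.ofReal (tri (V 0) (V 2) (V 3) / 2) + (ENNReal.ofReal (tri (V 0) (V 3) (V 4) / 2) +
      ENNReal.ofReal (tri (V 0) (V 4) (V 5) / 2))) := by
    rw [← ENNReal.ofReal_add (by positivity) (by positivity),
      ← ENNReal.ofReal_add (by positivity) (by positivity),
      ← ENNReal.ofReal_add (by positivity) (by positivity)]
    congr 1; ring
  rw [e]
  refine le_trans ?_ c1
  gcongr
  refine le_trans ?_ c2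
  gcongr
  refine le_trans ?_ c3
  gcongr
  exact le_trans le_self_add c4

end Pool.Agent.MP_5c967c_co.H46
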