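import Mathlib.Data.Nat.Notation
import Mathlib.Data.Int.Notation

/-! The certificate checker (definitions only), written for evaluation by the kernel. -/

namespace Pool.Agent.MP_5c967c_co.H46

/-- force a natural number -/
noncomputable def frc (n : ℕ) (k : ℕ → Bool) : Bool :=
  Nat.rec (motive := fun _ => Bool) (k Nat.zero) (fun m _ => k (Nat.succ m)) n

/-- force an integer -/
noncomputable def frcI (z : ℤ) (k : ℤ → Bool) : Bool :=
  Int.rec (motive := fun _ => Bool) (fun n => frc n fun m => k (Int.ofNat m))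
    (fun n => frc n fun m => k (Int.negSucc m)) z

/-- lazy conjunction -/
noncomputable def band (a b : Bool) : Bool := Bool.rec (motive := fun _ => Bool) false b a

/-- forced difference -/
noncomputable def dif (P Q : ℕ) (k : ℤ → Bool) : Bool :=
  Bool.rec (motive := fun _ => Bool)
    (Nat.rec (motive := fun _ => Bool) (k (Int.ofNat Nat.zero)) (fun m _ => k (Int.negSucc m))
      (Nat.sub Q P))
    (frc (Nat.sub P Q) fun m => k (Int.ofNat m)) (Nat.ble Q P)

/-- six numbers -/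
structure V6 where
  x0 : ℕ
  x1 : ℕ
  x2 : ℕ
  x3 : ℕ
  x4 : ℕ
  x5 : ℕ

/-- six rows -/
structure T6 where
  r0 : V6
  r1 : V6
  r2 : V6
  r3 : V6
  r4 : V6
  r5 : V6

/-- selection among six values -/
noncomputable def s6 {α : Type} (a : ℕ) (x0 x1 x2 x3 x4 x5 : α) : α :=
  Nat.rec (motive := fun _ => α) x0 (fun a _ => Nat.rec (motive := fun _ => α) x1 (fun a _ =>
    Nat.rec (motive := fun _ => α) x2 (fun a _ => Nat.rec (motive := fun _ => α) x3 (fun a _ =>
      Nat.rec (motive := fun _ => α) x4 (fun _ _ => x5) a) a) a) a) a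

/-- entry of a row -/
noncomputable def sel (a : ℕ) (v : V6) : ℕ :=
  V6.rec (motive := fun _ => ℕ) (fun x0 x1 x2 x3 x4 x5 => s6 a x0 x1 x2 x3 x4 x5) v

/-- entry of a table -/
noncomputable def get (t : T6) (a b : ℕ) : ℕ :=
  T6.rec (motive := fun _ => ℕ) (fun r0 r1 r2 r3 r4 r5 => sel b (s6 a r0 r1 r2 r3 r4 r5)) t

/-- forced row -/
noncomputable def mkRow (f : ℕ → ℕ) (k : V6 → Bool) : Bool :=
  frc (f (nat_lit 0)) fun x0 => frc (f (nat_lit 1)) fun x1 => frc (f (nat_lit 2)) fun x2 =>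
  frc (f (nat_lit 3)) fun x3 => frc (f (nat_lit 4)) fun x4 => frc (f (nat_lit 5)) fun x5 =>
  k ⟨x0, x1, x2, x3, x4, x5⟩

/-- forced table -/
noncomputable def mkTab (f : ℕ → ℕ → ℕ) (k : T6 → Bool) : Bool :=
  mkRow (f (nat_lit 0)) fun x0 => mkRow (f (nat_lit 1)) fun x1 => mkRow (f (nat_lit 2)) fun x2 =>
  mkRow (f (nat_lit 3)) fun x3 => mkRow (f (nat_lit 4)) fun x4 => mkRow (f (nat_lit 5)) fun x5 =>
  k ⟨x0, x1, x2, x3, x4, x5⟩

/-- replace an entry of a row -/
noncomputable def upd (v m : ℕ) (r : V6) : V6 :=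
  V6.rec (motive := fun _ => V6) (fun x0 x1 x2 x3 x4 x5 =>
    s6 v ⟨m, x1, x2, x3, x4, x5⟩ ⟨x0, m, x2, x3, x4, x5⟩ ⟨x0, x1, m, x3, x4, x5⟩
      ⟨x0, x1, x2, m, x4, x5⟩ ⟨x0, x1, x2, x3, m, x5⟩ ⟨x0, x1, x2, x3, x4, m⟩) r

/-- force a row -/
noncomputable def frcV (r : V6) (k : V6 → Bool) : Bool :=
  V6.rec (motive := fun _ => Bool) (fun x0 x1 x2 x3 x4 x5 => k ⟨x0, x1, x2, x3, x4, x5⟩) r

/-- list entry, zero by default -/
noncomputable def lget (l : List ℕ) : ℕ → ℕ :=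
  List.rec (motive := fun _ => ℕ → ℕ) (fun _ => Nat.zero)
    (fun a _ ih n => Nat.rec (motive := fun _ => ℕ) a (fun m _ => ih m) n) l

/-- packed triangle value, with offset -/
noncomputable def tv (t : T6) (a b c : ℕ) : ℕ :=
  Nat.add (Nat.add (get t a b) (get t b c)) (get t c a)

/-- packed triangle value of a coded triple -/
noncomputable def tv3 (t : T6) (h : ℕ) (k : ℕ → Bool) : Bool :=
  frc (Nat.mod h 6) fun a => frc (Nat.mod (Nat.div h 6) 6) fun b =>
  frc (Nat.mod (Nat.div h 36) 6) fun c => frc (tv t a b c) k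

/-- digit test -/
noncomputable def test1 (h P Q : ℕ) : Bool :=
  Nat.beq (Nat.land (Nat.sub (Nat.add P h) Q) h) h

/-- digit test for an integer -/
noncomputable def testI (h : ℕ) (N : ℤ) : Bool :=
  Nat.beq (Nat.land (Int.toNat (Int.add N (Int.ofNat h))) h) h

/-- subtract multiples of hypotheses -/
noncomputable def hl (t : T6) (ctx : List ℕ) (cnt : ℕ) :
    ℕ → ℕ → ℕ → (ℕ → ℕ → ℕ → Bool) → Bool :=
  Nat.rec (motive := fun _ => ℕ → ℕ → ℕ → (ℕ → ℕ → ℕ → Bool) → Bool)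
    (fun n P Q k => k n P Q)
    (fun _ ih n P Q k =>
      frc (Nat.shiftLeft (Nat.mod n 16777216) (Nat.mod (Nat.div n 16777216) 64)) fun b =>
      frc (lget ctx (Nat.mod (Nat.div n 1073741824) 64)) fun h =>
      tv3 t (Nat.div h 216) fun p => tv3 t h fun q =>
      frc (Nat.add P (Nat.mul b p)) fun P' => frc (Nat.add Q (Nat.mul b q)) fun Q' =>
      frc (Nat.div n 68719476736) fun n' => ih n' P' Q' k) cnt

/-- nonnegativity check of a multi-affine form, possibly with helper hypotheses -/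
noncomputable def chk (t : T6) (ctx : List ℕ) (h1 P Q n : ℕ) (k : ℕ → Bool) : Bool :=
  frc (Nat.mod n 4) fun c =>
  Nat.rec (motive := fun _ => Bool) (band (test1 h1 P Q) (frc (Nat.div n 4) k))
    (fun _ _ => frc (Nat.succ (Nat.mod (Nat.div n 4) 65536)) fun a =>
      frc (Nat.div n 262144) fun n1 =>
      hl t ctx c n1 (Nat.mul a P) (Nat.mul a Q) fun n' P' Q' => band (test1 h1 P' Q') (k n')) c

/-- one side of a candidate -/
noncomputable def side (t : T6) (ctx : List ℕ) (h1 z z32 den j j1 i s s' f e e1 a b n : ℕ)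
    (k : ℕ → ℤ → ℤ → Bool) : Bool :=
  frc (Nat.mod (Nat.succ f) 6) fun f1 =>
  frc (Nat.add (Nat.mul s' (tv t e e1 j)) (Nat.mul s (tv t e e1 j1))) fun hme =>
  frc (tv t e e1 i) fun hei => frc (Nat.mul 16 hei) fun hei16 =>
  frc (Nat.add (Nat.mul s' (tv t f f1 j)) (Nat.mul s (tv t f f1 j1))) fun hmf =>
  frc (Nat.mul 16 (tv t f f1 i)) fun hfi16 =>
  frc (tv t f f1 a) fun dp => frc (tv t f f1 b) fun dq =>
  chk t ctx h1 hme hei16 n fun n1 => chk t ctx h1 hfi16 hmf n1 fun n2 =>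
  chk t ctx h1 dp dq n2 fun n3 =>
  dif hme hei16 fun A => dif hfi16 hmf fun B => dif dp dq fun D =>
  frc (Nat.add hmf hfi16) fun qp => dif qp z32 fun Q => dif hei z fun Ps =>
  frcI (Int.mul (Int.mul (Int.ofNat den) A) Q) fun x =>
  frcI (Int.mul (Int.mul (Int.ofNat (Nat.mul 32 den)) B) Ps) fun y =>
  frcI (Int.add x y) fun N => k n3 N D

/-- loop over the candidates -/
noncomputable def cl (t : T6) (ctx : List ℕ) (h1 h3 z zo z32 den : ℕ) (sn : ℤ) (cnt : ℕ) :
    ℕ → ℤ → Bool :=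
  Nat.rec (motive := fun _ => ℕ → ℤ → Bool) (fun _ acc => testI h3 acc)
    (fun _ ih n acc =>
      frc (Nat.mod n 6) fun j => frc (Nat.mod (Nat.div n 6) 6) fun i =>
      frc (Nat.mod (Nat.div n 36) 6) fun f => frc (Nat.mod (Nat.div n 216) 6) fun e =>
      frc (Nat.mod (Nat.div n 1296) 6) fun f' => frc (Nat.mod (Nat.div n 7776) 6) fun e' =>
      frc (Nat.mod (Nat.div n 46656) 17) fun s =>
      frc (Nat.mod (Nat.div n 793152) 16777216) fun mu =>
      frc (Nat.div n 13306882424832) fun n0 =>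
      frc (Nat.mod (Nat.succ j) 6) fun j1 => frc (Nat.sub 16 s) fun s' =>
      frc (Nat.mod (Nat.succ e) 6) fun e1 => frc (Nat.mod (Nat.succ e') 6) fun e1' =>
      frc (tv t j j1 i) fun hji =>
      chk t ctx h1 hji (tv t j j1 (nat_lit 0)) n0 fun n1 =>
      chk t ctx h1 hji (tv t j j1 (nat_lit 1)) n1 fun n2 =>
      chk t ctx h1 hji (tv t j j1 (nat_lit 2)) n2 fun n3 =>
      chk t ctx h1 hji (tv t j j1 (nat_lit 3)) n3 fun n4 =>
      chk t ctx h1 hji (tv t j j1 (nat_lit 4)) n4 fun n5 =>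
      chk t ctx h1 hji (tv t j j1 (nat_lit 5)) n5 fun n6 =>
      chk t ctx h1 hji zo n6 fun n7 =>
      side t ctx h1 z z32 den j j1 i s s' f e e1 e1 e n7 fun n8 NR DR =>
      side t ctx h1 z z32 den j j1 i s s' f' e' e1' e' e1' n8 fun n9 NL DL =>
      frcI (Int.mul (Int.mul (Int.negOfNat mu) DL) NR) fun g1 =>
      frcI (Int.mul sn DL) fun sd => frcI (Int.add NL sd) fun r =>
      frcI (Int.mul (Int.mul (Int.negOfNat mu) DR) r) fun g2 =>
      frcI (Int.add acc g1) fun a1 => frcI (Int.add a1 g2) fun a2 => ih n9 a2) cnt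

/-- the coordinate values of one slot -/
noncomputable def mkVals (lb hb la ha wi wj : ℕ) (k : V6 → Bool) : Bool :=
  frc (Nat.add (Nat.mul (Nat.add (Nat.sub 2048 lb) (Nat.mul (Nat.sub 2048 hb) wi)) (Nat.succ wj))
    (Nat.mul (Nat.succ wi) (Nat.add la (Nat.mul ha wj)))) fun D =>
  frc (Nat.mul (Nat.succ wi) (Nat.add (Nat.sub 1024 la) (Nat.mul (Nat.sub 1024 ha) wj))) fun M =>
  frc (Nat.mul (Nat.add (Nat.add 1024 lb) (Nat.mul (Nat.add 1024 hb) wi)) (Nat.succ wj)) fun P =>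
  k ⟨nat_lit 1024, nat_lit 2048, D, M, P, P⟩

/-- the shape of a normalised polygon -/
structure Ty where
  sl : V6
  kx : V6
  ky : V6

/-- check of a leaf -/
noncomputable def leafc (sl kx ky w : V6) (el : T6) (h1 h3 off z zo z4 z32 one one2 num den : ℕ)
    (lo hi : V6) (ctx : List ℕ) (n : ℕ) : Bool :=
  mkVals (sel (nat_lit 0) lo) (sel (nat_lit 0) hi) (sel (nat_lit 1) lo) (sel (nat_lit 1) hi)
    (sel (nat_lit 0) w) (sel (nat_lit 1) w) fun v0 =>
  mkVals (sel (nat_lit 2) lo) (sel (nat_lit 2) hi) (sel (nat_lit 3) lo) (sel (nat_lit 3) hi)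
    (sel (nat_lit 2) w) (sel (nat_lit 3) w) fun v1 =>
  mkVals (sel (nat_lit 4) lo) (sel (nat_lit 4) hi) (sel (nat_lit 5) lo) (sel (nat_lit 5) hi)
    (sel (nat_lit 4) w) (sel (nat_lit 5) w) fun v2 =>
  mkRow (fun a => get ⟨v0, v1, v2, v2, v2, v2⟩ (sel a sl) (sel a kx)) fun xs =>
  mkRow (fun a => get ⟨v0, v1, v2, v2, v2, v2⟩ (sel a sl) (sel a ky)) fun ys =>
  mkTab (fun a b => Nat.mul (sel a xs) (Nat.mul (sel b ys) (get el a b))) fun q =>
  mkTab (fun a b => Nat.sub (Nat.add (get q a b) off) (get q b a)) fun t =>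
  frc (Nat.mod n 16) fun cc => frc (Nat.div n 256) fun n0 =>
  hl t ctx (Nat.mod (Nat.div n 16) 16) n0 Nat.zero one fun n1 P Q =>
  Nat.rec (motive := fun _ => Bool) (test1 h1 P Q)
    (fun _ _ =>
      frc (Nat.add (Nat.add (Nat.add (tv t (nat_lit 0) (nat_lit 1) (nat_lit 2))
        (tv t (nat_lit 0) (nat_lit 2) (nat_lit 3))) (tv t (nat_lit 0) (nat_lit 3) (nat_lit 4)))
        (tv t (nat_lit 0) (nat_lit 4) (nat_lit 5))) fun S =>
      dif z4 S fun nS => frcI (Int.mul (Int.ofNat (Nat.mul 256 num)) nS) fun sn =>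
      dif P Q fun Y => frcI (Int.mul Y (Int.ofNat one2)) fun y =>
      cl t ctx h1 h3 z zo z32 den sn cc n1 y) cc

/-- certificate trees -/
inductive Tr where
  | leaf (n : ℕ) : Tr
  | split (v m : ℕ) (l r : Tr) : Tr
  | br (h : ℕ) (l r : Tr) : Tr

/-- the opposite hypothesis -/
def opp (h : ℕ) : ℕ := Nat.add (Nat.mod (Nat.div h 216) 216) (Nat.mul 216 (Nat.mod h 216))

/-- check of a tree -/
noncomputable def go (lf : V6 → V6 → List ℕ → ℕ → Bool) (tr : Tr) : V6 → V6 → List ℕ → Bool :=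
  Tr.rec (motive := fun _ => V6 → V6 → List ℕ → Bool)
    (fun n lo hi ctx => lf lo hi ctx n)
    (fun v m _ _ il ir lo hi ctx => band (Nat.ble m 1024)
      (band (frcV (upd v m hi) fun hi' => il lo hi' ctx) (frcV (upd v m lo) fun lo' => ir lo' hi ctx)))
    (fun h _ _ il ir lo hi ctx =>
      band (il lo hi (h :: ctx)) (frc (opp h) fun h' => ir lo hi (h' :: ctx))) tr

/-- slot `s` occurs in the product for the pair `a`, `b` -/
def used (ty : Ty) (s a b : ℕ) : Prop :=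
  (2 ≤ sel a ty.kx ∧ sel a ty.sl = s) ∨ (2 ≤ sel b ty.ky ∧ sel b ty.sl = s)

noncomputable instance (ty : Ty) (s a b : ℕ) : Decidable (used ty s a b) := by
  unfold used; infer_instance

/-- elevation factor -/
noncomputable def elf (ty : Ty) (e0 e1 e2 a b : ℕ) : ℕ :=
  if a = b then 0 else Nat.mul (if used ty 0 a b then 1 else e0)
    (Nat.mul (if used ty 1 a b then 1 else e1) (if used ty 2 a b then 1 else e2))

/-- mask -/
def HIr (P : ℕ) : ℕ :=
  Nat.mul (Nat.pow 2 159) (Nat.div (Nat.sub (Nat.pow 2 (Nat.mul 160 P)) 1)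
    (Nat.sub (Nat.pow 2 160) 1))

/-- the checker -/
noncomputable def run (ty : Ty) (num den : ℕ) (lo hi : V6) (ctx : List ℕ) (tr : Tr) : Bool :=
  mkRow (fun i => Nat.pow (Nat.pow 2 160) (Nat.pow 4 i)) fun w =>
  frc (Nat.mul (Nat.succ (sel 0 w)) (Nat.succ (sel 1 w))) fun e0 =>
  frc (Nat.mul (Nat.succ (sel 2 w)) (Nat.succ (sel 3 w))) fun e1 =>
  frc (Nat.mul (Nat.succ (sel 4 w)) (Nat.succ (sel 5 w))) fun e2 =>
  mkTab (elf ty e0 e1 e2) fun el =>
  frc (HIr 1366) fun h1 => frc (HIr 4096) fun h3 =>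
  frc (Nat.pow (Nat.pow 2 160) 1366) fun off => frc (Nat.mul 3 off) fun z =>
  frc (Nat.mul e0 (Nat.mul e1 e2)) fun one => frc (Nat.mul one one) fun one2 =>
  frc (Nat.add z one) fun zo => frc (Nat.mul 4 z) fun z4 => frc (Nat.mul 32 z) fun z32 =>
  go (leafc ty.sl ty.kx ty.ky w el h1 h3 off z zo z4 z32 one one2 num den) tr lo hi ctx

end Pool.Agent.MP_5c967c_co.H46
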