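import Mathlib

/-! Packings of the Euclidean plane by congruent copies of a set, and their upper density. -/

namespace Pool.Agent.MP_5c967c_co.H46

open MeasureTheory

/-- The Euclidean plane. -/
abbrev Plane := EuclideanSpace ℝ (Fin 2)

/-- A packing of congruent copies of `C`: a family of images of `C` under isometries of the
plane whose interiors are pairwise disjoint. -/
def IsPacking (C : Set Plane) (F : Set (Set Plane)) : Prop :=
  (∀ D ∈ F, ∃ f : Plane ≃ᵢ Plane, D = f '' C) ∧
    F.Pairwise (fun D D' => Disjoint (interior D) (interior D'))

/-- The upper density of a family: the limit superior, as `r` tends to infinity, of the total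
area of the members inside the disc of radius `r` about the origin, divided by the area of that
disc. -/
noncomputable def density (F : Set (Set Plane)) : ENNReal :=
  Filter.limsup (fun r : ℝ =>
    (∑' D : F, volume ((D : Set Plane) ∩ Metric.ball (0 : Plane) r)) /
      volume (Metric.ball (0 : Plane) r)) Filter.atTop

/-- The packing density: the supremum of the densities of the packings of congruent copies. -/
noncomputable def packingDensity (C : Set Plane) : ENNReal :=
  ⨆ (F : Set (Set Plane)) (_ : IsPacking C F), density F

end Pool.Agent.MP_5c967c_co.H46
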