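import Pool.Agent.MP_5c967c_co.H46.DL

/-! From an algebraic candidate to a double-lattice packing of a polygon with six vertices. -/

namespace Pool.Agent.MP_5c967c_co.H46

open MeasureTheory Set Metric Filter

/-- next index modulo six -/
def nx (k : ℕ) : ℕ := (k + 1) % 6

/-- height of vertex `k` over edge `j` -/
def HH (t : ℕ → ℕ → ℕ → ℝ) (j k : ℕ) : ℝ := t j (nx j) k

/-- height of the foot point over edge `e` -/
def hM (t : ℕ → ℕ → ℕ → ℝ) (e j : ℕ) (s : ℝ) : ℝ := (1 - s) * HH t e j + s * HH t e (nx j)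

/-- first wedge coefficient -/
def cA (t : ℕ → ℕ → ℕ → ℝ) (j i : ℕ) (s : ℝ) (e : ℕ) : ℝ := hM t e j s - HH t e i

/-- second wedge coefficient -/
def cB (t : ℕ → ℕ → ℕ → ℝ) (j i : ℕ) (s : ℝ) (f : ℕ) : ℝ := HH t f i - hM t f j s

/-- wedge determinant -/
def cD (t : ℕ → ℕ → ℕ → ℝ) (f e : ℕ) : ℝ := HH t f (nx e) - HH t f e

/-- wedge numerator -/
def cN (t : ℕ → ℕ → ℕ → ℝ) (j i : ℕ) (s : ℝ) (f e : ℕ) : ℝ :=
  cA t j i s e * (hM t f j s + HH t f i) + 2 * cB t j i s f * HH t e i

/-- twice the area -/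
def SS (t : ℕ → ℕ → ℕ → ℝ) : ℝ := t 0 1 2 + t 0 2 3 + t 0 3 4 + t 0 4 5

/-- a good candidate -/
def Cand (t : ℕ → ℕ → ℕ → ℝ) (c : ℝ) : Prop :=
  ∃ j i f e f' e' : ℕ, ∃ s : ℝ, j < 6 ∧ i < 6 ∧ f < 6 ∧ e < 6 ∧ f' < 6 ∧ e' < 6 ∧ 0 ≤ s ∧ s ≤ 1 ∧
    (∀ k < 6, HH t j k ≤ HH t j i) ∧ 0 < HH t j i ∧
    0 ≤ cA t j i s e ∧ 0 ≤ cB t j i s f ∧ 0 < cD t f e ∧
    0 ≤ cA t j i s e' ∧ 0 ≤ cB t j i s f' ∧ 0 < - cD t f' e' ∧
    cN t j i s f e * (- cD t f' e') + cN t j i s f' e' * cD t f e
      ≤ 4 * c * SS t * cD t f e * (- cD t f' e')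

/-- triangle values of a sequence of points -/
def tW (W : ℕ → Plane) (a b c : ℕ) : ℝ := tri (W a) (W b) (W c)

/-- weakly convex position, counterclockwise -/
def Cvx (t : ℕ → ℕ → ℕ → ℝ) : Prop := ∀ i j k, i < j → j < k → k < 6 → 0 ≤ t i j k

theorem tri_rot (a b c : Plane) : tri a b c = tri b c a := by simp [tri]; ring

theorem tri_swap (a b c : Plane) : tri a b c = - tri a c b := by simp [tri]; ring

theorem tri_aba (a b : Plane) : tri a b a = 0 := by simp [tri]

theorem tri_abb (a b : Plane) : tri a b b = 0 := by simp [tri]; ring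

theorem tri_aab (a b : Plane) : tri a a b = 0 := by simp [tri]

theorem nx_lt (k : ℕ) : nx k < 6 := Nat.mod_lt _ (by norm_num)

theorem HH_nonneg (W : ℕ → Plane) (h : Cvx (tW W)) (j k : ℕ) (hj : j < 6) (hk : k < 6) :
    0 ≤ HH (tW W) j k := by
  unfold HH tW
  by_cases h5 : j = 5
  · subst h5
    have : nx 5 = 0 := rfl
    rw [this]
    by_cases k0 : k = 0
    · subst k0; rw [tri_abb]
    by_cases k5 : k = 5
    · subst k5; rw [tri_aba]
    rw [tri_rot]
    exact h 0 k 5 (by omega) (by omega) (by omega)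
  have : nx j = j + 1 := by unfold nx; omega
  rw [this]
  rcases lt_trichotomy k j with hkj | rfl | hkj
  · rw [tri_rot, tri_rot]
    exact h k j (j + 1) hkj (by omega) (by omega)
  · rw [tri_aba]
  · by_cases hk1 : k = j + 1
    · subst hk1; rw [tri_abb]
    exact h j (j + 1) k (by omega) (by omega) hk

theorem tri_combo (a b x y : Plane) (s : ℝ) :
    tri a b ((1 - s) • x + s • y) = (1 - s) * tri a b x + s * tri a b y := by
  simp [tri]; ring

theorem convex_half' (a b : Plane) (c : ℝ) : Convex ℝ {x : Plane | tri a b x ≤ c} := by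
  intro x hx y hy s t hs ht hst
  simp only [mem_ofPred_eq] at *
  have : s = 1 - t := by linarith
  subst this
  rw [tri_combo]
  nlinarith

theorem wedge (M T p P Q P' Q' : Plane) :
    (tri P' Q' M - tri P' Q' T) * tri P Q p
      + (tri P Q T - tri P Q M) * tri P' Q' (p + (1 / 2 : ℝ) • (T - M))
    = ((tri P' Q' M - tri P' Q' T) * (tri P Q M + tri P Q T)
        + 2 * (tri P Q T - tri P Q M) * tri P' Q' T) / 2
      - 2 * (tri P Q Q' - tri P Q P') * det2 (p - M) ((1 / 2 : ℝ) • (T - M)) := by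
  simp [tri, det2]; ring

theorem geo (W : ℕ → Plane) (hc : Cvx (tW W)) (c : ℝ) (hc0 : 0 < c) (hS : 0 < SS (tW W))
    (hne : (interior (convexHull ℝ (W '' Iio 6))).Nonempty) (h : Cand (tW W) c) :
    ENNReal.ofReal (1 / (4 * c)) ≤ packingDensity (convexHull ℝ (W '' Iio 6)) := by
  set K := convexHull ℝ (W '' Iio 6) with hK
  have hKc : Convex ℝ K := convex_convexHull _ _
  have hW : ∀ k < 6, W k ∈ K := fun k hk => subset_convexHull _ _ ⟨k, hk, rfl⟩
  have hfin : (W '' Iio 6).Finite := (finite_Iio 6).image _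
  obtain ⟨R, hR⟩ := (hfin.isCompact_convexHull ℝ).isBounded.subset_ball (0 : Plane)
  have hedge : ∀ j < 6, ∀ x ∈ K, 0 ≤ tri (W j) (W (nx j)) x := by
    intro j hj
    apply convexHull_min _ (convex_half _ _)
    rintro _ ⟨k, hk, rfl⟩
    exact HH_nonneg W hc j k hj hk
  obtain ⟨j, i, f, e, f', e', s, hj, hi, hf, he, hf', he', s0, s1, hst, hpos, a1, b1, d1, a2, b2,
    d2, hG⟩ := h
  set M : Plane := (1 - s) • W j + s • W (nx j) with hM'
  have hMK : M ∈ K := hKc (hW j hj) (hW _ (nx_lt j)) (by linarith) s0 (by ring)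
  have hMe : ∀ e, hM (tW W) e j s = tri (W e) (W (nx e)) M := by
    intro e; rw [hM', tri_combo]; rfl
  set u : Plane := (1 / 2 : ℝ) • (W i - M) with hu
  have hvol := fan6 K hKc (fun k : Fin 6 => W k) (fun k => hW k k.2)
    (fun a b d hab hbd => hc a b d hab hbd d.2)
  have hM0 : tri (W j) (W (nx j)) M = 0 := by
    rw [hM', tri_combo, tri_aba, tri_abb]; ring
  have eg : ∀ x, det2 (W (nx j) - W j) (x - M) = tri (W j) (W (nx j)) x - tri (W j) (W (nx j)) M := by
    intro x; simp [det2, tri]; ring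
  have egu : 2 * det2 (W (nx j) - W j) u = tri (W j) (W (nx j)) (W i) := by
    have := eg (W i)
    rw [hM0, sub_zero] at this
    rw [← this, hu]; simp [det2]; ring
  refine dl K hKc R hR hne (SS (tW W) / 2) (by linarith) hvol M u (W (nx j) - W j) hMK ?_ ?_ ?_
    (- (cN (tW W) j i s f' e' / (4 * (- cD (tW W) f' e')))) (c * SS (tW W)) _ ?_
    (mul_pos hc0 hS) (by positivity) ?_
  · have : M + (2 : ℝ) • u = W i := by rw [hu]; module
    rw [this]; exact hW i hi
  · intro x hx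
    rw [eg, hM0, sub_zero, egu]
    refine ⟨hedge j hj x hx, ?_⟩
    revert x
    apply convexHull_min _ (convex_half' _ _ _)
    rintro _ ⟨k, hk, rfl⟩
    exact hst k hk
  · have : 0 < tri (W j) (W (nx j)) (W i) := hpos
    linarith
  · intro p hp hpu
    have w1 := wedge M (W i) p (W f) (W (nx f)) (W e) (W (nx e))
    have w2 := wedge M (W i) p (W f') (W (nx f')) (W e') (W (nx e'))
    rw [← hu] at w1 w2
    have n1 : 0 ≤ cN (tW W) j i s f e / 2 - 2 * cD (tW W) f e * det2 (p - M) u := by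
      have := add_nonneg (mul_nonneg a1 (hedge f hf p hp)) (mul_nonneg b1 (hedge e he _ hpu))
      simp only [cN, cA, cB, cD, hMe] at this ⊢
      simp only [HH, tW] at this ⊢
      rw [w1] at this
      exact this
    have n2 : 0 ≤ cN (tW W) j i s f' e' / 2 - 2 * cD (tW W) f' e' * det2 (p - M) u := by
      have := add_nonneg (mul_nonneg a2 (hedge f' hf' p hp)) (mul_nonneg b2 (hedge e' he' _ hpu))
      simp only [cN, cA, cB, cD, hMe] at this ⊢
      simp only [HH, tW] at this ⊢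
      rw [w2] at this
      exact this
    set N1 := cN (tW W) j i s f e
    set N2 := cN (tW W) j i s f' e'
    set D1 := cD (tW W) f e
    set D2 := - cD (tW W) f' e' with hD2
    have hD2' : cD (tW W) f' e' = - D2 := by rw [hD2, neg_neg]
    rw [hD2'] at n2
    set y := det2 (p - M) u
    constructor
    · rw [neg_le, le_div_iff₀ (by linarith)]
      linarith
    · have h1 : y ≤ N1 / (4 * D1) := by
        rw [le_div_iff₀ (by linarith)]; linarith
      have h2 : N1 / (4 * D1) + N2 / (4 * D2) ≤ c * SS (tW W) := by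
        rw [div_add_div _ _ (by linarith) (by linarith), div_le_iff₀ (by positivity)]
        nlinarith
      linarith
  · have : 1 / (4 * c) * (2 * (c * SS (tW W))) = SS (tW W) / 2 := by field_simp; ring
    rw [this]

end Pool.Agent.MP_5c967c_co.H46
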