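import Pool.Agent.MP_5c967c_co.H46.Transfer
import Pool.Agent.MP_5c967c_co.H46.AllA
import Pool.Agent.MP_5c967c_co.H46.AllB
import Pool.Agent.MP_5c967c_co.H46.AllC

/-! Every convex polygon with at most six vertices has packing density at least 0.917. -/

namespace Pool.Agent.MP_5c967c_co.H46

open Set

/-- the bound -/
noncomputable abbrev rho6 : ENNReal := ENNReal.ofReal (1 / (4 * (1000 / (4 * 917) : ℝ)))

theorem caseA (W : ℕ → Plane) (hc : CvxN 6 W) (hm : Mx 6 W 0 2 4)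
    (e1 : tW W 2 3 4 ≤ tW W 0 1 2) (e2 : tW W 4 5 0 ≤ tW W 2 3 4) : PB rho6 6 W := by
  have hD : 0 < tri (W 0) (W 2) (W 4) := hm.1
  have p : ∀ a b c, a < b → b < c → c < 6 → 0 ≤ tri (W a) (W b) (W c) := hc
  have q : ∀ a b c, a < 6 → b < 6 → c < 6 → tri (W a) (W b) (W c) ≤ tri (W 0) (W 2) (W 4) := hm.2
  refine PB_of_cand hc (by norm_num) ?_ (transfer allA W hc (W 0) (W 2) (W 4) hD _
    (inBox_of hm _ (fun i => s6 i (tri (W 1) (W 2) (W 4)) (tri (W 0) (W 1) (W 2))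
      (tri (W 0) (W 3) (W 4)) (tri (W 2) (W 3) (W 4)) (tri (W 0) (W 2) (W 5))
      (tri (W 0) (W 4) (W 5))) ?_) ?_ ?_)
  · have : SS (tW W) = tri (W 0) (W 2) (W 4) + tri (W 0) (W 1) (W 2) + tri (W 2) (W 3) (W 4)
        + tri (W 0) (W 4) (W 5) := by simp only [SS, tW, tri]; ring
    linarith [p 0 1 2 (by omega) (by omega) (by omega), p 2 3 4 (by omega) (by omega) (by omega),
      p 0 4 5 (by omega) (by omega) (by omega)]
  · intro i hi
    left
    interval_cases i <;>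
      exact ⟨rfl, p _ _ _ (by omega) (by omega) (by omega), q _ _ _ (by omega) (by omega) (by omega)⟩
  · intro a ha
    interval_cases a <;>
      simp only [vx, vy, rv, tyA, sel_mk, s6_0, s6_1, s6_2, s6_3, s6_4, s6_5, tW] <;>
      constructor <;> norm_num only [s6_0, s6_1, s6_2, s6_3, s6_4, s6_5, if_true, if_false] <;>
      field_simp <;> (try simp only [tri]) <;> ring
  · have : ∀ h ∈ ctxA, okS 0 2 4 h ∨ h = 35502 ∨ h = 7508 := by decide
    intro h hh
    rcases this h hh with h1 | rfl | rfl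
    · exact okS_sound hc hm h1
    · exact sub_nonneg.2 e1
    · exact sub_nonneg.2 e2

theorem caseB : QQ rho6 6 0 1 3 := by
  intro W hc hm
  have hD : 0 < tri (W 0) (W 1) (W 3) := hm.1
  have p : ∀ a b c, a < b → b < c → c < 6 → 0 ≤ tri (W a) (W b) (W c) := hc
  have q : ∀ a b c, a < 6 → b < 6 → c < 6 → tri (W a) (W b) (W c) ≤ tri (W 0) (W 1) (W 3) := hm.2
  refine PB_of_cand hc (by norm_num) ?_ (transfer allB W hc (W 0) (W 1) (W 3) hD _
    (inBox_of hm _ (fun i => s6 i (tri (W 0) (W 2) (W 3)) (tri (W 1) (W 2) (W 3))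
      (tri (W 0) (W 1) (W 4)) (tri (W 0) (W 3) (W 4)) (tri (W 0) (W 1) (W 5))
      (tri (W 0) (W 3) (W 5))) ?_) ?_ ?_)
  · have : SS (tW W) = tri (W 0) (W 1) (W 3) + tri (W 1) (W 2) (W 3) + tri (W 0) (W 3) (W 4)
        + tri (W 0) (W 4) (W 5) := by simp only [SS, tW, tri]; ring
    linarith [p 1 2 3 (by omega) (by omega) (by omega), p 0 3 4 (by omega) (by omega) (by omega),
      p 0 4 5 (by omega) (by omega) (by omega)]
  · intro i hi
    left
    interval_cases i <;>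
      exact ⟨rfl, p _ _ _ (by omega) (by omega) (by omega), q _ _ _ (by omega) (by omega) (by omega)⟩
  · intro a ha
    interval_cases a <;>
      simp only [vx, vy, rv, tyB, sel_mk, s6_0, s6_1, s6_2, s6_3, s6_4, s6_5, tW] <;>
      constructor <;> norm_num only [s6_0, s6_1, s6_2, s6_3, s6_4, s6_5, if_true, if_false] <;>
      field_simp <;> (try simp only [tri]) <;> ring
  · have : ∀ h ∈ ctxB, okS 0 1 3 h := by decide
    exact fun h hh => okS_sound hc hm (this h hh)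

theorem caseC : QQ rho6 6 0 1 2 := by
  intro W hc hm
  have hD : 0 < tri (W 0) (W 1) (W 2) := hm.1
  have p : ∀ a b c, a < b → b < c → c < 6 → 0 ≤ tri (W a) (W b) (W c) := hc
  have q : ∀ a b c, a < 6 → b < 6 → c < 6 → tri (W a) (W b) (W c) ≤ tri (W 0) (W 1) (W 2) := hm.2
  refine PB_of_cand hc (by norm_num) ?_ (transfer allC W hc (W 0) (W 1) (W 2) hD _
    (inBox_of hm _ (fun i => s6 i (tri (W 0) (W 1) (W 3)) (tri (W 0) (W 2) (W 3))
      (tri (W 0) (W 1) (W 4)) (tri (W 0) (W 2) (W 4)) (tri (W 0) (W 1) (W 5))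
      (tri (W 0) (W 2) (W 5))) ?_) ?_ ?_)
  · unfold SS tW
    linarith [p 0 2 3 (by omega) (by omega) (by omega), p 0 3 4 (by omega) (by omega) (by omega),
      p 0 4 5 (by omega) (by omega) (by omega)]
  · intro i hi
    left
    interval_cases i <;>
      exact ⟨rfl, p _ _ _ (by omega) (by omega) (by omega), q _ _ _ (by omega) (by omega) (by omega)⟩
  · intro a ha
    interval_cases a <;>
      simp only [vx, vy, rv, tyC, sel_mk, s6_0, s6_1, s6_2, s6_3, s6_4, s6_5, tW] <;>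
      constructor <;> norm_num only [s6_0, s6_1, s6_2, s6_3, s6_4, s6_5, if_true, if_false] <;>
      field_simp <;> (try simp only [tri]) <;> ring
  · have : ∀ h ∈ ctxC, okS 0 1 2 h := by decide
    exact fun h hh => okS_sound hc hm (this h hh)

theorem caseA1 (W : ℕ → Plane) (hc : CvxN 6 W) (hm : Mx 6 W 0 2 4)
    (e1 : tW W 2 3 4 ≤ tW W 0 1 2) (e2 : tW W 4 5 0 ≤ tW W 0 1 2) : PB rho6 6 W := by
  rcases le_total (tW W 4 5 0) (tW W 2 3 4) with h | h
  · exact caseA W hc hm e1 h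
  · refine PB_rev (PB_rot (PB_rot (PB_rot (caseA _
      (rot_cvx _ _ (rot_cvx _ _ (rot_cvx _ _ (rev_cvx _ _ hc))))
      (rot_Mx _ (by norm_num) _ _ _ _ (rot_Mx _ (by norm_num) _ _ _ _
        (rot_Mx _ (by norm_num) _ _ _ _ (rev_Mx _ (by norm_num) _ _ _ _ ?_)))) ?_ ?_))))
    · exact cyc_Mx _ _ _ _ _ hm
    · simp only [tW, rot, rev, tri_flip] at *; norm_num; exact e2
    · simp only [tW, rot, rev, tri_flip] at *; norm_num; exact h

theorem caseA2 : QQ rho6 6 0 2 4 := by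
  intro W hc hm
  have r2 : ∀ W : ℕ → Plane, CvxN 6 W → Mx 6 W 0 2 4 →
      CvxN 6 (rot 6 (rot 6 W)) ∧ Mx 6 (rot 6 (rot 6 W)) 0 2 4 := fun W hc hm =>
    ⟨rot_cvx _ _ (rot_cvx _ _ hc), rot_Mx _ (by norm_num) _ _ _ _
      (rot_Mx _ (by norm_num) _ _ _ _ (cyc_Mx _ _ _ _ _ (cyc_Mx _ _ _ _ _ hm)))⟩
  have h2 := r2 W hc hm
  have h4 := r2 _ h2.1 h2.2
  by_cases a1 : tW W 2 3 4 ≤ tW W 0 1 2 ∧ tW W 4 5 0 ≤ tW W 0 1 2
  · exact caseA1 W hc hm a1.1 a1.2
  by_cases a2 : tW W 4 5 0 ≤ tW W 2 3 4 ∧ tW W 0 1 2 ≤ tW W 2 3 4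
  · exact PB_rot (PB_rot (caseA1 _ h2.1 h2.2 a2.1 a2.2))
  have a3 : tW W 0 1 2 ≤ tW W 4 5 0 ∧ tW W 2 3 4 ≤ tW W 4 5 0 := by
    push Not at a1 a2
    constructor
    · by_contra h
      push Not at h
      rcases le_total (tW W 2 3 4) (tW W 0 1 2) with h' | h'
      · linarith [a1 h']
      · linarith [a2 (by linarith)]
    · by_contra h
      push Not at h
      have := a2 h.le
      linarith [a1 this.le]
  exact PB_rot (PB_rot (PB_rot (PB_rot (caseA1 _ h4.1 h4.2 a3.1 a3.2))))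

theorem hexagon (V : Finset Plane) (hn : V.card ≤ 6)
    (hne : (interior (convexHull ℝ (V : Set Plane))).Nonempty) :
    ENNReal.ofReal (917 / 1000) ≤ packingDensity (convexHull ℝ (V : Set Plane)) := by
  have e : ENNReal.ofReal (917 / 1000) = rho6 := by unfold rho6; norm_num
  rw [e]
  have R : ∀ {i j k}, QQ rho6 6 i j k → QQ rho6 6 ((i + 1) % 6) ((j + 1) % 6) ((k + 1) % 6) :=
    fun h => QQ_rot (by norm_num) h
  have q012 := caseC
  have q123 : QQ rho6 6 1 2 3 := R q012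
  have q234 : QQ rho6 6 2 3 4 := R q123
  have q345 : QQ rho6 6 3 4 5 := R q234
  have q450 : QQ rho6 6 4 5 0 := R q345
  have q501 : QQ rho6 6 5 0 1 := R q450
  have q013 := caseB
  have q124 : QQ rho6 6 1 2 4 := R q013
  have q235 : QQ rho6 6 2 3 5 := R q124
  have q340 : QQ rho6 6 3 4 0 := R q235
  have q451 : QQ rho6 6 4 5 1 := R q340
  have q502 : QQ rho6 6 5 0 2 := R q451
  have q245 : QQ rho6 6 2 4 5 := QQ_rev (by norm_num) q013
  have q350 : QQ rho6 6 3 5 0 := R q245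
  have q401 : QQ rho6 6 4 0 1 := R q350
  have q512 : QQ rho6 6 5 1 2 := R q401
  have q023 : QQ rho6 6 0 2 3 := R q512
  have q134 : QQ rho6 6 1 3 4 := R q023
  have q024 := caseA2
  have q135 : QQ rho6 6 1 3 5 := R q024
  have q045 := QQ_cyc (QQ_cyc q450)
  have q015 := QQ_cyc q501
  have q034 := QQ_cyc (QQ_cyc q340)
  have q145 := QQ_cyc (QQ_cyc q451)
  have q025 := QQ_cyc q502
  have q035 := QQ_cyc (QQ_cyc q350)
  have q014 := QQ_cyc q401
  have q125 := QQ_cyc q512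
  refine final rho6 6 ?_ V hn hne
  intro i j k hij hjk hk
  interval_cases k <;> interval_cases j <;> interval_cases i <;> assumption

end Pool.Agent.MP_5c967c_co.H46
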