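import Pool.Agent.MP_5c967c_co.H46.Area

/-! The density of a double-lattice arrangement. -/

namespace Pool.Agent.MP_5c967c_co.H46

open MeasureTheory Set Metric Filter

/-- lattice point -/
def lat (a b : Plane) (z : ℤ × ℤ) : Plane := (z.1 : ℝ) • a + (z.2 : ℝ) • b

theorem cover (a b : Plane) (hD : det2 a b ≠ 0) (y : Plane) :
    ∃ z : ℤ × ℤ, y ∈ (fun x => lat a b z + x) '' para a b ∧ ‖lat a b z‖ ≤ ‖y‖ + (‖a‖ + ‖b‖) := by
  set s := det2 y b / det2 a b with hs
  set t := det2 a y / det2 a b with ht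
  have hy : y = s • a + t • b := by
    ext i
    fin_cases i <;> simp [hs, ht] <;> field_simp <;> simp [det2] <;> ring
  have hl : lat a b (⌊s⌋, ⌊t⌋) + (Int.fract s • a + Int.fract t • b) = y := by
    rw [hy]; unfold lat Int.fract; simp only; module
  refine ⟨(⌊s⌋, ⌊t⌋), ⟨Int.fract s • a + Int.fract t • b, ⟨!₂[Int.fract s, Int.fract t], ?_, ?_⟩,
    hl⟩, ?_⟩
  · simp [Int.fract_nonneg, (Int.fract_lt_one _).le]
  · rw [lin_apply]; simp
  · have : lat a b (⌊s⌋, ⌊t⌋) = y - (Int.fract s • a + Int.fract t • b) := by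
      rw [← hl]; abel
    rw [this]
    refine (norm_sub_le _ _).trans ?_
    gcongr
    refine (norm_add_le _ _).trans ?_
    rw [norm_smul, norm_smul, Real.norm_of_nonneg (Int.fract_nonneg _),
      Real.norm_of_nonneg (Int.fract_nonneg _)]
    have h1 := Int.fract_lt_one s
    have h2 := Int.fract_lt_one t
    nlinarith [norm_nonneg a, norm_nonneg b]

theorem count_le (a b : Plane) (hD : det2 a b ≠ 0) (r : ℝ) :
    volume (ball (0 : Plane) r) ≤
      (∑' z : ℤ × ℤ, {z | ‖lat a b z‖ < r + (‖a‖ + ‖b‖)}.indicator (fun _ => (1 : ENNReal)) z)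
        * ENNReal.ofReal |det2 a b| := by
  set I : Set (ℤ × ℤ) := {z | ‖lat a b z‖ < r + (‖a‖ + ‖b‖)} with hI
  have hsub : ball (0 : Plane) r ⊆ ⋃ z : ℤ × ℤ,
      (if z ∈ I then (fun x => lat a b z + x) '' para a b else ∅) := by
    intro y hy
    obtain ⟨z, hz, hn⟩ := cover a b hD y
    have : z ∈ I := by
      simp only [hI, mem_ofPred_eq]
      rw [mem_ball_zero_iff] at hy
      linarith
    exact mem_iUnion.2 ⟨z, by rw [if_pos this]; exact hz⟩
  refine (measure_mono hsub).trans ((measure_iUnion_le _).trans ?_)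
  rw [← ENNReal.tsum_mul_right]
  refine ENNReal.tsum_le_tsum fun z => ?_
  by_cases hz : z ∈ I
  · rw [if_pos hz, indicator_of_mem hz, vol_shift, vol_para, one_mul]
  · rw [if_neg hz]; simp

theorem sum_ge (K : Set Plane) (a b : Plane) (v R r : ℝ) (hK : K ⊆ ball 0 R)
    (hv : ENNReal.ofReal v ≤ volume K) :
    (∑' z : ℤ × ℤ, {z | ‖lat a b z‖ < r - R}.indicator (fun _ => (1 : ENNReal)) z)
        * ENNReal.ofReal v ≤
      ∑' z : ℤ × ℤ, volume (((fun x => lat a b z + x) '' K) ∩ ball (0 : Plane) r) := by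
  rw [← ENNReal.tsum_mul_right]
  refine ENNReal.tsum_le_tsum fun z => ?_
  by_cases hz : z ∈ {z | ‖lat a b z‖ < r - R}
  · rw [indicator_of_mem hz, one_mul, inter_eq_left.2, vol_shift]
    · exact hv
    · rintro _ ⟨x, hx, rfl⟩
      have := hK hx
      rw [mem_ball_zero_iff] at this ⊢
      simp only [mem_ofPred_eq] at hz
      linarith [norm_add_le (lat a b z) x]
  · rw [indicator_of_notMem hz]; simp

theorem density_ge (K1 K2 : Set Plane) (a b : Plane) (v ρ R : ℝ) (hD : det2 a b ≠ 0)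
    (h1 : K1 ⊆ ball 0 R) (h2 : K2 ⊆ ball 0 R) (hv1 : ENNReal.ofReal v ≤ volume K1)
    (hv2 : ENNReal.ofReal v ≤ volume K2) (hv0 : 0 ≤ v) (hρ0 : 0 ≤ ρ)
    (hρ : ρ * |det2 a b| ≤ 2 * v) (F : Bool × ℤ × ℤ → Set Plane)
    (hF1 : ∀ z, F (true, z) = (fun x => lat a b z + x) '' K1)
    (hF2 : ∀ z, F (false, z) = (fun x => lat a b z + x) '' K2)
    (inj : Function.Injective F) : ENNReal.ofReal ρ ≤ density (range F) := by
  set Q : ℝ := R + (‖a‖ + ‖b‖) with hQ
  have hlim : Tendsto (fun r : ℝ => ENNReal.ofReal (ρ * ((r - Q) / r) ^ 2)) atTop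
      (nhds (ENNReal.ofReal ρ)) := by
    apply ENNReal.tendsto_ofReal
    have h : Tendsto (fun r : ℝ => (r - Q) / r) atTop (nhds 1) := by
      have h0 : Tendsto (fun r : ℝ => 1 - Q / r) atTop (nhds (1 - 0)) :=
        tendsto_const_nhds.sub (tendsto_const_nhds.div_atTop tendsto_id)
      rw [sub_zero] at h0
      refine h0.congr' ?_
      filter_upwards [eventually_gt_atTop 0] with r hr
      field_simp
    have := (h.pow 2).const_mul ρ
    simpa using this
  rw [← hlim.limsup_eq]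
  unfold density
  refine limsup_le_limsup ?_
  filter_upwards [eventually_gt_atTop 0, eventually_gt_atTop Q] with r hr hrQ
  have hb0 : volume (ball (0 : Plane) r) ≠ 0 := (measure_ball_pos _ _ hr).ne'
  have hb1 : volume (ball (0 : Plane) r) ≠ ⊤ := measure_ball_lt_top.ne
  rw [ENNReal.le_div_iff_mul_le (Or.inl hb0) (Or.inl hb1)]
  rw [tsum_range (fun D => volume (D ∩ ball (0 : Plane) r)) inj, ENNReal.tsum_prod', tsum_bool]
  simp only [hF1, hF2]
  have s1 := sum_ge K1 a b v R r h1 hv1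
  have s2 := sum_ge K2 a b v R r h2 hv2
  have c := count_le a b hD (r - Q)
  have e : r - Q + (‖a‖ + ‖b‖) = r - R := by rw [hQ]; ring
  rw [e] at c
  set N := ∑' z : ℤ × ℤ, {z | ‖lat a b z‖ < r - R}.indicator (fun _ => (1 : ENNReal)) z
  have e1 : ENNReal.ofReal (ρ * ((r - Q) / r) ^ 2) * volume (ball (0 : Plane) r)
      = ENNReal.ofReal ρ * volume (ball (0 : Plane) (r - Q)) := by
    rw [Measure.addHaar_ball_of_pos _ _ hr, Measure.addHaar_ball_of_pos _ _ (sub_pos.2 hrQ),
      ← mul_assoc, ← mul_assoc, ← ENNReal.ofReal_mul (by positivity), ← ENNReal.ofReal_mul hρ0]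
    congr 2
    simp only [finrank_euclideanSpace, Fintype.card_fin]
    field_simp
  rw [e1]
  calc ENNReal.ofReal ρ * volume (ball (0 : Plane) (r - Q))
      ≤ ENNReal.ofReal ρ * (N * ENNReal.ofReal |det2 a b|) := by gcongr
    _ = N * ENNReal.ofReal (ρ * |det2 a b|) := by
        rw [ENNReal.ofReal_mul hρ0]; ring
    _ ≤ N * ENNReal.ofReal (v + v) := by
        gcongr; linarith
    _ = N * ENNReal.ofReal v + N * ENNReal.ofReal v := by
        rw [ENNReal.ofReal_add hv0 hv0, mul_add]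
    _ ≤ _ := add_le_add s2 s1

end Pool.Agent.MP_5c967c_co.H46
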