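import Pool.Agent.MP_5c967c_co.H46.Geo

/-! Cyclic ordering of the vertices of a polygon, and the symmetries of the problem. -/

namespace Pool.Agent.MP_5c967c_co.H46

open MeasureTheory Set Metric Filter

/-- weakly convex position of the first `n` points -/
def CvxN (n : ℕ) (W : ℕ → Plane) : Prop := ∀ i j k, i < j → j < k → k < n → 0 ≤ tW W i j k

theorem mem_hull3 (s : Set Plane) (B X Y Z : Plane) (hB : B ∈ s) (hX : X ∈ s) (hZ : Z ∈ s)
    (h1 : tri X Y Z < 0) (h2 : 0 ≤ tri B Y Z) (h3 : 0 ≤ tri B X Y) : Y ∈ convexHull ℝ s := by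
  have hc := convex_convexHull ℝ s
  set D := - tri X Y Z + tri B Y Z + tri B X Y with hD
  have hD0 : 0 < D := by linarith
  have h := hc.sum_mem (t := Finset.univ) (w := ![- tri X Y Z / D, tri B Y Z / D, tri B X Y / D])
    (z := ![B, X, Z])
    (by
      intro i _
      fin_cases i
      · exact div_nonneg (by linarith) hD0.le
      · exact div_nonneg h2 hD0.le
      · exact div_nonneg h3 hD0.le)
    (by simp only [Fin.sum_univ_three, Matrix.cons_val]; field_simp; rw [hD])
    (by intro i _; fin_cases i <;> exact subset_convexHull _ _ (by simpa))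
  convert h using 1
  simp only [Fin.sum_univ_three, Matrix.cons_val]
  ext i
  simp only [PiLp.add_apply, PiLp.smul_apply, smul_eq_mul]
  field_simp
  rw [hD]
  fin_cases i <;> simp [tri] <;> ring

theorem order_indep (n : ℕ) (V : Finset Plane) (hn : V.card ≤ n) (hne : V.Nonempty)
    (hind : ∀ x ∈ V, x ∉ convexHull ℝ ((V.erase x : Finset Plane) : Set Plane)) :
    ∃ W : ℕ → Plane, CvxN n W ∧ W '' Iio n = (V : Set Plane) := by
  classical
  obtain ⟨B, hB, hmax⟩ := V.exists_max_image (fun x => x 0 ^ 2 + x 1 ^ 2) hne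
  let l : Plane → ℝ := fun x => - (B 0 * (x 0 - B 0) + B 1 * (x 1 - B 1))
  let m : Plane → ℝ := fun x => - (B 0 * (x 1 - B 1) - B 1 * (x 0 - B 0))
  have hl : ∀ x ∈ V.erase B, 0 < l x := by
    intro x hx
    rw [Finset.mem_erase] at hx
    have h1 := hmax x hx.2
    have h2 : 0 < (x 0 - B 0) ^ 2 + (x 1 - B 1) ^ 2 := by
      by_contra hcon
      apply hx.1
      have a1 : x 0 - B 0 = 0 := by nlinarith [sq_nonneg (x 0 - B 0), sq_nonneg (x 1 - B 1)]
      have a2 : x 1 - B 1 = 0 := by nlinarith [sq_nonneg (x 0 - B 0), sq_nonneg (x 1 - B 1)]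
      ext i; fin_cases i <;> simp <;> linarith
    simp only [l]
    nlinarith
  have hkey : ∀ x ∈ V.erase B, ∀ y ∈ V.erase B, m x / l x ≤ m y / l y → 0 ≤ tri B x y := by
    intro x hx y hy h
    rw [div_le_div_iff₀ (hl x hx) (hl y hy)] at h
    have e : (B 0 ^ 2 + B 1 ^ 2) * tri B x y = m y * l x - m x * l y := by
      simp only [l, m, tri]; ring
    have hg : 0 < B 0 ^ 2 + B 1 ^ 2 := by
      by_contra hcon
      have a1 : B 0 = 0 := by nlinarith [sq_nonneg (B 0), sq_nonneg (B 1)]
      have a2 : B 1 = 0 := by nlinarith [sq_nonneg (B 0), sq_nonneg (B 1)]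
      have := hl x hx
      simp [l, a1, a2] at this
    by_contra hcon
    push Not at hcon
    nlinarith
  set M := (V.erase B).card with hM
  have hMn : M + 1 ≤ n := by
    rw [hM, Finset.card_erase_of_mem hB]
    have := hne.card_pos
    omega
  let e : Fin M ≃ (V.erase B) := (V.erase B).equivFin.symm
  let f : Fin M → ℝ := fun k => m (e k) / l (e k)
  let X : Fin M → Plane := fun k => e (Tuple.sort f k)
  have hXm : ∀ k, X k ∈ V.erase B := fun k => (e (Tuple.sort f k)).2
  have hXi : Function.Injective X := fun a b h =>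
    (Tuple.sort f).injective (e.injective (Subtype.ext h))
  have hXt : ∀ a b : Fin M, a ≤ b → 0 ≤ tri B (X a) (X b) := fun a b h =>
    hkey _ (hXm a) _ (hXm b) (Tuple.monotone_sort f h)
  have hX3 : ∀ a b c : Fin M, a < b → b < c → 0 ≤ tri (X a) (X b) (X c) := by
    intro a b c hab hbc
    by_contra hcon
    push Not at hcon
    have hb := Finset.mem_erase.1 (hXm b)
    apply hind _ hb.2
    refine mem_hull3 _ B (X a) (X b) (X c) ?_ ?_ ?_ hcon (hXt b c hbc.le) (hXt a b hab.le)
    · exact Finset.mem_coe.2 (Finset.mem_erase.2 ⟨hb.1.symm, hB⟩)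
    · exact Finset.mem_coe.2 (Finset.mem_erase.2
        ⟨fun h => hab.ne (hXi h), (Finset.mem_erase.1 (hXm a)).2⟩)
    · exact Finset.mem_coe.2 (Finset.mem_erase.2
        ⟨fun h => hbc.ne' (hXi h), (Finset.mem_erase.1 (hXm c)).2⟩)
  let W : ℕ → Plane := fun k => if h : 1 ≤ k ∧ k - 1 < M then X ⟨k - 1, h.2⟩ else B
  refine ⟨W, ?_, ?_⟩
  · intro i j k hij hjk hk
    simp only [tW, W]
    split_ifs with h1 h2 h3 h4 h5 h6 h7
    · exact hX3 _ _ _ (by simp only [Fin.lt_def]; omega) (by simp only [Fin.lt_def]; omega)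
    · rw [tri_rot, tri_rot]
      exact hXt _ _ (by simp only [Fin.le_def]; omega)
    · omega
    · rw [tri_abb]
    · exact hXt _ _ (by simp only [Fin.le_def]; omega)
    · rw [tri_aba]
    · rw [tri_aab]
    · rw [tri_aab]
  · ext x
    constructor
    · rintro ⟨k, _, rfl⟩
      simp only [W]
      split_ifs with h
      · exact (Finset.mem_erase.1 (hXm _)).2
      · exact hB
    · intro hx
      by_cases hxB : x = B
      · refine ⟨0, by simp only [mem_Iio]; omega, ?_⟩
        simp [W, hxB]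
      · have hx' : x ∈ V.erase B := Finset.mem_erase.2 ⟨hxB, hx⟩
        let k := (Tuple.sort f).symm (e.symm ⟨x, hx'⟩)
        refine ⟨k + 1, by simp only [mem_Iio]; have := k.2; omega, ?_⟩
        have hk : 1 ≤ (k : ℕ) + 1 ∧ (k : ℕ) + 1 - 1 < M := ⟨by omega, by have := k.2; omega⟩
        simp only [W, dif_pos hk, X]
        have : (⟨(k : ℕ) + 1 - 1, hk.2⟩ : Fin M) = k := by ext; simp
        rw [this]
        simp [k]

theorem order (n : ℕ) (V : Finset Plane) (hn : V.card ≤ n) (hne : V.Nonempty) :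
    ∃ W : ℕ → Plane, CvxN n W ∧ convexHull ℝ (W '' Iio n) = convexHull ℝ (V : Set Plane) := by
  classical
  induction V using Finset.strongInduction with
  | H V ih =>
    by_cases hind : ∀ x ∈ V, x ∉ convexHull ℝ ((V.erase x : Finset Plane) : Set Plane)
    · obtain ⟨W, h1, h2⟩ := order_indep n V hn hne hind
      exact ⟨W, h1, by rw [h2]⟩
    · push Not at hind
      obtain ⟨x, hx, hx'⟩ := hind
      have hne' : (V.erase x).Nonempty := by
        by_contra hcon
        rw [Finset.not_nonempty_iff_eq_empty] at hcon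
        rw [hcon] at hx'
        simp at hx'
      obtain ⟨W, h1, h2⟩ := ih (V.erase x) (Finset.erase_ssubset hx)
        ((Finset.card_erase_le).trans hn) hne'
      refine ⟨W, h1, ?_⟩
      rw [h2]
      apply Subset.antisymm
      · exact convexHull_mono (Finset.coe_subset.2 (Finset.erase_subset _ _))
      · apply convexHull_min _ (convex_convexHull _ _)
        intro y hy
        by_cases hyx : y = x
        · rw [hyx]; exact hx'
        · exact subset_convexHull _ _ (Finset.mem_coe.2 (Finset.mem_erase.2 ⟨hyx, hy⟩))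

/-- the triple `(i, j, k)` spans a triangle of largest, positive area -/
def Mx (n : ℕ) (W : ℕ → Plane) (i j k : ℕ) : Prop :=
  0 < tW W i j k ∧ ∀ a b c, a < n → b < n → c < n → tW W a b c ≤ tW W i j k

theorem tri_le_sorted (n : ℕ) (W : ℕ → Plane) (hc : CvxN n W) (m : ℝ) (h0 : 0 ≤ m)
    (h : ∀ i j k, i < j → j < k → k < n → tW W i j k ≤ m) :
    ∀ a b c, a < n → b < n → c < n → tW W a b c ≤ m := by
  intro a b c ha hb hc'
  unfold tW
  rcases lt_trichotomy a b with hab | rfl | hab
  · rcases lt_trichotomy b c with hbc | rfl | hbc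
    · exact h a b c hab hbc hc'
    · rw [tri_abb]; exact h0
    · rcases lt_trichotomy a c with hac | rfl | hac
      · have := hc a c b hac hbc hb
        unfold tW at this
        rw [tri_swap]; linarith
      · rw [tri_aba]; exact h0
      · rw [tri_rot, tri_rot]; exact h c a b hac hab hb
  · rw [tri_aab]; exact h0
  · rcases lt_trichotomy a c with hac | rfl | hac
    · have := hc b a c hab hac hc'
      unfold tW at this
      rw [tri_rot, tri_swap]; linarith
    · rw [tri_aba]; exact h0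
    · rcases lt_trichotomy b c with hbc | rfl | hbc
      · rw [tri_rot]; exact h b c a hbc hac ha
      · rw [tri_abb]; exact h0
      · have := hc c b a hbc hab ha
        unfold tW at this
        rw [tri_swap, tri_rot]; linarith

theorem exists_Mx (n : ℕ) (W : ℕ → Plane) (hc : CvxN n W)
    (hne : (interior (convexHull ℝ (W '' Iio n))).Nonempty) :
    ∃ i j k, i < j ∧ j < k ∧ k < n ∧ Mx n W i j k := by
  classical
  have hex : ∃ i j k, i < j ∧ j < k ∧ k < n ∧ 0 < tW W i j k := by
    by_contra hcon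
    push Not at hcon
    have hle := tri_le_sorted n W hc 0 le_rfl hcon
    obtain ⟨q, hq⟩ := hne
    have hn : 0 < n := by
      by_contra h0
      have : n = 0 := by omega
      subst this
      simp at hq
    have hline : ∃ g : Plane, g ≠ 0 ∧ ∀ k < n, tri (W 0) (W 0 + g) (W k) ≤ 0 := by
      by_cases hall : ∀ k < n, W k = W 0
      · refine ⟨!₂[1, 0], ?_, fun k hk => ?_⟩
        · intro h; have := congrArg (fun x : Plane => x 0) h; simp at this
        · rw [hall k hk, tri_aba]
      · push Not at hall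
        obtain ⟨b, hb, hb'⟩ := hall
        refine ⟨W b - W 0, sub_ne_zero.2 hb', fun k hk => ?_⟩
        rw [add_sub_cancel]
        exact hle 0 b k hn hb hk
    have hline' : ∃ g : Plane, g ≠ 0 ∧ ∀ k < n, tri (W 0) (W 0 + g) (W k) = 0 := by
      by_cases hall : ∀ k < n, W k = W 0
      · refine ⟨!₂[1, 0], ?_, fun k hk => ?_⟩
        · intro h; have := congrArg (fun x : Plane => x 0) h; simp at this
        · rw [hall k hk, tri_aba]
      · push Not at hall
        obtain ⟨b, hb, hb'⟩ := hall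
        refine ⟨W b - W 0, sub_ne_zero.2 hb', fun k hk => ?_⟩
        rw [add_sub_cancel]
        have h1 := hle 0 b k hn hb hk
        have h2 := hle 0 k b hn hk hb
        unfold tW at h1 h2
        rw [tri_swap] at h2
        linarith
    obtain ⟨g, hg, hg'⟩ := hline'
    have hsub : ∀ x ∈ convexHull ℝ (W '' Iio n), 0 ≤ tri (W 0) (W 0 + g) x ∧
        tri (W 0) (W 0 + g) x ≤ 0 := by
      intro x hx
      constructor
      · revert x
        apply convexHull_min _ (convex_half _ _)
        rintro _ ⟨k, hk, rfl⟩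
        exact (hg' k hk).ge
      · revert x
        apply convexHull_min _ (convex_half' _ _ _)
        rintro _ ⟨k, hk, rfl⟩
        exact (hg' k hk).le
    obtain ⟨e, he, he'⟩ := open_move _ isOpen_interior q hq !₂[- g 1, g 0]
    have h1 := (hsub _ (interior_subset hq)).1
    have h2 := (hsub _ (interior_subset he')).2
    have e1 : tri (W 0) (W 0 + g) (q + e • !₂[- g 1, g 0])
        = tri (W 0) (W 0 + g) q + e * (g 0 ^ 2 + g 1 ^ 2) := by
      simp [tri]; ring
    have : 0 < g 0 ^ 2 + g 1 ^ 2 := by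
      by_contra hcon
      apply hg
      have a1 : g 0 = 0 := by nlinarith [sq_nonneg (g 0), sq_nonneg (g 1)]
      have a2 : g 1 = 0 := by nlinarith [sq_nonneg (g 0), sq_nonneg (g 1)]
      ext i; fin_cases i <;> simp [a1, a2]
    have := mul_pos he this
    linarith
  obtain ⟨i0, j0, k0, h1, h2, h3, h4⟩ := hex
  let S : Finset (ℕ × ℕ × ℕ) := ((Finset.range n) ×ˢ (Finset.range n) ×ˢ (Finset.range n)).filter
    (fun z => z.1 < z.2.1 ∧ z.2.1 < z.2.2)
  have hS : ∀ i j k, i < j → j < k → k < n → (i, j, k) ∈ S := by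
    intro i j k a b c
    simp only [S, Finset.mem_filter, Finset.mem_product, Finset.mem_range]
    omega
  obtain ⟨⟨i, j, k⟩, hm, hmax⟩ := S.exists_max_image (fun z => tW W z.1 z.2.1 z.2.2)
    ⟨_, hS _ _ _ h1 h2 h3⟩
  simp only [S, Finset.mem_filter, Finset.mem_product, Finset.mem_range] at hm
  have hp : 0 < tW W i j k := h4.trans_le (hmax _ (hS _ _ _ h1 h2 h3))
  exact ⟨i, j, k, hm.2.1, hm.2.2, hm.1.2.2, hp,
    tri_le_sorted n W hc _ hp.le fun a b c x y z => hmax _ (hS a b c x y z)⟩

/-- cyclic shift -/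
def rot (n : ℕ) (W : ℕ → Plane) : ℕ → Plane := fun k => W ((k + 1) % n)

/-- reflection of the plane -/
noncomputable def flip : Plane ≃ₗᵢ[ℝ] Plane :=
  LinearIsometryEquiv.piLpCongrLeft 2 ℝ ℝ (Equiv.swap (0 : Fin 2) 1)

theorem flip0 (x : Plane) : flip x 0 = x 1 := by
  simp [flip, LinearIsometryEquiv.piLpCongrLeft_apply, Equiv.piCongrLeft']

theorem flip1 (x : Plane) : flip x 1 = x 0 := by
  simp [flip, LinearIsometryEquiv.piLpCongrLeft_apply, Equiv.piCongrLeft']

theorem tri_flip (a b c : Plane) : tri (flip a) (flip b) (flip c) = tri c b a := by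
  simp only [tri, flip0, flip1]; ring

/-- mirror image, with reversed order -/
noncomputable def rev (n : ℕ) (W : ℕ → Plane) : ℕ → Plane := fun k => flip (W (n - 1 - k))

theorem packingDensity_iso (f : Plane ≃ᵢ Plane) (K : Set Plane) :
    packingDensity (f '' K) ≤ packingDensity K := by
  unfold packingDensity
  refine iSup₂_le fun F hF => ?_
  refine le_iSup₂_of_le (f := fun F (_ : IsPacking K F) => density F) F ⟨?_, hF.2⟩ le_rfl
  intro D hD
  obtain ⟨g, rfl⟩ := hF.1 D hD
  exact ⟨f.trans g, by rw [image_image]; rfl⟩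

theorem rot_image (n : ℕ) (W : ℕ → Plane) : rot n W '' Iio n = W '' Iio n := by
  ext x
  constructor
  · rintro ⟨k, hk, rfl⟩
    exact ⟨(k + 1) % n, Nat.mod_lt _ (by simp only [mem_Iio] at hk; omega), rfl⟩
  · rintro ⟨k, hk, rfl⟩
    simp only [mem_Iio] at hk
    rcases Nat.eq_zero_or_pos k with rfl | hk0
    · refine ⟨n - 1, by simp only [mem_Iio]; omega, ?_⟩
      have : n - 1 + 1 = n := by omega
      simp [rot, this]
    · refine ⟨k - 1, by simp only [mem_Iio]; omega, ?_⟩
      have : k - 1 + 1 = k := by omega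
      simp [rot, this, Nat.mod_eq_of_lt hk]

theorem rev_hull (n : ℕ) (W : ℕ → Plane) : convexHull ℝ (rev n W '' Iio n)
    = flip.toIsometryEquiv '' convexHull ℝ (W '' Iio n) := by
  have h := flip.toLinearEquiv.toLinearMap.image_convexHull (W '' Iio n)
  have e : rev n W '' Iio n = flip.toLinearEquiv.toLinearMap '' (W '' Iio n) := by
    ext x
    constructor
    · rintro ⟨k, hk, rfl⟩
      exact ⟨_, ⟨n - 1 - k, by simp only [mem_Iio] at hk ⊢; omega, rfl⟩, rfl⟩
    · rintro ⟨_, ⟨k, hk, rfl⟩, rfl⟩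
      simp only [mem_Iio] at hk
      refine ⟨n - 1 - k, by simp only [mem_Iio]; omega, ?_⟩
      have : n - 1 - (n - 1 - k) = k := by omega
      simp [rev, this]
  rw [e, ← h]
  rfl

theorem rot_cvx (n : ℕ) (W : ℕ → Plane) (h : CvxN n W) : CvxN n (rot n W) := by
  intro i j k hij hjk hk
  simp only [tW, rot]
  rw [Nat.mod_eq_of_lt (show i + 1 < n by omega), Nat.mod_eq_of_lt (show j + 1 < n by omega)]
  rcases (show k + 1 < n ∨ k + 1 = n by omega) with h1 | h1
  · rw [Nat.mod_eq_of_lt h1]
    exact h _ _ _ (by omega) (by omega) h1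
  · rw [h1, Nat.mod_self, tri_rot, tri_rot]
    exact h _ _ _ (by omega) (by omega) (by omega)

theorem rev_cvx (n : ℕ) (W : ℕ → Plane) (h : CvxN n W) : CvxN n (rev n W) := by
  intro i j k hij hjk hk
  simp only [tW, rev, tri_flip]
  exact h _ _ _ (by omega) (by omega) (by omega)

theorem rot_Mx (n : ℕ) (hn : 0 < n) (W : ℕ → Plane) (i j k : ℕ)
    (h : Mx n W ((i + 1) % n) ((j + 1) % n) ((k + 1) % n)) : Mx n (rot n W) i j k :=
  ⟨h.1, fun _ _ _ _ _ _ => h.2 _ _ _ (Nat.mod_lt _ hn) (Nat.mod_lt _ hn) (Nat.mod_lt _ hn)⟩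

theorem rev_Mx (n : ℕ) (hn : 0 < n) (W : ℕ → Plane) (i j k : ℕ)
    (h : Mx n W (n - 1 - k) (n - 1 - j) (n - 1 - i)) : Mx n (rev n W) i j k := by
  refine ⟨?_, fun a b c _ _ _ => ?_⟩
  · simp only [tW, rev, tri_flip]; exact h.1
  · simp only [tW, rev, tri_flip]
    exact h.2 _ _ _ (by omega) (by omega) (by omega)

theorem cyc_Mx (n : ℕ) (W : ℕ → Plane) (i j k : ℕ) (h : Mx n W j k i) : Mx n W i j k := by
  have e : tW W i j k = tW W j k i := tri_rot _ _ _
  unfold Mx
  rw [e]; exact h

/-- the bound holds for the polygon -/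
def PB (ρ : ENNReal) (n : ℕ) (W : ℕ → Plane) : Prop :=
  (interior (convexHull ℝ (W '' Iio n))).Nonempty → ρ ≤ packingDensity (convexHull ℝ (W '' Iio n))

theorem PB_rot {ρ : ENNReal} {n : ℕ} {W : ℕ → Plane} (h : PB ρ n (rot n W)) : PB ρ n W := by
  unfold PB at *
  rwa [rot_image] at h

theorem PB_rev {ρ : ENNReal} {n : ℕ} {W : ℕ → Plane} (h : PB ρ n (rev n W)) : PB ρ n W := by
  unfold PB at *
  rw [rev_hull, interior_iso] at h
  intro hne
  exact (h (hne.image _)).trans (packingDensity_iso _ _)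

/-- the bound holds whenever the largest triangle sits at `(i, j, k)` -/
def QQ (ρ : ENNReal) (n i j k : ℕ) : Prop := ∀ W, CvxN n W → Mx n W i j k → PB ρ n W

theorem QQ_rot {ρ : ENNReal} {n i j k : ℕ} (hn : 0 < n) (h : QQ ρ n i j k) :
    QQ ρ n ((i + 1) % n) ((j + 1) % n) ((k + 1) % n) := fun W hc hm =>
  PB_rot (h _ (rot_cvx n W hc) (rot_Mx n hn W i j k hm))

theorem QQ_rev {ρ : ENNReal} {n i j k : ℕ} (hn : 0 < n) (h : QQ ρ n i j k) :
    QQ ρ n (n - 1 - k) (n - 1 - j) (n - 1 - i) := fun W hc hm =>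
  PB_rev (h _ (rev_cvx n W hc) (rev_Mx n hn W i j k hm))

theorem QQ_cyc {ρ : ENNReal} {n i j k : ℕ} (h : QQ ρ n i j k) : QQ ρ n j k i := fun W hc hm =>
  h W hc (cyc_Mx n W i j k hm)

theorem final (ρ : ENNReal) (n : ℕ) (h : ∀ i j k, i < j → j < k → k < n → QQ ρ n i j k)
    (V : Finset Plane) (hn : V.card ≤ n)
    (hne : (interior (convexHull ℝ (V : Set Plane))).Nonempty) :
    ρ ≤ packingDensity (convexHull ℝ (V : Set Plane)) := by
  have hV : V.Nonempty := by
    by_contra hcon
    rw [Finset.not_nonempty_iff_eq_empty] at hcon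
    subst hcon
    simp at hne
  obtain ⟨W, h1, h2⟩ := order n V hn hV
  rw [← h2] at hne ⊢
  obtain ⟨i, j, k, a, b, c, d⟩ := exists_Mx n W h1 hne
  exact h i j k a b c W h1 d hne

end Pool.Agent.MP_5c967c_co.H46
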