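import Mathlib

/-! The inequality behind the sharp bound for pentagons. -/

namespace Pool.Agent.MP_5c967c_co.H46

theorem key_poly (y w : ℝ) (hy0 : 0 ≤ y) (hy1 : y ≤ 1) (hw0 : 0 ≤ w) (hw1 : w ≤ 1)
    (hs : y + w ≤ 12361 / 10000) :
    53668 / 10000 * w * (1 - (y + w) / 2) ≤
      (y + w + 3236 / 1000) * (3416 / 10000 * (1 - (y + w) / 2) + w * (1 - y)) := by
  nlinarith [mul_nonneg hy0 hw0, mul_nonneg (sub_nonneg.2 hy1) hw0, mul_nonneg hy0 (sub_nonneg.2 hw1),
    mul_nonneg (sub_nonneg.2 hy1) (sub_nonneg.2 hw1), mul_nonneg (sub_nonneg.2 hs) hw0,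
    mul_nonneg (sub_nonneg.2 hs) hy0, mul_nonneg (sub_nonneg.2 hs) (sub_nonneg.2 hy1),
    mul_nonneg (sub_nonneg.2 hs) (sub_nonneg.2 hw1), sq_nonneg (y - w), sq_nonneg (w - 2 / 5),
    sq_nonneg (y - 4 / 5), mul_nonneg (mul_nonneg (sub_nonneg.2 hy1) hw0) hw0,
    mul_nonneg (mul_nonneg (sub_nonneg.2 hy1) hw0) hy0,
    mul_nonneg (mul_nonneg (sub_nonneg.2 hs) hw0) hw0]

theorem phi_ge (k R l y w p : ℝ) (hk : 0 ≤ k) (hl : 0 < l) (hy0 : 0 ≤ y) (hy1 : y ≤ 1)
    (hw0 : 0 ≤ w) (hp : 0 ≤ p) (hx : 0 < y + p)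
    (hE : R * w * (w * y + l) ≤ l * (k * (w * y + l) + w * (1 - y))) :
    (l ≤ w * p → R ≤ k * p + (1 - y) * p / (y + p)) ∧
      (w * p ≤ l → R * w * p ≤ l * (k * p + (1 - y) * p / (y + p))) := by
  have hm : 0 < w * y + l := by positivity
  have h1y : 0 ≤ 1 - y := by linarith
  constructor
  · intro h
    have hw : 0 < w := by
      rcases hw0.eq_or_lt with h0 | h0
      · rw [← h0] at h; linarith
      · exact h0
    have a1 : k * l / w ≤ k * p := by
      rw [div_le_iff₀ hw]; nlinarith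
    have a2 : (1 - y) * l / (w * y + l) ≤ (1 - y) * p / (y + p) := by
      rw [div_le_div_iff₀ hm hx]
      have := mul_nonneg (mul_nonneg h1y hy0) (sub_nonneg.2 h)
      nlinarith
    have a3 : R ≤ k * l / w + (1 - y) * l / (w * y + l) := by
      rw [div_add_div _ _ hw.ne' hm.ne', le_div_iff₀ (by positivity)]
      nlinarith
    linarith
  · intro h
    have a2 : (1 - y) * p * w / (w * y + l) ≤ (1 - y) * p / (y + p) := by
      rw [div_le_div_iff₀ hm hx]
      have := mul_nonneg (mul_nonneg h1y hp) (sub_nonneg.2 h)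
      nlinarith
    have a3 : R * w * p ≤ l * (k * p + (1 - y) * p * w / (w * y + l)) := by
      have e : l * (k * p + (1 - y) * p * w / (w * y + l))
          = p * (l * (k * (w * y + l) + w * (1 - y))) / (w * y + l) := by field_simp
      rw [e, le_div_iff₀ hm]
      have := mul_le_mul_of_nonneg_left hE hp
      nlinarith
    have := mul_le_mul_of_nonneg_left a2 hl.le
    nlinarith

set_option maxHeartbeats 1000000 in
theorem pent_ineq (r x y w v : ℝ) (hr : r ^ 2 = 5) (hr0 : 0 < r) (hy0 : 0 ≤ y) (hy1 : y ≤ 1)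
    (hw0 : 0 ≤ w) (hw1 : w ≤ 1) (hxy : y ≤ x) (hvw : w ≤ v) (hx : 0 < x) (hv : 0 < v)
    (hC : 2 ≤ w * (1 + x) + y * (v - w) + (y * (1 + v) + w * (x - y))) :
    y * (1 - y) / x + w * (1 - w) / v ≤ (3 * r / 5 - 1) * (1 + x + v) := by
  have r1 : 2236 / 1000 < r := by nlinarith
  have r2 : r < 22361 / 10000 := by nlinarith
  obtain ⟨p, rfl⟩ : ∃ p, x = y + p := ⟨x - y, by ring⟩
  obtain ⟨q, rfl⟩ : ∃ q, v = w + q := ⟨v - w, by ring⟩
  have hp : 0 ≤ p := by linarith
  have hq : 0 ≤ q := by linarith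
  set k := 3 * r / 5 - 1 with hk
  have hk0 : 3416 / 10000 ≤ k := by rw [hk]; linarith
  have e1 : y * (1 - y) / (y + p) = (1 - y) - (1 - y) * p / (y + p) := by field_simp; ring
  have e2 : w * (1 - w) / (w + q) = (1 - w) - (1 - w) * q / (w + q) := by field_simp; ring
  set R := 3 * r / 5 * (r - 1 - (y + w)) with hR
  have main : R ≤ (k * p + (1 - y) * p / (y + p)) + (k * q + (1 - w) * q / (w + q)) := by
    have f1 : 0 ≤ k * p + (1 - y) * p / (y + p) :=
      add_nonneg (mul_nonneg (by linarith) hp) (div_nonneg (mul_nonneg (by linarith) hp) hx.le)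
    have f2 : 0 ≤ k * q + (1 - w) * q / (w + q) :=
      add_nonneg (mul_nonneg (by linarith) hq) (div_nonneg (mul_nonneg (by linarith) hq) hv.le)
    rcases le_or_gt (r - 1) (y + w) with hs | hs
    · have : R ≤ 0 := mul_nonpos_of_nonneg_of_nonpos (by positivity) (by linarith)
      linarith
    set l := 1 - (y + w) / 2 - w * y with hl
    have hd : 0 < r - 1 - (y + w) := by linarith
    have hl1 : (r - 1 - (y + w)) * (y + w + 1 + r) / 4 ≤ l := by
      rw [hl]; nlinarith [sq_nonneg (y - w)]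
    have hl0 : 0 < l := lt_of_lt_of_le (by positivity) hl1
    have hm : 0 < 1 - (y + w) / 2 := by linarith
    have E : ∀ a b : ℝ, 0 ≤ a → a ≤ 1 → 0 ≤ b → b ≤ 1 → a + b = y + w →
        R * b * (1 - (y + w) / 2) ≤ l * (k * (1 - (y + w) / 2) + b * (1 - a)) := by
      intro a b a0 a1 b0 b1 hab
      have K := key_poly a b a0 a1 b0 b1 (by linarith)
      rw [hab] at K
      have g0 : 0 ≤ b * (1 - a) := mul_nonneg b0 (by linarith)
      have g1 : 3416 / 10000 * (1 - (y + w) / 2) + b * (1 - a)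
          ≤ k * (1 - (y + w) / 2) + b * (1 - a) := by nlinarith
      have g2 : 0 ≤ 3416 / 10000 * (1 - (y + w) / 2) + b * (1 - a) := by positivity
      have g3 : (y + w + 3236 / 1000) * (3416 / 10000 * (1 - (y + w) / 2) + b * (1 - a))
          ≤ (y + w + 1 + r) * (k * (1 - (y + w) / 2) + b * (1 - a)) :=
        mul_le_mul (by linarith) g1 g2 (by positivity)
      have g4 : 4 * (3 * r / 5) * b * (1 - (y + w) / 2) ≤ 53668 / 10000 * b * (1 - (y + w) / 2) := by
        have : 0 ≤ b * (1 - (y + w) / 2) := by positivity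
        nlinarith
      have g5 := mul_le_mul_of_nonneg_left (g4.trans (K.trans g3)) hd.le
      have g6 := mul_le_mul_of_nonneg_right hl1 (g2.trans g1)
      calc R * b * (1 - (y + w) / 2)
          = (r - 1 - (y + w)) * (4 * (3 * r / 5) * b * (1 - (y + w) / 2)) / 4 := by rw [hR]; ring
        _ ≤ (r - 1 - (y + w)) * ((y + w + 1 + r) * (k * (1 - (y + w) / 2) + b * (1 - a))) / 4 :=
          div_le_div_of_nonneg_right g5 (by norm_num)
        _ = (r - 1 - (y + w)) * (y + w + 1 + r) / 4 * (k * (1 - (y + w) / 2) + b * (1 - a)) := by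
          ring
        _ ≤ _ := g6
    have m1 : w * y + l = 1 - (y + w) / 2 := by rw [hl]; ring
    have m2 : y * w + l = 1 - (y + w) / 2 := by rw [hl]; ring
    have P1 := phi_ge k R l y w p (by linarith) hl0 hy0 hy1 hw0 hp hx
      (by rw [m1]; exact E y w hy0 hy1 hw0 hw1 rfl)
    have P2 := phi_ge k R l w y q (by linarith) hl0 hw0 hw1 hy0 hq hv
      (by rw [m2]; exact E w y hw0 hw1 hy0 hy1 (add_comm _ _))
    have hsum : l ≤ w * p + y * q := by rw [hl]; nlinarith
    have hR0 : 0 ≤ R := by rw [hR]; positivity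
    rcases le_total l (w * p) with c1 | c1
    · linarith [P1.1 c1]
    rcases le_total l (y * q) with c2 | c2
    · linarith [P2.1 c2]
    have s1 := P1.2 c1
    have s2 := P2.2 c2
    have s3 := mul_le_mul_of_nonneg_left hsum hR0
    by_contra hcon
    push Not at hcon
    have := mul_lt_mul_of_pos_left hcon hl0
    rw [mul_add] at this s3
    linarith
  rw [e1, e2]
  have : R = 2 - (y + w) - k * (1 + (y + w)) := by
    rw [hR, hk]; linear_combination (3 / 5) * hr
  have e3 : k * (1 + (y + p) + (w + q)) = k * (1 + (y + w)) + k * p + k * q := by ring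
  linarith

end Pool.Agent.MP_5c967c_co.H46
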