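import Pool.Agent.MP_5c967c_co.H46.Transfer
import Pool.Agent.MP_5c967c_co.H46.AllP
import Pool.Agent.MP_5c967c_co.H46.PentIneq

/-! Every convex polygon with at most five vertices packs at least as densely as
`(5 - √5) / 3`. -/

namespace Pool.Agent.MP_5c967c_co.H46

open Set

/-- the bound -/
noncomputable abbrev rho5 : ENNReal := ENNReal.ofReal ((5 - √5) / 3)

/-- a pentagon as a hexagon with a repeated vertex -/
def ext6 (W : ℕ → Plane) : ℕ → Plane := fun k => W (k % 5)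

theorem ext6_cvx {W : ℕ → Plane} (h : CvxN 5 W) : CvxN 6 (ext6 W) := by
  intro i j k hij hjk hk
  simp only [tW, ext6]
  rw [Nat.mod_eq_of_lt (show i < 5 by omega), Nat.mod_eq_of_lt (show j < 5 by omega)]
  rcases (show k < 5 ∨ k = 5 by omega) with h1 | rfl
  · rw [Nat.mod_eq_of_lt h1]; exact h i j k hij hjk h1
  · rcases Nat.eq_zero_or_pos i with rfl | hi
    · rw [tri_aba]
    · rw [tri_rot, tri_rot]; exact h 0 i j hi hij (by omega)

theorem ext6_Mx {W : ℕ → Plane} {i j k : ℕ} (h : Mx 5 W (i % 5) (j % 5) (k % 5)) :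
    Mx 6 (ext6 W) i j k :=
  ⟨h.1, fun _ _ _ _ _ _ => h.2 _ _ _ (Nat.mod_lt _ (by norm_num)) (Nat.mod_lt _ (by norm_num))
    (Nat.mod_lt _ (by norm_num))⟩

theorem ext6_PB {ρ : ENNReal} {W : ℕ → Plane} (h : PB ρ 6 (ext6 W)) : PB ρ 5 W := by
  have e : ext6 W '' Iio 6 = W '' Iio 5 := by
    ext x
    constructor
    · rintro ⟨k, _, rfl⟩
      exact ⟨k % 5, Nat.mod_lt _ (by norm_num), rfl⟩
    · rintro ⟨k, hk, rfl⟩
      simp only [mem_Iio] at hk
      exact ⟨k, by simp only [mem_Iio]; omega, by simp [ext6, Nat.mod_eq_of_lt hk]⟩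
  unfold PB at *
  rwa [e] at h

theorem PB_mono {ρ ρ' : ENNReal} {n : ℕ} {W : ℕ → Plane} (h : PB ρ n W) (hle : ρ' ≤ ρ) :
    PB ρ' n W := fun hne => hle.trans (h hne)

theorem rho5_le : rho5 ≤ ENNReal.ofReal (1 / (4 * (89 / (4 * 82) : ℝ))) := by
  apply ENNReal.ofReal_le_ofReal
  have : (2236 / 1000 : ℝ) < √5 := Real.lt_sqrt_of_sq_lt (by norm_num)
  norm_num
  linarith

/-- some vertex is not strictly the farthest one from the opposite side -/
def Fl (W : ℕ → Plane) : Prop :=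
  tW W 0 1 3 ≤ tW W 0 1 2 ∨ tW W 1 2 4 ≤ tW W 1 2 3 ∨ tW W 2 3 0 ≤ tW W 2 3 4 ∨
    tW W 3 4 1 ≤ tW W 3 4 0 ∨ tW W 4 0 2 ≤ tW W 4 0 1

theorem Fl_rot {W : ℕ → Plane} (h : Fl W) : Fl (rot 5 W) := by
  rcases h with h | h | h | h | h
  · exact Or.inr (Or.inr (Or.inr (Or.inr h)))
  · exact Or.inl h
  · exact Or.inr (Or.inl h)
  · exact Or.inr (Or.inr (Or.inl h))
  · exact Or.inr (Or.inr (Or.inr (Or.inl h)))

/-- the bound in the first case -/
def QF (i j k : ℕ) : Prop := ∀ W, CvxN 5 W → Mx 5 W i j k → Fl W → PB rho5 5 W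

theorem QF_rot {i j k : ℕ} (h : QF i j k) : QF ((i + 1) % 5) ((j + 1) % 5) ((k + 1) % 5) :=
  fun W hc hm hf =>
    PB_rot (h _ (rot_cvx 5 W hc) (rot_Mx 5 (by norm_num) W i j k hm) (Fl_rot hf))

theorem QF_cyc {i j k : ℕ} (h : QF i j k) : QF j k i := fun W hc hm =>
  h W hc (cyc_Mx 5 W i j k hm)

theorem caseD0 (g : ℕ) (hcl : Claim tyD (89 / (4 * 82) : ℝ) ⟨0, 0, 0, 0, 0, 0⟩
    ⟨1024, 1024, 1024, 1024, 0, 0⟩ (g :: ctxD)) (W : ℕ → Plane) (hc : CvxN 6 W) (hm : Mx 6 W 0 1 3)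
    (h5 : W 5 = W 0) (hg : 0 ≤ hypv (tW W) g) : PB rho5 6 W := by
  have hD : 0 < tri (W 0) (W 1) (W 3) := hm.1
  have p : ∀ a b c, a < b → b < c → c < 6 → 0 ≤ tri (W a) (W b) (W c) := hc
  have q : ∀ a b c, a < 6 → b < 6 → c < 6 → tri (W a) (W b) (W c) ≤ tri (W 0) (W 1) (W 3) := hm.2
  refine PB_mono (PB_of_cand hc (by norm_num) ?_ (transfer hcl W hc (W 0) (W 1) (W 3) hD _
    (inBox_of hm _ (fun i => s6 i (tri (W 0) (W 2) (W 3)) (tri (W 1) (W 2) (W 3))
      (tri (W 0) (W 1) (W 4)) (tri (W 0) (W 3) (W 4)) 0 0) ?_) ?_ ?_)) rho5_le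
  · have : SS (tW W) = tri (W 0) (W 1) (W 3) + tri (W 1) (W 2) (W 3) + tri (W 0) (W 3) (W 4)
        + tri (W 0) (W 4) (W 5) := by simp only [SS, tW, tri]; ring
    linarith [p 1 2 3 (by omega) (by omega) (by omega), p 0 3 4 (by omega) (by omega) (by omega),
      p 0 4 5 (by omega) (by omega) (by omega)]
  · intro i hi
    interval_cases i <;> first
      | exact Or.inl ⟨rfl, p _ _ _ (by omega) (by omega) (by omega),
          q _ _ _ (by omega) (by omega) (by omega)⟩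
      | exact Or.inr ⟨rfl, rfl⟩
  · intro a ha
    interval_cases a <;>
      simp only [vx, vy, rv, tyD, sel_mk, s6_0, s6_1, s6_2, s6_3, s6_4, s6_5, tW, h5] <;>
      constructor <;> norm_num only [s6_0, s6_1, s6_2, s6_3, s6_4, s6_5, if_true, if_false] <;>
      field_simp <;> (try simp only [tri]) <;> ring
  · have : ∀ h ∈ ctxD, okS 0 1 3 h := by decide
    intro h hh
    rcases List.mem_cons.1 hh with rfl | hh
    · exact hg
    · exact okS_sound hc hm (this h hh)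

theorem caseE0 (g : ℕ) (hcl : Claim tyE (89 / (4 * 82) : ℝ) ⟨0, 0, 0, 0, 0, 0⟩
    ⟨1024, 1024, 1024, 1024, 0, 0⟩ (g :: ctxE)) (W : ℕ → Plane) (hc : CvxN 6 W) (hm : Mx 6 W 0 1 2)
    (h5 : W 5 = W 0) (hg : 0 ≤ hypv (tW W) g) : PB rho5 6 W := by
  have hD : 0 < tri (W 0) (W 1) (W 2) := hm.1
  have p : ∀ a b c, a < b → b < c → c < 6 → 0 ≤ tri (W a) (W b) (W c) := hc
  have q : ∀ a b c, a < 6 → b < 6 → c < 6 → tri (W a) (W b) (W c) ≤ tri (W 0) (W 1) (W 2) := hm.2
  refine PB_mono (PB_of_cand hc (by norm_num) ?_ (transfer hcl W hc (W 0) (W 1) (W 2) hD _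
    (inBox_of hm _ (fun i => s6 i (tri (W 0) (W 1) (W 3)) (tri (W 0) (W 2) (W 3))
      (tri (W 0) (W 1) (W 4)) (tri (W 0) (W 2) (W 4)) 0 0) ?_) ?_ ?_)) rho5_le
  · unfold SS tW
    linarith [p 0 2 3 (by omega) (by omega) (by omega), p 0 3 4 (by omega) (by omega) (by omega),
      p 0 4 5 (by omega) (by omega) (by omega)]
  · intro i hi
    interval_cases i <;> first
      | exact Or.inl ⟨rfl, p _ _ _ (by omega) (by omega) (by omega),
          q _ _ _ (by omega) (by omega) (by omega)⟩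
      | exact Or.inr ⟨rfl, rfl⟩
  · intro a ha
    interval_cases a <;>
      simp only [vx, vy, rv, tyE, sel_mk, s6_0, s6_1, s6_2, s6_3, s6_4, s6_5, tW, h5] <;>
      constructor <;> norm_num only [s6_0, s6_1, s6_2, s6_3, s6_4, s6_5, if_true, if_false] <;>
      field_simp <;> (try simp only [tri]) <;> ring
  · have : ∀ h ∈ ctxE, okS 0 1 2 h := by decide
    intro h hh
    rcases List.mem_cons.1 hh with rfl | hh
    · exact hg
    · exact okS_sound hc hm (this h hh)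

theorem caseD : QF 0 1 3 := by
  intro W hc hm hf
  have h6 := ext6_cvx hc
  have hm6 : Mx 6 (ext6 W) 0 1 3 := ext6_Mx hm
  apply ext6_PB
  rcases hf with h | h | h | h | h
  · exact caseD0 _ allD0 _ h6 hm6 rfl (sub_nonneg.2 h)
  · exact caseD0 _ allD1 _ h6 hm6 rfl (sub_nonneg.2 h)
  · exact caseD0 _ allD2 _ h6 hm6 rfl (sub_nonneg.2 h)
  · exact caseD0 _ allD3 _ h6 hm6 rfl (sub_nonneg.2 h)
  · exact caseD0 _ allD4 _ h6 hm6 rfl (sub_nonneg.2 h)

theorem caseE : QF 0 1 2 := by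
  intro W hc hm hf
  have h6 := ext6_cvx hc
  have hm6 : Mx 6 (ext6 W) 0 1 2 := ext6_Mx hm
  apply ext6_PB
  rcases hf with h | h | h | h | h
  · exact caseE0 _ allE0 _ h6 hm6 rfl (sub_nonneg.2 h)
  · exact caseE0 _ allE1 _ h6 hm6 rfl (sub_nonneg.2 h)
  · exact caseE0 _ allE2 _ h6 hm6 rfl (sub_nonneg.2 h)
  · exact caseE0 _ allE3 _ h6 hm6 rfl (sub_nonneg.2 h)
  · exact caseE0 _ allE4 _ h6 hm6 rfl (sub_nonneg.2 h)

theorem caseI (W : ℕ → Plane) (hc : CvxN 5 W) (hf : Fl W) : PB rho5 5 W := by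
  intro hne
  obtain ⟨i, j, k, hij, hjk, hk, hm⟩ := exists_Mx 5 W hc hne
  have q012 := caseE
  have q123 : QF 1 2 3 := QF_rot q012
  have q234 : QF 2 3 4 := QF_rot q123
  have q340 : QF 3 4 0 := QF_rot q234
  have q401 : QF 4 0 1 := QF_rot q340
  have q013 := caseD
  have q124 : QF 1 2 4 := QF_rot q013
  have q230 : QF 2 3 0 := QF_rot q124
  have q341 : QF 3 4 1 := QF_rot q230
  have q402 : QF 4 0 2 := QF_rot q341
  have q034 := QF_cyc (QF_cyc q340)
  have q014 := QF_cyc q401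
  have q023 := QF_cyc (QF_cyc q230)
  have q134 := QF_cyc (QF_cyc q341)
  have q024 := QF_cyc q402
  have : QF i j k := by
    interval_cases k <;> interval_cases j <;> interval_cases i <;> assumption
  exact this W hc hm hf hne

set_option maxHeartbeats 1000000 in
theorem caseII0 (W : ℕ → Plane) (hc : CvxN 5 W) (hf : ¬ Fl W)
    (m1 : tW W 2 3 0 ≤ tW W 3 4 1) (m2 : tW W 2 3 0 ≤ tW W 4 0 2) (m3 : tW W 2 3 0 ≤ tW W 0 1 3)
    (m4 : tW W 2 3 0 ≤ tW W 1 2 4) : PB rho5 5 W := by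
  have p : ∀ a b c, a < b → b < c → c < 5 → 0 ≤ tri (W a) (W b) (W c) := hc
  unfold Fl at hf
  push Not at hf
  obtain ⟨f0, -, f2, -, -⟩ := hf
  simp only [tW] at f0 f2 m1 m2 m3 m4
  set D := tri (W 2) (W 3) (W 0) with hD
  set x := tri (W 0) (W 1) (W 2) with hx
  set y := tri (W 1) (W 2) (W 3) with hy
  set w := tri (W 2) (W 3) (W 4) with hw
  set v := tri (W 0) (W 3) (W 4) with hv
  have x0 : 0 ≤ x := p 0 1 2 (by omega) (by omega) (by omega)
  have y0 : 0 ≤ y := p 1 2 3 (by omega) (by omega) (by omega)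
  have w0 : 0 ≤ w := p 2 3 4 (by omega) (by omega) (by omega)
  have v0 : 0 ≤ v := p 0 3 4 (by omega) (by omega) (by omega)
  have D0 : 0 < D := lt_of_le_of_lt w0 f2
  have d2 : tri (W 4) (W 0) (W 2) = D + v - w := by simp only [hD, hv, hw, tri]; ring
  have d3 : tri (W 0) (W 1) (W 3) = D + x - y := by simp only [hD, hx, hy, tri]; ring
  have d1 : tri (W 3) (W 4) (W 1) * D = w * (D + x) + y * (v - w) := by
    simp only [hD, hx, hy, hv, hw, tri]; ring
  have d4 : tri (W 1) (W 2) (W 4) * D = y * (D + v) + w * (x - y) := by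
    simp only [hD, hx, hy, hv, hw, tri]; ring
  have c1 : D * D ≤ w * (D + x) + y * (v - w) := by
    rw [← d1]; exact mul_le_mul_of_nonneg_right m1 D0.le
  have c2 : D * D ≤ y * (D + v) + w * (x - y) := by
    rw [← d4]; exact mul_le_mul_of_nonneg_right m4 D0.le
  have hvw : w ≤ v := by linarith
  have hxy : y ≤ x := by linarith
  have hyD : y ≤ D := by linarith
  have hwD : w ≤ D := f2.le
  have v1 : 0 < v := by
    rcases v0.eq_or_lt with h | h
    · have : w = 0 := by linarith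
      rw [this, ← h] at c1
      nlinarith
    · exact h
  have x1 : 0 < x := by
    rcases x0.eq_or_lt with h | h
    · have : y = 0 := by linarith
      rw [this, ← h] at c2
      nlinarith
    · exact h
  have hr : √5 ^ 2 = 5 := Real.sq_sqrt (by norm_num)
  have hr0 : 0 < √5 := by positivity
  have key := pent_ineq √5 (x / D) (y / D) (w / D) (v / D) hr hr0 (by positivity)
    ((div_le_one D0).2 hyD) (by positivity) ((div_le_one D0).2 hwD) (by gcongr) (by gcongr)
    (by positivity) (by positivity) (by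
      have : w / D * (1 + x / D) + y / D * (v / D - w / D) + (y / D * (1 + v / D)
          + w / D * (x / D - y / D))
          = (w * (D + x) + y * (v - w) + (y * (D + v) + w * (x - y))) / (D * D) := by field_simp
      rw [this, le_div_iff₀ (by positivity)]
      linarith)
  have key2 : y * (D - y) * v + w * (D - w) * x ≤ (3 * √5 / 5 - 1) * (D + x + v) * (x * v) := by
    have e1 : y / D * (1 - y / D) / (x / D) + w / D * (1 - w / D) / (v / D)
        = (y * (D - y) * v + w * (D - w) * x) / (D * (x * v)) := by field_simp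
    have e2 : (3 * √5 / 5 - 1) * (1 + x / D + v / D)
        = (3 * √5 / 5 - 1) * (D + x + v) * (x * v) / (D * (x * v)) := by field_simp
    rw [e1, e2] at key
    exact (div_le_div_iff_of_pos_right (by positivity)).1 key
  have h6 := ext6_cvx hc
  have eS : SS (tW (ext6 W)) = D + x + v := by
    simp only [SS, tW, ext6, hD, hx, hv, tri]; norm_num; ring
  have eρ : rho5 = ENNReal.ofReal (1 / (4 * (3 * (5 + √5) / 80))) := by
    unfold rho5
    congr 1
    rw [eq_div_iff (by positivity)]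
    linear_combination (-1 / 20) * hr
  apply ext6_PB
  rw [eρ]
  refine PB_of_cand h6 (by positivity) (by rw [eS]; positivity) ?_
  have n0 : nx 0 = 1 := rfl
  have n1 : nx 1 = 2 := rfl
  have n2 : nx 2 = 3 := rfl
  have n3 : nx 3 = 4 := rfl
  have n4 : nx 4 = 5 := rfl
  have H20 : HH (tW (ext6 W)) 2 0 = D := rfl
  have aR : cA (tW (ext6 W)) 2 0 (1 / 2) 4 = (D + 2 * v - w) / 2 := by
    simp only [cA, hM, HH, n2, n4, tW, ext6, hD, hv, hw, tri]; norm_num; ring
  have bR : cB (tW (ext6 W)) 2 0 (1 / 2) 3 = v - w / 2 := by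
    simp only [cB, hM, HH, n2, n3, tW, ext6, hv, hw, tri]; norm_num; ring
  have dR : cD (tW (ext6 W)) 3 4 = v := by
    simp only [cD, HH, n3, n4, tW, ext6, hv, tri]; norm_num; ring
  have nR : cN (tW (ext6 W)) 2 0 (1 / 2) 3 4 = (D + 2 * v - w) / 2 * (w / 2 + v) := by
    rw [cN, aR]
    simp only [hM, HH, n2, n3, n4, tW, ext6, hv, hw, tri]; norm_num; ring_nf
  have aL : cA (tW (ext6 W)) 2 0 (1 / 2) 0 = (D + 2 * x - y) / 2 := by
    simp only [cA, hM, HH, n0, n2, tW, ext6, hD, hx, hy, tri]; norm_num; ring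
  have bL : cB (tW (ext6 W)) 2 0 (1 / 2) 1 = x - y / 2 := by
    simp only [cB, hM, HH, n1, n2, tW, ext6, hx, hy, tri]; norm_num; ring
  have dL : - cD (tW (ext6 W)) 1 0 = x := by
    simp only [cD, HH, n0, n1, tW, ext6, hx, tri]; norm_num; ring
  have nL : cN (tW (ext6 W)) 2 0 (1 / 2) 1 0 = (D + 2 * x - y) / 2 * (y / 2 + x) := by
    rw [cN, aL]
    simp only [hM, HH, n0, n1, n2, tW, ext6, hx, hy, tri]; norm_num; ring_nf; simp
  refine ⟨2, 0, 3, 4, 1, 0, 1 / 2, by norm_num, by norm_num, by norm_num, by norm_num, by norm_num,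
    by norm_num, by norm_num, by norm_num, ?_, by rw [H20]; exact D0, by rw [aR]; linarith,
    by rw [bR]; linarith, by rw [dR]; exact v1, by rw [aL]; linarith, by rw [bL]; linarith,
    by rw [dL]; exact x1, ?_⟩
  · intro k hk
    rw [H20]
    interval_cases k
    · exact le_rfl
    · exact (tri_rot (W 1) (W 2) (W 3)).symm.le.trans hyD
    · exact (tri_aba (W 2) (W 3)).le.trans D0.le
    · exact (tri_abb (W 2) (W 3)).le.trans D0.le
    · exact hwD
    · exact le_rfl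
  · rw [nR, nL, dL, dR, eS]
    nlinarith

theorem pentagon (V : Finset Plane) (hn : V.card ≤ 5)
    (hne : (interior (convexHull ℝ (V : Set Plane))).Nonempty) :
    ENNReal.ofReal ((5 - √5) / 3) ≤ packingDensity (convexHull ℝ (V : Set Plane)) := by
  refine final rho5 5 ?_ V hn hne
  intro i j k _ _ _ W hc _
  by_cases hf : Fl W
  · exact caseI W hc hf
  have nf : ∀ W : ℕ → Plane, ¬ Fl W → ¬ Fl (rot 5 W) := by
    intro W h h'
    apply h
    rcases h' with h | h | h | h | h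
    · exact Or.inr (Or.inl h)
    · exact Or.inr (Or.inr (Or.inl h))
    · exact Or.inr (Or.inr (Or.inr (Or.inl h)))
    · exact Or.inr (Or.inr (Or.inr (Or.inr h)))
    · exact Or.inl h
  have c1 := rot_cvx 5 _ hc
  have c2 := rot_cvx 5 _ c1
  have c3 := rot_cvx 5 _ c2
  have c4 := rot_cvx 5 _ c3
  have f1 := nf _ hf
  have f2 := nf _ f1
  have f3 := nf _ f2
  have f4 := nf _ f3
  obtain ⟨a, -, ha⟩ := (Finset.univ : Finset (Fin 5)).exists_min_image
    ![tW W 2 3 0, tW W 3 4 1, tW W 4 0 2, tW W 0 1 3, tW W 1 2 4] Finset.univ_nonempty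
  have a0 := ha 0 (Finset.mem_univ _)
  have a1 := ha 1 (Finset.mem_univ _)
  have a2 := ha 2 (Finset.mem_univ _)
  have a3 := ha 3 (Finset.mem_univ _)
  have a4 := ha 4 (Finset.mem_univ _)
  fin_cases a
  · exact caseII0 W hc hf a1 a2 a3 a4
  · exact PB_rot (caseII0 _ c1 f1 a2 a3 a4 a0)
  · exact PB_rot (PB_rot (caseII0 _ c2 f2 a3 a4 a0 a1))
  · exact PB_rot (PB_rot (PB_rot (caseII0 _ c3 f3 a4 a0 a1 a2)))
  · exact PB_rot (PB_rot (PB_rot (PB_rot (caseII0 _ c4 f4 a0 a1 a2 a3))))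

end Pool.Agent.MP_5c967c_co.H46
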