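import Mathlib

/-! Kronecker packing of Bernstein coefficients in six variables. -/

namespace Pool.Agent.MP_5c967c_co.H46

open Finset

/-- position of an exponent vector -/
def enc (a : Fin 6 → ℕ) : ℕ := ∑ i, a i * 4 ^ (i : ℕ)

/-- Bernstein-type weight -/
noncomputable def wt (τ : Fin 6 → ℝ) (d a : Fin 6 → ℕ) : ℝ :=
  ∏ i, τ i ^ a i * (1 - τ i) ^ (d i - a i)

/-- the radix -/
def XX : ℕ := 2 ^ 160

/-- the integer `N` packs coefficients of total size at most `B` whose weighted sum is `x` -/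
def Rep (τ : Fin 6 → ℝ) (d : Fin 6 → ℕ) (N : ℤ) (x : ℝ) (B : ℕ) : Prop :=
  ∃ (ι : Type) (_ : Fintype ι) (c : ι → ℤ) (a : ι → Fin 6 → ℕ), (∀ k, a k ≤ d) ∧
    N = ∑ k, c k * (XX : ℤ) ^ enc (a k) ∧ x = ∑ k, (c k : ℝ) * wt τ d (a k) ∧
    ∑ k, (c k).natAbs ≤ B

variable {τ : Fin 6 → ℝ} {d d' : Fin 6 → ℕ} {N N' : ℤ} {x x' : ℝ} {B B' : ℕ}

theorem Rep.cast (h : Rep τ d N x B) (hd : d = d') (hN : N = N') (hx : x = x') (hB : B ≤ B') :
    Rep τ d' N' x' B' := by
  subst hd hN hx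
  obtain ⟨ι, _, c, a, h1, h2, h3, h4⟩ := h
  exact ⟨ι, inferInstance, c, a, h1, h2, h3, h4.trans hB⟩

theorem Rep.zero : Rep τ d 0 0 0 :=
  ⟨Empty, inferInstance, fun k => k.elim, fun k => k.elim, fun k => k.elim, by simp, by simp,
    by simp⟩

theorem Rep.const (z : ℤ) : Rep τ 0 z z z.natAbs :=
  ⟨Unit, inferInstance, fun _ => z, fun _ => 0, fun _ => le_rfl, by simp [enc], by simp [wt],
    by simp⟩

theorem Rep.add (h : Rep τ d N x B) (h' : Rep τ d N' x' B') :
    Rep τ d (N + N') (x + x') (B + B') := by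
  obtain ⟨ι, _, c, a, h1, h2, h3, h4⟩ := h
  obtain ⟨ι', _, c', a', h1', h2', h3', h4'⟩ := h'
  refine ⟨ι ⊕ ι', inferInstance, Sum.elim c c', Sum.elim a a', ?_, ?_, ?_, ?_⟩
  · rintro (k | k)
    · exact h1 k
    · exact h1' k
  · rw [Fintype.sum_sum_type, h2, h2']; rfl
  · rw [Fintype.sum_sum_type, h3, h3']; rfl
  · rw [Fintype.sum_sum_type]; exact add_le_add h4 h4'

theorem enc_add (a a' : Fin 6 → ℕ) : enc (a + a') = enc a + enc a' := by
  simp [enc, add_mul, sum_add_distrib]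

theorem wt_add (a a' : Fin 6 → ℕ) (h : a ≤ d) (h' : a' ≤ d') :
    wt τ (d + d') (a + a') = wt τ d a * wt τ d' a' := by
  unfold wt
  rw [← prod_mul_distrib]
  refine prod_congr rfl fun i _ => ?_
  have e : (d + d') i - (a + a') i = (d i - a i) + (d' i - a' i) := by
    have h1 : a i ≤ d i := h i
    have h2 : a' i ≤ d' i := h' i
    simp only [Pi.add_apply]; omega
  rw [e, Pi.add_apply, pow_add, pow_add]; ring

theorem Rep.mul (h : Rep τ d N x B) (h' : Rep τ d' N' x' B') :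
    Rep τ (d + d') (N * N') (x * x') (B * B') := by
  obtain ⟨ι, _, c, a, h1, h2, h3, h4⟩ := h
  obtain ⟨ι', _, c', a', h1', h2', h3', h4'⟩ := h'
  refine ⟨ι × ι', inferInstance, fun k => c k.1 * c' k.2, fun k => a k.1 + a' k.2, ?_, ?_, ?_, ?_⟩
  · intro k; exact add_le_add (h1 _) (h1' _)
  · rw [Fintype.sum_prod_type, h2, h2', sum_mul_sum]
    refine sum_congr rfl fun i _ => sum_congr rfl fun j _ => ?_
    simp only [enc_add, pow_add]; ring
  · rw [Fintype.sum_prod_type, h3, h3', sum_mul_sum]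
    refine sum_congr rfl fun i _ => sum_congr rfl fun j _ => ?_
    simp only [wt_add _ _ (h1 i) (h1' j)]; push_cast; ring
  · rw [Fintype.sum_prod_type]
    simp only [Int.natAbs_mul]
    rw [← sum_mul_sum]
    exact Nat.mul_le_mul h4 h4'

theorem Rep.smul (z : ℤ) (h : Rep τ d N x B) : Rep τ d (z * N) (z * x) (z.natAbs * B) :=
  ((Rep.const z).mul h).cast (zero_add _) rfl rfl le_rfl

theorem Rep.nsmul (z : ℕ) (h : Rep τ d N x B) : Rep τ d (z * N) (z * x) (z * B) :=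
  (h.smul z).cast rfl rfl (by simp) (by simp)

theorem Rep.neg (h : Rep τ d N x B) : Rep τ d (-N) (-x) B :=
  (h.smul (-1)).cast rfl (by simp) (by simp) (by simp)

theorem Rep.sub (h : Rep τ d N x B) (h' : Rep τ d N' x' B') :
    Rep τ d (N - N') (x - x') (B + B') :=
  (h.add h'.neg).cast rfl (by ring) (by ring) le_rfl

theorem Rep.lin (i : Fin 6) (p q : ℕ) :
    Rep τ (Pi.single i 1) (p + q * (XX : ℤ) ^ 4 ^ (i : ℕ)) (p * (1 - τ i) + q * τ i) (p + q) := by
  refine ⟨Bool, inferInstance, fun b => if b then q else p,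
    fun b => if b then Pi.single i 1 else 0, ?_, ?_, ?_, ?_⟩
  · intro b; cases b <;> simp
  · have : enc (Pi.single i 1) = 4 ^ (i : ℕ) := by
      unfold enc
      rw [sum_eq_single i]
      · simp
      · intro b _ hb; simp [hb]
      · simp
    have e0 : enc 0 = 0 := by simp [enc]
    simp [this, e0]; ring
  · have e1 : wt τ (Pi.single i 1) (Pi.single i 1) = τ i := by
      unfold wt
      rw [prod_eq_single i]
      · simp
      · intro b _ hb; simp [hb]
      · simp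
    have e2 : wt τ (Pi.single i 1) 0 = 1 - τ i := by
      unfold wt
      rw [prod_eq_single i]
      · simp
      · intro b _ hb; simp [hb]
      · simp
    simp [e1, e2]; ring
  · simp; omega

theorem Rep.abs_le (h : Rep τ d N x B) (P : ℕ) (hP : ∀ a ≤ d, enc a ≤ P) :
    N ≤ B * (XX : ℤ) ^ P := by
  obtain ⟨ι, _, c, a, h1, h2, h3, h4⟩ := h
  have hX : (1 : ℤ) ≤ XX := by unfold XX; norm_num
  calc N = ∑ k, c k * (XX : ℤ) ^ enc (a k) := h2
    _ ≤ ∑ k, ((c k).natAbs : ℤ) * (XX : ℤ) ^ P := by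
        refine sum_le_sum fun k _ => ?_
        refine mul_le_mul Int.le_natAbs (pow_le_pow_right₀ hX (hP _ (h1 k))) (by positivity)
          (by positivity)
    _ = ((∑ k, (c k).natAbs : ℕ) : ℤ) * (XX : ℤ) ^ P := by rw [← sum_mul]; push_cast; rfl
    _ ≤ _ := by gcongr

/-- the mask of the top bits of `P` digits -/
def HI (P : ℕ) : ℕ := 2 ^ 159 * ((2 ^ (160 * P) - 1) / (2 ^ 160 - 1))

theorem HI_eq (P : ℕ) : HI P = ∑ i ∈ range P, 2 ^ 159 * XX ^ i := by
  rw [← mul_sum, Nat.geomSum_eq (by unfold XX; norm_num), HI, pow_mul]; rfl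

theorem HI_succ (P : ℕ) : HI (P + 1) = 2 ^ 159 + XX * HI P := by
  rw [HI_eq, HI_eq, sum_range_succ', mul_sum, add_comm]
  simp only [pow_zero, mul_one]
  congr 1
  refine sum_congr rfl fun i _ => by ring

theorem digits_nonneg (P : ℕ) : ∀ (C : ℕ → ℤ) (n : ℕ), (∀ i, |C i| < 2 ^ 159) →
    (n : ℤ) = ∑ i ∈ range P, C i * (XX : ℤ) ^ i + HI P → n &&& HI P = HI P →
    ∀ i < P, 0 ≤ C i := by
  induction P with
  | zero => intro C n _ _ _ i hi; omega
  | succ P ih =>
    intro C n hC hn hl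
    have hX : XX = 2 ^ 160 := rfl
    have h0 := abs_lt.1 (hC 0)
    rw [sum_range_succ', HI_succ] at hn
    have e : (n : ℤ) = (C 0 + 2 ^ 159) +
        XX * (∑ i ∈ range P, C (i + 1) * (XX : ℤ) ^ i + HI P) := by
      rw [hn, mul_add, mul_sum]
      push_cast
      have : ∑ i ∈ range P, C (i + 1) * (XX : ℤ) ^ (i + 1)
          = ∑ i ∈ range P, XX * (C (i + 1) * (XX : ℤ) ^ i) :=
        sum_congr rfl fun i _ => by ring
      rw [this]; ring
    set R := ∑ i ∈ range P, C (i + 1) * (XX : ℤ) ^ i + HI P with hR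
    have hXz : (XX : ℤ) = 2 ^ 160 := by rw [hX]; norm_num
    have hq : ((n / 2 ^ 160 : ℕ) : ℤ) = R := by
      rw [hXz] at e
      omega
    have hm : ((n % 2 ^ 160 : ℕ) : ℤ) = C 0 + 2 ^ 159 := by
      rw [hXz] at e
      omega
    have hH1 : HI (P + 1) / 2 ^ 160 = HI P := by rw [HI_succ, hX]; omega
    have hH2 : HI (P + 1) % 2 ^ 160 = 2 ^ 159 := by rw [HI_succ, hX]; omega
    have hl1 : (n / 2 ^ 160) &&& HI P = HI P := by
      have := congrArg (· / 2 ^ 160) hl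
      simp only [Nat.and_div_two_pow, hH1] at this
      exact this
    have hl2 : (n % 2 ^ 160) &&& 2 ^ 159 = 2 ^ 159 := by
      have := congrArg (· % 2 ^ 160) hl
      simp only [Nat.and_mod_two_pow, hH2] at this
      exact this
    have hc0 : 0 ≤ C 0 := by
      have : 2 ^ 159 ≤ n % 2 ^ 160 := by
        calc 2 ^ 159 = (n % 2 ^ 160) &&& 2 ^ 159 := hl2.symm
          _ ≤ n % 2 ^ 160 := Nat.and_le_left
      omega
    have := ih (fun i => C (i + 1)) (n / 2 ^ 160) (fun i => hC _) hq hl1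
    intro i hi
    rcases i with _ | i
    · exact hc0
    · exact this i (by omega)

theorem dec_enc (a : Fin 6 → ℕ) (h : ∀ i, a i ≤ 3) (i : Fin 6) : enc a / 4 ^ (i : ℕ) % 4 = a i := by
  have h0 := h 0; have h1 := h 1; have h2 := h 2; have h3 := h 3; have h4 := h 4; have h5 := h 5
  have e : enc a = a 0 + a 1 * 4 + a 2 * 16 + a 3 * 64 + a 4 * 256 + a 5 * 1024 := by
    simp [enc, Fin.sum_univ_six]
  rw [e]
  fin_cases i <;> simp <;> omega

theorem Rep.nonneg (h : Rep τ d N x B) (hτ : ∀ i, 0 ≤ τ i ∧ τ i ≤ 1) (hd : ∀ i, d i ≤ 3)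
    (P : ℕ) (hP : ∀ a ≤ d, enc a < P) (hB : B < 2 ^ 159) (n : ℕ) (hn : (n : ℤ) = N + HI P)
    (hl : n &&& HI P = HI P) : 0 ≤ x := by
  classical
  obtain ⟨ι, _, c, a, h1, h2, h3, h4⟩ := h
  let C : ℕ → ℤ := fun p => ∑ k with enc (a k) = p, c k
  have hmaps : ∀ k ∈ (univ : Finset ι), enc (a k) ∈ range P := fun k _ =>
    mem_range.2 (hP _ (h1 k))
  have hC : ∀ i, |C i| < 2 ^ 159 := by
    intro i
    calc |C i| ≤ ∑ k with enc (a k) = i, |c k| := abs_sum_le_sum_abs _ _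
      _ ≤ ∑ k, |c k| := sum_le_sum_of_subset_of_nonneg (filter_subset _ _)
          fun _ _ _ => abs_nonneg _
      _ = ((∑ k, (c k).natAbs : ℕ) : ℤ) := by push_cast; rfl
      _ ≤ B := by exact_mod_cast h4
      _ < 2 ^ 159 := by exact_mod_cast hB
  have hN : N = ∑ i ∈ range P, C i * (XX : ℤ) ^ i := by
    rw [h2, ← sum_fiberwise_of_maps_to hmaps]
    refine sum_congr rfl fun i _ => ?_
    simp only [C]
    rw [sum_mul]
    refine sum_congr rfl fun k hk => ?_
    rw [(mem_filter.1 hk).2]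
  have hpos := digits_nonneg P C n hC (by rw [hn, hN]) hl
  rw [h3, ← sum_fiberwise_of_maps_to hmaps]
  refine sum_nonneg fun i hi => ?_
  have : ∑ k with enc (a k) = i, (c k : ℝ) * wt τ d (a k)
      = (C i : ℝ) * wt τ d (fun j => i / 4 ^ (j : ℕ) % 4) := by
    simp only [C]
    push_cast
    rw [sum_mul]
    refine sum_congr rfl fun k hk => ?_
    congr 2
    funext j
    rw [← (mem_filter.1 hk).2, dec_enc _ fun i => (h1 k i).trans (hd i)]
  rw [this]
  refine mul_nonneg (by exact_mod_cast hpos i (mem_range.1 hi)) ?_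
  exact prod_nonneg fun j _ => mul_nonneg (pow_nonneg (hτ j).1 _)
    (pow_nonneg (sub_nonneg.2 (hτ j).2) _)

theorem enc_le (m : ℕ) (a : Fin 6 → ℕ) (h : a ≤ fun _ => m) : enc a ≤ 1365 * m := by
  have h0 := h 0; have h1 := h 1; have h2 := h 2; have h3 := h 3; have h4 := h 4; have h5 := h 5
  have e : enc a = a 0 + a 1 * 4 + a 2 * 16 + a 3 * 64 + a 4 * 256 + a 5 * 1024 := by
    simp [enc, Fin.sum_univ_six]
  simp only at h0 h1 h2 h3 h4 h5
  omega

end Pool.Agent.MP_5c967c_co.H46
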