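import Pool.Agent.MP_5c967c_co.H46.Chk
import Pool.Agent.MP_5c967c_co.H46.Rep
import Pool.Agent.MP_5c967c_co.H46.Geo

/-! Soundness of the checker: the loops. -/

namespace Pool.Agent.MP_5c967c_co.H46

theorem frc_eq (n : ℕ) (k : ℕ → Bool) : frc n k = k n := by cases n <;> rfl

theorem frcI_eq (z : ℤ) (k : ℤ → Bool) : frcI z k = k z := by
  cases z with
  | ofNat n => exact frc_eq n fun m => k (Int.ofNat m)
  | negSucc n => exact frc_eq n fun m => k (Int.negSucc m)

theorem band_eq (a b : Bool) : band a b = true ↔ a = true ∧ b = true := by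
  cases a <;> simp [band]

theorem dif_eq (P Q : ℕ) (k : ℤ → Bool) : dif P Q k = k ((P : ℤ) - Q) := by
  unfold dif
  by_cases h : Q ≤ P
  · have : Nat.ble Q P = true := Nat.ble_eq_true_of_le h
    rw [this]
    simp only [frc_eq]
    congr 1
    simp only [Nat.sub_eq, Int.ofNat_eq_natCast]
    omega
  · have : Nat.ble Q P = false := by
      rw [← Bool.not_eq_true, Nat.ble_eq]; exact h
    rw [this]
    obtain ⟨m, hm⟩ : ∃ m, Nat.sub Q P = m + 1 := ⟨Q - P - 1, by simp only [Nat.sub_eq]; omega⟩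
    rw [hm]
    show k (Int.negSucc m) = _
    congr 1
    simp only [Nat.sub_eq] at hm
    omega

theorem frcV_eq (r : V6) (k : V6 → Bool) : frcV r k = k r := by cases r; rfl

theorem lget_mem (l : List ℕ) (n : ℕ) : lget l n ∈ l ∨ lget l n = 0 := by
  induction l generalizing n with
  | nil => right; rfl
  | cons a l ih =>
    cases n with
    | zero => left; exact List.mem_cons_self
    | succ m =>
      rcases ih m with h | h
      · left; exact List.mem_cons_of_mem _ h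
      · right; exact h

theorem tv3_eq (t : T6) (h : ℕ) (k : ℕ → Bool) :
    tv3 t h k = k (tv t (h % 6) (h / 6 % 6) (h / 36 % 6)) := by
  simp only [tv3, frc_eq]; rfl

/-- value of a coded triple -/
def trv (T : ℕ → ℕ → ℕ → ℝ) (h : ℕ) : ℝ := T (h % 6) (h / 6 % 6) (h / 36 % 6)

/-- value of a coded hypothesis -/
def hypv (T : ℕ → ℕ → ℕ → ℝ) (h : ℕ) : ℝ := trv T h - trv T (h / 216)

/-- size bound of a triangle value -/
def BT : ℕ := 3623878656

/-- constant degree vector -/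
abbrev dg (m : ℕ) : Fin 6 → ℕ := fun _ => m

/-- the invariants of a leaf -/
structure Inv (τ : Fin 6 → ℝ) (t : T6) (ctx : List ℕ) (z : ℕ) (T : ℕ → ℕ → ℕ → ℝ) : Prop where
  hτ : ∀ i, 0 ≤ τ i ∧ τ i ≤ 1
  hT : ∀ a b c, a < 6 → b < 6 → c < 6 → Rep τ (dg 1) ((tv t a b c : ℤ) - z) (T a b c) BT
  hctx : ∀ h ∈ ctx, 0 ≤ hypv T h

theorem HI_pos (P : ℕ) : 0 < HI (P + 1) := by rw [HI_succ]; positivity

variable {τ : Fin 6 → ℝ} {t : T6} {ctx : List ℕ} {z : ℕ} {T : ℕ → ℕ → ℕ → ℝ}

theorem test1_sound (hτ : ∀ i, 0 ≤ τ i ∧ τ i ≤ 1) {P Q B : ℕ} {x : ℝ}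
    (h : test1 (HI 1366) P Q = true) (hr : Rep τ (dg 1) ((P : ℤ) - Q) x B) (hB : B < 2 ^ 159) :
    0 ≤ x := by
  have hp := HI_pos 1365
  generalize hH : HI 1366 = H at h hp
  unfold test1 at h
  have h' : (P + H - Q) &&& H = H := Nat.eq_of_beq_eq_true h
  by_cases hq : Q ≤ P + H
  · refine hr.nonneg hτ (fun _ => by norm_num) 1366
      (fun a ha => by have := enc_le 1 a ha; omega) hB (P + H - Q) ?_ (by rw [hH]; exact h')
    rw [hH]; push_cast [hq]; ring
  · have : P + H - Q = 0 := by omega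
    rw [this, Nat.zero_and] at h'
    omega

theorem testI_sound (hτ : ∀ i, 0 ≤ τ i ∧ τ i ≤ 1) {N : ℤ} {B : ℕ} {x : ℝ}
    (h : testI (HI 4096) N = true) (hr : Rep τ (dg 3) N x B) (hB : B < 2 ^ 159) : 0 ≤ x := by
  have hp := HI_pos 4095
  generalize hH : HI 4096 = H at h hp
  unfold testI at h
  have h' : (N + (H : ℤ)).toNat &&& H = H := Nat.eq_of_beq_eq_true h
  by_cases hq : 0 ≤ N + (H : ℤ)
  · refine hr.nonneg hτ (fun _ => by norm_num) 4096
      (fun a ha => by have := enc_le 3 a ha; omega) hB _ ?_ (by rw [hH]; exact h')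
    rw [hH, Int.toNat_of_nonneg hq]
  · have : (N + (H : ℤ)).toNat = 0 := by omega
    rw [this, Nat.zero_and] at h'
    omega

theorem Inv.trv (I : Inv τ t ctx z T) (h : ℕ) :
    Rep τ (dg 1) ((tv t (h % 6) (h / 6 % 6) (h / 36 % 6) : ℤ) - z) (trv T h) BT :=
  I.hT _ _ _ (Nat.mod_lt _ (by norm_num)) (Nat.mod_lt _ (by norm_num))
    (Nat.mod_lt _ (by norm_num))

theorem hl_succ (c n P Q : ℕ) (k : ℕ → ℕ → ℕ → Bool) : hl t ctx (c + 1) n P Q k =
    frc (Nat.shiftLeft (Nat.mod n 16777216) (Nat.mod (Nat.div n 16777216) 64)) fun b =>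
      frc (lget ctx (Nat.mod (Nat.div n 1073741824) 64)) fun h =>
      tv3 t (Nat.div h 216) fun p => tv3 t h fun q =>
      frc (Nat.add P (Nat.mul b p)) fun P' => frc (Nat.add Q (Nat.mul b q)) fun Q' =>
      frc (Nat.div n 68719476736) fun n' => hl t ctx c n' P' Q' k := rfl

theorem dg11 : dg 1 + dg 1 = dg 2 := by ext; rfl

theorem dg12 : dg 1 + dg 2 = dg 3 := by ext; rfl

theorem hl_sound (I : Inv τ t ctx z T) (k : ℕ → ℕ → ℕ → Bool) (cnt : ℕ) :
    ∀ (n P Q B : ℕ) (x : ℝ), hl t ctx cnt n P Q k = true → Rep τ (dg 1) ((P : ℤ) - Q) x B →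
    ∃ n' P' Q' x', k n' P' Q' = true ∧ x' ≤ x ∧
      Rep τ (dg 1) ((P' : ℤ) - Q') x' (B + cnt * (2 ^ 88 * (2 * BT))) := by
  induction cnt with
  | zero => intro n P Q B x h hr; exact ⟨n, P, Q, x, h, le_rfl, by simpa using hr⟩
  | succ c ih =>
    intro n P Q B x h hr
    have h' : hl t ctx c (n / 68719476736)
        (P + (n % 16777216) <<< (n / 16777216 % 64) *
          tv t (lget ctx (n / 1073741824 % 64) / 216 % 6) (lget ctx (n / 1073741824 % 64) / 216 / 6 % 6)
            (lget ctx (n / 1073741824 % 64) / 216 / 36 % 6))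
        (Q + (n % 16777216) <<< (n / 16777216 % 64) *
          tv t (lget ctx (n / 1073741824 % 64) % 6) (lget ctx (n / 1073741824 % 64) / 6 % 6)
            (lget ctx (n / 1073741824 % 64) / 36 % 6)) k = true := by
      rw [hl_succ] at h
      simp only [frc_eq, tv3_eq] at h
      exact h
    generalize hb : (n % 16777216) <<< (n / 16777216 % 64) = b at h'
    have hb' : b ≤ 2 ^ 88 := by
      rw [← hb, Nat.shiftLeft_eq]
      calc n % 16777216 * 2 ^ (n / 16777216 % 64) ≤ 2 ^ 24 * 2 ^ 64 :=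
            Nat.mul_le_mul (by omega) (Nat.pow_le_pow_right (by norm_num) (by omega))
        _ = 2 ^ 88 := by norm_num
    have hm := lget_mem ctx (n / 1073741824 % 64)
    generalize lget ctx (n / 1073741824 % 64) = g at h' hm
    have hg : 0 ≤ hypv T g := by
      rcases hm with hm | rfl
      · exact I.hctx _ hm
      · simp [hypv]
    have r := hr.add (((I.trv (g / 216)).sub (I.trv g)).nsmul b)
    obtain ⟨n', P', Q', x', h1, h2, h3⟩ := ih _ _ _ (B + 2 ^ 88 * (2 * BT)) _ h'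
      (r.cast rfl (by push_cast; ring) rfl (by
        have := Nat.mul_le_mul_right (BT + BT) hb'
        omega))
    refine ⟨n', P', Q', x', h1, h2.trans ?_, h3.cast rfl rfl rfl (by ring_nf; rfl)⟩
    unfold hypv at hg
    have : (0 : ℝ) ≤ b := Nat.cast_nonneg b
    nlinarith

theorem chk_sound (I : Inv τ t ctx z T) {P Q n B : ℕ} {x : ℝ} {k : ℕ → Bool}
    (h : chk t ctx (HI 1366) P Q n k = true) (hr : Rep τ (dg 1) ((P : ℤ) - Q) x B)
    (hB : B ≤ 2 ^ 40) : 0 ≤ x ∧ ∃ n', k n' = true := by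
  unfold chk at h
  rw [frc_eq] at h
  have hc : Nat.mod n 4 < 4 := Nat.mod_lt _ (by norm_num)
  generalize Nat.mod n 4 = c at h hc
  cases c with
  | zero =>
    have h' : band (test1 (HI 1366) P Q) (frc (Nat.div n 4) k) = true := h
    rw [band_eq, frc_eq] at h'
    exact ⟨test1_sound I.hτ h'.1 hr (by omega), _, h'.2⟩
  | succ c =>
    have ha : Nat.mod (Nat.div n 4) 65536 < 65536 := Nat.mod_lt _ (by norm_num)
    simp only [frc_eq] at h
    generalize Nat.mod (Nat.div n 4) 65536 = a at h ha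
    obtain ⟨n', P', Q', x', h1, h2, h3⟩ := hl_sound I _ _ _ _ _ ((a + 1) * B) _ h
      ((hr.nsmul (a + 1)).cast rfl (by simp only [Nat.mul_eq, Nat.succ_eq_add_one]; push_cast; ring)
        rfl le_rfl)
    rw [band_eq] at h1
    have hx := test1_sound I.hτ h1.1 h3 (by
      have b1 : (a + 1) * B ≤ 65536 * 2 ^ 40 := Nat.mul_le_mul (by omega) hB
      have b2 : (c + 1) * (2 ^ 88 * (2 * BT)) ≤ 4 * (2 ^ 88 * (2 * BT)) :=
        Nat.mul_le_mul_right _ (by omega)
      unfold BT at *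
      omega)
    refine ⟨?_, _, h1.2⟩
    have : (0 : ℝ) < ((a + 1 : ℕ) : ℝ) := by positivity
    by_contra hneg
    push Not at hneg
    nlinarith

theorem side_sound (I : Inv τ t ctx z T) {den j i s f e a b n : ℕ} {k : ℕ → ℤ → ℤ → Bool}
    (hj : j < 6) (hi : i < 6) (hf : f < 6) (he : e < 6) (ha : a < 6) (hb : b < 6) (hs : s ≤ 16)
    (h : side t ctx (HI 1366) z (32 * z) den j (nx j) i s (16 - s) f e (nx e) a b n k = true) :
    ∃ n' N D, k n' N D = true ∧ 0 ≤ cA T j i (s / 16) e ∧ 0 ≤ cB T j i (s / 16) f ∧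
      0 ≤ HH T f a - HH T f b ∧
      Rep τ (dg 2) N (den * 256 * cN T j i (s / 16) f e) (den * 2048 * BT ^ 2) ∧
      Rep τ (dg 1) D (HH T f a - HH T f b) (2 * BT) := by
  unfold side at h
  simp only [frc_eq, frcI_eq, dif_eq, Nat.add_eq, Nat.mul_eq] at h
  have e1 : Nat.mod (Nat.succ f) 6 = nx f := rfl
  rw [e1] at h
  have R : ∀ u w, u < 6 → w < 6 → Rep τ (dg 1) ((tv t u (nx u) w : ℤ) - z) (HH T u w) BT :=
    fun u w hu hw => I.hT _ _ _ hu (nx_lt u) hw
  have hs' : ((16 - s : ℕ) : ℤ) = 16 - s := by push_cast [hs]; ring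
  have hs'' : ((16 - s : ℕ) : ℝ) = 16 - s := by push_cast [hs]; ring
  have RM : ∀ u, u < 6 → Rep τ (dg 1)
      (((16 - s) * tv t u (nx u) j + s * tv t u (nx u) (nx j) : ℕ) - 16 * (z : ℤ))
      (16 * hM T u j (s / 16)) (16 * BT) := by
    intro u hu
    refine (((R u j hu hj).nsmul (16 - s)).add ((R u _ hu (nx_lt j)).nsmul s)).cast rfl ?_ ?_ ?_
    · rw [Nat.cast_add, Nat.cast_mul, Nat.cast_mul, hs']; ring
    · rw [hs'']; unfold hM; ring
    · rw [← add_mul]; exact Nat.mul_le_mul_right _ (by omega)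
  have RA := ((RM e he).sub ((R e i he hi).nsmul 16)).cast (B' := 32 * BT) rfl
    (N' := (((16 - s) * tv t e (nx e) j + s * tv t e (nx e) (nx j) : ℕ) : ℤ)
      - ((16 * tv t e (nx e) i : ℕ) : ℤ)) (by push_cast; ring)
    (x' := 16 * cA T j i (s / 16) e) (by unfold cA; push_cast; ring) (by omega)
  have RB := (((R f i hf hi).nsmul 16).sub (RM f hf)).cast (B' := 32 * BT) rfl
    (N' := ((16 * tv t f (nx f) i : ℕ) : ℤ)
      - (((16 - s) * tv t f (nx f) j + s * tv t f (nx f) (nx j) : ℕ) : ℤ)) (by push_cast; ring)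
    (x' := 16 * cB T j i (s / 16) f) (by unfold cB; push_cast; ring) (by omega)
  have RQ := ((RM f hf).add ((R f i hf hi).nsmul 16)).cast (B' := 32 * BT) rfl
    (N' := (((16 - s) * tv t f (nx f) j + s * tv t f (nx f) (nx j) + 16 * tv t f (nx f) i : ℕ) : ℤ)
      - ((32 * z : ℕ) : ℤ)) (by push_cast; ring)
    (x' := 16 * (hM T f j (s / 16) + HH T f i)) (by push_cast; ring) (by omega)
  have RD := ((R f a hf ha).sub (R f b hf hb)).cast (B' := 2 * BT) rfl
    (N' := (tv t f (nx f) a : ℤ) - tv t f (nx f) b) (by ring) rfl (by omega)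
  obtain ⟨hA, n1, h⟩ := chk_sound I h RA (by unfold BT; norm_num)
  obtain ⟨hB, n2, h⟩ := chk_sound I h RB (by unfold BT; norm_num)
  obtain ⟨hD, n3, h⟩ := chk_sound I h RD (by unfold BT; norm_num)
  refine ⟨_, _, _, h, by linarith, by linarith, hD, ?_, RD⟩
  refine (((RA.nsmul den).mul RQ).add ((RB.nsmul (32 * den)).mul (R e i he hi))).cast
    dg11 ?_ ?_ ?_
  · rfl
  · unfold cN; push_cast; ring
  · ring_nf; omega

/-- size bound of a candidate polynomial -/
def BG : ℕ := 2 ^ 122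

theorem cl_succ (h1 h3 z zo z32 den : ℕ) (sn : ℤ) (m n : ℕ) (acc : ℤ) :
    cl t ctx h1 h3 z zo z32 den sn (m + 1) n acc =
      frc (Nat.mod n 6) fun j => frc (Nat.mod (Nat.div n 6) 6) fun i =>
      frc (Nat.mod (Nat.div n 36) 6) fun f => frc (Nat.mod (Nat.div n 216) 6) fun e =>
      frc (Nat.mod (Nat.div n 1296) 6) fun f' => frc (Nat.mod (Nat.div n 7776) 6) fun e' =>
      frc (Nat.mod (Nat.div n 46656) 17) fun s =>
      frc (Nat.mod (Nat.div n 793152) 16777216) fun mu =>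
      frc (Nat.div n 13306882424832) fun n0 =>
      frc (Nat.mod (Nat.succ j) 6) fun j1 => frc (Nat.sub 16 s) fun s' =>
      frc (Nat.mod (Nat.succ e) 6) fun e1 => frc (Nat.mod (Nat.succ e') 6) fun e1' =>
      frc (tv t j j1 i) fun hji =>
      chk t ctx h1 hji (tv t j j1 (nat_lit 0)) n0 fun n1 =>
      chk t ctx h1 hji (tv t j j1 (nat_lit 1)) n1 fun n2 =>
      chk t ctx h1 hji (tv t j j1 (nat_lit 2)) n2 fun n3 =>
      chk t ctx h1 hji (tv t j j1 (nat_lit 3)) n3 fun n4 =>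
      chk t ctx h1 hji (tv t j j1 (nat_lit 4)) n4 fun n5 =>
      chk t ctx h1 hji (tv t j j1 (nat_lit 5)) n5 fun n6 =>
      chk t ctx h1 hji zo n6 fun n7 =>
      side t ctx h1 z z32 den j j1 i s s' f e e1 e1 e n7 fun n8 NR DR =>
      side t ctx h1 z z32 den j j1 i s s' f' e' e1' e' e1' n8 fun n9 NL DL =>
      frcI (Int.mul (Int.mul (Int.negOfNat mu) DL) NR) fun g1 =>
      frcI (Int.mul sn DL) fun sd => frcI (Int.add NL sd) fun r =>
      frcI (Int.mul (Int.mul (Int.negOfNat mu) DR) r) fun g2 =>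
      frcI (Int.add acc g1) fun a1 => frcI (Int.add a1 g2) fun a2 =>
      cl t ctx h1 h3 z zo z32 den sn m n9 a2 := rfl

theorem cl_sound (I : Inv τ t ctx z T) {zo num den : ℕ} {sn : ℤ} {c : ℝ}
    (hzo : Rep τ (dg 1) ((zo : ℤ) - z) 1 64)
    (hsn : Rep τ (dg 1) sn (- (256 * num * SS T)) (256 * num * (4 * BT)))
    (hnum : num ≤ 4096) (hden : den ≤ 4096) (hden0 : 0 < den) (hc : 4 * c * den = num)
    (hH : ∀ j < 6, ∀ k < 6, 0 ≤ HH T j k) (hno : ¬ Cand T c) (cnt : ℕ) :
    ∀ (n : ℕ) (acc : ℤ) (B : ℕ) (x : ℝ),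
      cl t ctx (HI 1366) (HI 4096) z zo (32 * z) den sn cnt n acc = true →
      Rep τ (dg 3) acc x B → B + cnt * (2 ^ 24 * BG) < 2 ^ 159 → 0 ≤ x := by
  induction cnt with
  | zero => intro n acc B x h hr hB; exact testI_sound I.hτ h hr (by omega)
  | succ m ih =>
    intro n acc B x h hr hB
    rw [cl_succ] at h
    simp only [frc_eq, frcI_eq] at h
    have lt6 : ∀ u : ℕ, Nat.mod u 6 < 6 := fun u => Nat.mod_lt _ (by norm_num)
    have hj := lt6 n
    have hi := lt6 (Nat.div n 6)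
    have hf := lt6 (Nat.div n 36)
    have he := lt6 (Nat.div n 216)
    have hf' := lt6 (Nat.div n 1296)
    have he' := lt6 (Nat.div n 7776)
    have hs : Nat.mod (Nat.div n 46656) 17 ≤ 16 := Nat.le_of_lt_succ (Nat.mod_lt _ (by norm_num))
    have hmu : Nat.mod (Nat.div n 793152) 16777216 ≤ 2 ^ 24 := (Nat.mod_lt _ (by norm_num)).le
    generalize Nat.mod n 6 = j at h hj
    generalize Nat.mod (Nat.div n 6) 6 = i at h hi
    generalize Nat.mod (Nat.div n 36) 6 = f at h hf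
    generalize Nat.mod (Nat.div n 216) 6 = e at h he
    generalize Nat.mod (Nat.div n 1296) 6 = f' at h hf'
    generalize Nat.mod (Nat.div n 7776) 6 = e' at h he'
    generalize Nat.mod (Nat.div n 46656) 17 = s at h hs
    generalize Nat.mod (Nat.div n 793152) 16777216 = mu at h hmu
    have e1 : ∀ u, Nat.mod (Nat.succ u) 6 = nx u := fun _ => rfl
    simp only [e1] at h
    have R : ∀ w, w < 6 → Rep τ (dg 1) ((tv t j (nx j) i : ℤ) - tv t j (nx j) w)
        (HH T j i - HH T j w) (2 * BT) := fun w hw =>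
      ((I.hT _ _ _ hj (nx_lt j) hi).sub (I.hT _ _ _ hj (nx_lt j) hw)).cast rfl (by ring) rfl
        (by omega)
    have b2 : 2 * BT ≤ 2 ^ 40 := by unfold BT; norm_num
    obtain ⟨s0, n1, h⟩ := chk_sound I h (R 0 (by norm_num)) b2
    obtain ⟨s1, n2, h⟩ := chk_sound I h (R 1 (by norm_num)) b2
    obtain ⟨s2, n3, h⟩ := chk_sound I h (R 2 (by norm_num)) b2
    obtain ⟨s3, n4, h⟩ := chk_sound I h (R 3 (by norm_num)) b2
    obtain ⟨s4, n5, h⟩ := chk_sound I h (R 4 (by norm_num)) b2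
    obtain ⟨s5, n6, h⟩ := chk_sound I h (R 5 (by norm_num)) b2
    obtain ⟨sp, n7, h⟩ := chk_sound I h
      (((I.hT _ _ _ hj (nx_lt j) hi).sub hzo).cast (N' := (tv t j (nx j) i : ℤ) - zo) rfl (by ring)
        rfl le_rfl) (by unfold BT; norm_num)
    obtain ⟨n8, NR, DR, h, a1, b1, d1, rN1, rD1⟩ := side_sound I hj hi hf he (nx_lt e) he hs h
    obtain ⟨n9, NL, DL, h, a2, b2', d2, rN2, rD2⟩ := side_sound I hj hi hf' he' he' (nx_lt e') hs h
    have hneg : Int.negOfNat mu = - (mu : ℤ) := Int.negOfNat_eq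
    have r := (hr.add ((((rD2.nsmul mu).neg).mul rN1).cast dg12 rfl rfl le_rfl)).add
      ((((rD1.nsmul mu).neg).mul (rN2.add ((hsn.mul rD2).cast dg11 rfl rfl le_rfl))).cast
        dg12 rfl rfl le_rfl)
    have hx := ih _ _ (B + 2 ^ 24 * BG) _ h (r.cast rfl (by
      rw [hneg]
      show _ = acc + (-(mu : ℤ) * DL) * NR + (-(mu : ℤ) * DR) * (NL + sn * DL)
      ring) rfl (by
        have q1 : den * 2048 * BT ^ 2 ≤ 4096 * 2048 * BT ^ 2 := by gcongr
        have q2 : 256 * num * (4 * BT) * (2 * BT) ≤ 256 * 4096 * (4 * BT) * (2 * BT) := by gcongr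
        have q3 : mu * (2 * BT) ≤ 2 ^ 24 * (2 * BT) := by gcongr
        have q4 := Nat.mul_le_mul q3 q1
        have q5 := Nat.mul_le_mul q3 (Nat.add_le_add q1 q2)
        have q6 : 2 ^ 24 * (2 * BT) * (4096 * 2048 * BT ^ 2) + 2 ^ 24 * (2 * BT) *
          (4096 * 2048 * BT ^ 2 + 256 * 4096 * (4 * BT) * (2 * BT)) ≤ 2 ^ 24 * BG := by
          unfold BT BG; norm_num
        omega)) (by rw [Nat.succ_mul] at hB; omega)
    have σ0 : (0 : ℝ) ≤ s / 16 := by positivity
    have σ1 : (s : ℝ) / 16 ≤ 1 := by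
      have : (s : ℝ) ≤ 16 := by exact_mod_cast hs
      linarith
    have hN : ∀ u w, u < 6 → w < 6 → 0 ≤ cA T j i (s / 16) w → 0 ≤ cB T j i (s / 16) u →
        0 ≤ cN T j i (s / 16) u w := by
      intro u w hu hw p q
      have m0 : 0 ≤ hM T u j (s / 16) :=
        add_nonneg (mul_nonneg (by linarith) (hH u hu j hj)) (mul_nonneg σ0 (hH u hu _ (nx_lt j)))
      have := hH u hu i hi
      have := hH w hw i hi
      unfold cN; positivity
    have n1' := hN f e hf he a1 b1
    have n2' := hN f' e' hf' he' a2 b2'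
    have dd1 : HH T f (nx e) - HH T f e = cD T f e := rfl
    have dd2 : HH T f' e' - HH T f' (nx e') = - cD T f' e' := by unfold cD; ring
    rw [dd1] at d1 hx
    rw [dd2] at d2 hx
    have dpos : (0 : ℝ) < den := by exact_mod_cast hden0
    have key : 0 ≤ den * (cN T j i (s / 16) f e * (- cD T f' e') + cN T j i (s / 16) f' e' * cD T f e)
        - num * SS T * cD T f e * (- cD T f' e') := by
      by_contra hcon
      push Not at hcon
      apply hno
      have p0 : 0 ≤ den * (cN T j i (s / 16) f e * (- cD T f' e')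
          + cN T j i (s / 16) f' e' * cD T f e) := by positivity
      have p1 : 0 < cD T f e := by
        rcases d1.eq_or_lt with h0 | h0
        · rw [← h0] at hcon p0; simp at hcon p0; linarith
        · exact h0
      have p2 : 0 < - cD T f' e' := by
        rcases d2.eq_or_lt with h0 | h0
        · rw [← h0] at hcon p0; simp at hcon p0; linarith
        · exact h0
      refine ⟨j, i, f, e, f', e', s / 16, hj, hi, hf, he, hf', he', σ0, σ1, ?_, by
        unfold HH; linarith, a1, b1, p1, a2, b2', p2, ?_⟩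
      · intro k hk
        interval_cases k <;> linarith
      · rw [← hc] at hcon
        by_contra hc2
        push Not at hc2
        have := mul_lt_mul_of_pos_left hc2 dpos
        nlinarith
    have : (0 : ℝ) ≤ mu := Nat.cast_nonneg mu
    nlinarith [mul_nonneg this key]

end Pool.Agent.MP_5c967c_co.H46
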