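import Pool.Agent.MP_5c967c_co.H46.Sound1

/-! Soundness of the checker: tables, leaves and trees. -/

namespace Pool.Agent.MP_5c967c_co.H46

/-- row of a function -/
def rowOf (f : ℕ → ℕ) : V6 := ⟨f 0, f 1, f 2, f 3, f 4, f 5⟩

/-- table of a function -/
def tabOf (f : ℕ → ℕ → ℕ) : T6 :=
  ⟨rowOf (f 0), rowOf (f 1), rowOf (f 2), rowOf (f 3), rowOf (f 4), rowOf (f 5)⟩

theorem mkRow_eq (f : ℕ → ℕ) (k : V6 → Bool) : mkRow f k = k (rowOf f) := by
  simp only [mkRow, frc_eq]; rfl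

theorem mkTab_eq (f : ℕ → ℕ → ℕ) (k : T6 → Bool) : mkTab f k = k (tabOf f) := by
  simp only [mkTab, mkRow_eq]; rfl

theorem sel_rowOf (f : ℕ → ℕ) (a : ℕ) (ha : a < 6) : sel a (rowOf f) = f a := by
  interval_cases a <;> rfl

theorem get_tabOf (f : ℕ → ℕ → ℕ) (a b : ℕ) (ha : a < 6) (hb : b < 6) :
    get (tabOf f) a b = f a b := by
  rw [← sel_rowOf (f a) b hb]
  interval_cases a <;> rfl

theorem sel_upd (v m : ℕ) (r : V6) (a : ℕ) (ha : a < 6) :
    sel a (upd v m r) = if a = min v 5 then m else sel a r := by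
  cases r
  rcases v with _ | _ | _ | _ | _ | v
  all_goals (first | (have : min (v + 1 + 1 + 1 + 1 + 1) 5 = 5 := by omega); rw [this] | skip)
  all_goals (interval_cases a <;> rfl)

/-- the values of one slot -/
def valsOf (lb hb la ha wi wj : ℕ) : V6 :=
  ⟨1024, 2048, ((2048 - lb) + (2048 - hb) * wi) * (wj + 1) + (wi + 1) * (la + ha * wj),
    (wi + 1) * ((1024 - la) + (1024 - ha) * wj), ((1024 + lb) + (1024 + hb) * wi) * (wj + 1),
    ((1024 + lb) + (1024 + hb) * wi) * (wj + 1)⟩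

theorem mkVals_eq (lb hb la ha wi wj : ℕ) (k : V6 → Bool) :
    mkVals lb hb la ha wi wj k = k (valsOf lb hb la ha wi wj) := by
  simp only [mkVals, frc_eq]; rfl

/-- real coordinate values -/
noncomputable def rv (v : ℕ → ℝ) (s k : ℕ) : ℝ :=
  if k = 0 then 1024 else if k = 1 then 2048 else if k = 2 then 2048 - v (2 * s) + v (2 * s + 1)
  else if k = 3 then 1024 - v (2 * s + 1) else 1024 + v (2 * s)

/-- degree vector of a coordinate value -/
def dv (s k : ℕ) : Fin 6 → ℕ := fun i => if 2 ≤ k ∧ (i : ℕ) / 2 = s then 1 else 0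

/-- size bound of a coordinate value -/
def bv (k : ℕ) : ℕ := if 2 ≤ k then 12288 else 2048

variable {τ : Fin 6 → ℝ}

theorem rep_one (i : Fin 6) : Rep τ (Pi.single i 1) ((XX ^ 4 ^ (i : ℕ) + 1 : ℕ) : ℤ) 1 2 :=
  (Rep.lin i 1 1).cast rfl (by push_cast; ring) (by push_cast; ring) le_rfl

theorem vals_rep (v : ℕ → ℝ) (s : ℕ) (ib ia : Fin 6) (hib : (ib : ℕ) = 2 * s)
    (hia : (ia : ℕ) = 2 * s + 1) (lb hb la ha : ℕ) (h1 : lb ≤ 1024) (h2 : hb ≤ 1024)
    (h3 : la ≤ 1024) (h4 : ha ≤ 1024) (eb : v ib = lb * (1 - τ ib) + hb * τ ib)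
    (ea : v ia = la * (1 - τ ia) + ha * τ ia) (k : ℕ) (hk : k < 5) :
    Rep τ (dv s k) (sel k (valsOf lb hb la ha (XX ^ 4 ^ (ib : ℕ)) (XX ^ 4 ^ (ia : ℕ))) : ℕ)
      (rv v s k) (bv k) := by
  have hd : ∀ k, 2 ≤ k → (Pi.single ib 1 + Pi.single ia 1 : Fin 6 → ℕ) = dv s k := by
    intro k hk
    ext i
    simp only [dv, hk, true_and, Pi.add_apply, Pi.single_apply, Fin.ext_iff, hib, hia]
    split_ifs <;> omega
  have hd0 : ∀ k, k < 2 → (0 : Fin 6 → ℕ) = dv s k := by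
    intro k hk
    ext i
    have : ¬ 2 ≤ k := by omega
    simp [dv, this]
  rw [hib] at eb
  rw [hia] at ea
  have c1 : ((2048 - lb : ℕ) : ℝ) = 2048 - lb := by rw [Nat.cast_sub (by omega)]; norm_num
  have c2 : ((2048 - hb : ℕ) : ℝ) = 2048 - hb := by rw [Nat.cast_sub (by omega)]; norm_num
  have c3 : ((1024 - la : ℕ) : ℝ) = 1024 - la := by rw [Nat.cast_sub (by omega)]; norm_num
  have c4 : ((1024 - ha : ℕ) : ℝ) = 1024 - ha := by rw [Nat.cast_sub (by omega)]; norm_num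
  interval_cases k
  · exact (Rep.const 1024).cast (hd0 0 (by norm_num)) rfl (by simp [rv]) (by simp [bv])
  · exact (Rep.const 2048).cast (hd0 1 (by norm_num)) rfl (by simp [rv]) (by simp [bv])
  · refine (((Rep.lin ib (2048 - lb) (2048 - hb)).mul (rep_one ia)).add
      ((rep_one ib).mul (Rep.lin ia la ha))).cast (hd 2 le_rfl) ?_ ?_ ?_
    · show _ = ((((2048 - lb) + (2048 - hb) * XX ^ 4 ^ (ib : ℕ)) * (XX ^ 4 ^ (ia : ℕ) + 1)
        + (XX ^ 4 ^ (ib : ℕ) + 1) * (la + ha * XX ^ 4 ^ (ia : ℕ)) : ℕ) : ℤ)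
      generalize 2048 - lb = p
      generalize 2048 - hb = q
      push_cast; ring
    · simp only [rv, c1, c2, eb, ea]; norm_num; ring
    · simp only [bv]; norm_num; omega
  · refine ((rep_one ib).mul (Rep.lin ia (1024 - la) (1024 - ha))).cast (hd 3 (by norm_num))
      ?_ ?_ ?_
    · show _ = (((XX ^ 4 ^ (ib : ℕ) + 1) * ((1024 - la) + (1024 - ha) * XX ^ 4 ^ (ia : ℕ)) : ℕ) : ℤ)
      generalize 1024 - la = p
      generalize 1024 - ha = q
      push_cast; ring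
    · simp only [rv, c3, c4, ea]; norm_num; ring
    · simp only [bv]; norm_num; omega
  · refine ((Rep.lin ib (1024 + lb) (1024 + hb)).mul (rep_one ia)).cast (hd 4 (by norm_num))
      ?_ ?_ ?_
    · show _ = ((((1024 + lb) + (1024 + hb) * XX ^ 4 ^ (ib : ℕ)) * (XX ^ 4 ^ (ia : ℕ) + 1) : ℕ) : ℤ)
      push_cast; ring
    · simp only [rv, eb]; norm_num; ring
    · simp only [bv]; norm_num; omega

/-- elevation polynomial of a slot -/
def EE (s : ℕ) : ℕ := (XX ^ 4 ^ (2 * s) + 1) * (XX ^ 4 ^ (2 * s + 1) + 1)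

theorem EE_rep (s : ℕ) (hs : s < 3) : Rep τ (dv s 2) (EE s) 1 4 := by
  refine ((rep_one ⟨2 * s, by omega⟩).mul (rep_one ⟨2 * s + 1, by omega⟩)).cast ?_ ?_
    (by norm_num) le_rfl
  · ext i
    simp only [dv, le_refl, true_and, Pi.add_apply, Pi.single_apply, Fin.ext_iff]
    split_ifs <;> omega
  · unfold EE; push_cast; ring

/-- degree of an elevation factor -/
noncomputable def dE (ty : Ty) (s a b : ℕ) : Fin 6 → ℕ := if used ty s a b then 0 else dv s 2

/-- size of an elevation factor -/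
noncomputable def bE (ty : Ty) (s a b : ℕ) : ℕ := if used ty s a b then 1 else 4

theorem fac_rep (ty : Ty) (s a b : ℕ) (hs : s < 3) :
    Rep τ (dE ty s a b) ((if used ty s a b then 1 else EE s : ℕ) : ℤ) 1 (bE ty s a b) := by
  unfold dE bE
  split_ifs
  · exact (Rep.const 1).cast rfl rfl (by simp) le_rfl
  · exact EE_rep s hs

/-- admissible shapes -/
def TyOK (ty : Ty) : Prop := ∀ a < 6, ∀ b < 6, sel a ty.sl < 3 ∧ sel a ty.kx < 5 ∧
  sel a ty.ky < 5 ∧ (a ≠ b → (∀ i : Fin 6, dv (sel a ty.sl) (sel a ty.kx) i +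
    (dv (sel b ty.sl) (sel b ty.ky) i + (dE ty 0 a b i + (dE ty 1 a b i + dE ty 2 a b i))) = 1) ∧
    bv (sel a ty.kx) * (bv (sel b ty.ky) * (bE ty 0 a b * (bE ty 1 a b * bE ty 2 a b)))
      ≤ 603979776)

noncomputable instance (ty : Ty) : Decidable (TyOK ty) := by unfold TyOK; infer_instance

/-- abscissa of a normalised vertex -/
noncomputable def vx (ty : Ty) (v : ℕ → ℝ) (a : ℕ) : ℝ := rv v (sel a ty.sl) (sel a ty.kx)

/-- ordinate of a normalised vertex -/
noncomputable def vy (ty : Ty) (v : ℕ → ℝ) (a : ℕ) : ℝ := rv v (sel a ty.sl) (sel a ty.ky)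

/-- triangle values of the normalised polygon -/
noncomputable def tN (ty : Ty) (v : ℕ → ℝ) (a b c : ℕ) : ℝ :=
  (vx ty v b - vx ty v a) * (vy ty v c - vy ty v a) - (vy ty v b - vy ty v a) * (vx ty v c - vx ty v a)

/-- the point lies in the box -/
def InBox (lo hi : V6) (v : ℕ → ℝ) : Prop :=
  ∀ i < 6, (sel i lo : ℝ) ≤ v i ∧ v i ≤ sel i hi ∧ sel i hi ≤ 1024

/-- what a successful check proves -/
def Claim (ty : Ty) (c : ℝ) (lo hi : V6) (ctx : List ℕ) : Prop :=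
  ∀ v, InBox lo hi v → (∀ h ∈ ctx, 0 ≤ hypv (tN ty v) h) →
    (∀ j < 6, ∀ k < 6, 0 ≤ HH (tN ty v) j k) → Cand (tN ty v) c

theorem exists_tau {lo hi : V6} {v : ℕ → ℝ} (h : InBox lo hi v) :
    ∃ τ : Fin 6 → ℝ, (∀ i, 0 ≤ τ i ∧ τ i ≤ 1) ∧
      ∀ i : Fin 6, v i = (sel i lo : ℕ) * (1 - τ i) + (sel i hi : ℕ) * τ i := by
  have : ∀ i : Fin 6, ∃ u : ℝ, (0 ≤ u ∧ u ≤ 1) ∧
      v i = (sel i lo : ℕ) * (1 - u) + (sel i hi : ℕ) * u := by
    intro i
    obtain ⟨h1, h2, -⟩ := h i i.2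
    rcases (h1.trans h2).eq_or_lt with he | hlt
    · exact ⟨0, ⟨le_rfl, zero_le_one⟩, by linarith⟩
    · have : (0 : ℝ) < (sel i hi : ℕ) - (sel i lo : ℕ) := by linarith
      refine ⟨(v i - (sel i lo : ℕ)) / ((sel i hi : ℕ) - (sel i lo : ℕ)),
        ⟨div_nonneg (by linarith) this.le, by rw [div_le_one this]; linarith⟩, ?_⟩
      field_simp; ring
  choose τ h1 h2 using this
  exact ⟨τ, h1, h2⟩

theorem one_rep : Rep τ (dg 1) ((EE 0 * (EE 1 * EE 2) : ℕ) : ℤ) 1 64 :=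
  ((EE_rep 0 (by norm_num)).mul ((EE_rep 1 (by norm_num)).mul (EE_rep 2 (by norm_num)))).cast
    (by decide) (by push_cast; ring) (by norm_num) le_rfl

theorem le_off (q X off : ℕ) (hX : 603979776 ≤ X) (hoff : off = X ^ 1366)
    (h : (q : ℤ) ≤ (603979776 : ℕ) * (X : ℤ) ^ 1365) : q ≤ off := by
  have e : X ^ 1366 = X * X ^ 1365 := pow_succ' X 1365
  have h' : q ≤ 603979776 * X ^ 1365 := by exact_mod_cast h
  rw [hoff, e]
  exact h'.trans (Nat.mul_le_mul_right _ hX)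

theorem leaf_sound (ty : Ty) (hty : TyOK ty) {num den : ℕ} {c : ℝ} (hnum : num ≤ 4096)
    (hden : den ≤ 4096) (hden0 : 0 < den) (hc : 4 * c * den = num) (w : V6)
    (hw : ∀ i < 6, sel i w = XX ^ 4 ^ i) (off z one : ℕ) (hoff : off = XX ^ 1366)
    (hz : z = 3 * off) (hone : one = EE 0 * (EE 1 * EE 2)) (lo hi : V6) (ctx : List ℕ) (n : ℕ)
    (h : leafc ty.sl ty.kx ty.ky w (tabOf (elf ty (EE 0) (EE 1) (EE 2))) (HI 1366) (HI 4096) off z
      (z + one) (4 * z) (32 * z) one (one * one) num den lo hi ctx n = true) :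
    Claim ty c lo hi ctx := by
  intro v hv hctx hH
  by_contra hno
  obtain ⟨τ, hτ, hvτ⟩ := exists_tau hv
  have hlo : ∀ i < 6, sel i lo ≤ 1024 := by
    intro i hi'
    obtain ⟨h1, h2, h3⟩ := hv i hi'
    have : (sel i lo : ℝ) ≤ sel i hi := h1.trans h2
    exact le_trans (by exact_mod_cast this) h3
  have hhi : ∀ i < 6, sel i hi ≤ 1024 := fun i hi' => (hv i hi').2.2
  unfold leafc at h
  simp only [mkVals_eq, mkRow_eq, mkTab_eq, frc_eq] at h
  set vt : T6 := ⟨valsOf (sel 0 lo) (sel 0 hi) (sel 1 lo) (sel 1 hi) (sel 0 w) (sel 1 w),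
    valsOf (sel 2 lo) (sel 2 hi) (sel 3 lo) (sel 3 hi) (sel 2 w) (sel 3 w),
    valsOf (sel 4 lo) (sel 4 hi) (sel 5 lo) (sel 5 hi) (sel 4 w) (sel 5 w),
    valsOf (sel 4 lo) (sel 4 hi) (sel 5 lo) (sel 5 hi) (sel 4 w) (sel 5 w),
    valsOf (sel 4 lo) (sel 4 hi) (sel 5 lo) (sel 5 hi) (sel 4 w) (sel 5 w),
    valsOf (sel 4 lo) (sel 4 hi) (sel 5 lo) (sel 5 hi) (sel 4 w) (sel 5 w)⟩ with hvt
  have RV : ∀ s < 3, ∀ k < 5, Rep τ (dv s k) (get vt s k : ℕ) (rv v s k) (bv k) := by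
    intro s hs k hk
    have e : get vt s k = sel k (valsOf (sel (2 * s) lo) (sel (2 * s) hi) (sel (2 * s + 1) lo)
        (sel (2 * s + 1) hi) (XX ^ 4 ^ (2 * s)) (XX ^ 4 ^ (2 * s + 1))) := by
      rw [← hw _ (by omega), ← hw _ (by omega), hvt]
      interval_cases s <;> rfl
    rw [e]
    exact vals_rep v s ⟨2 * s, by omega⟩ ⟨2 * s + 1, by omega⟩ rfl rfl _ _ _ _ (hlo _ (by omega))
      (hhi _ (by omega)) (hlo _ (by omega)) (hhi _ (by omega)) (hvτ ⟨2 * s, by omega⟩)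
      (hvτ ⟨2 * s + 1, by omega⟩) k hk
  set qf : ℕ → ℕ → ℕ := fun a b => Nat.mul (sel a (rowOf fun a => get vt (sel a ty.sl) (sel a ty.kx)))
    (Nat.mul (sel b (rowOf fun a => get vt (sel a ty.sl) (sel a ty.ky)))
      (get (tabOf (elf ty (EE 0) (EE 1) (EE 2))) a b)) with hqf
  have RQ : ∀ a < 6, ∀ b < 6, a ≠ b →
      Rep τ (dg 1) (qf a b) (vx ty v a * vy ty v b) 603979776 := by
    intro a ha b hb hab
    obtain ⟨s1, k1, -, hh⟩ := hty a ha b hb
    obtain ⟨s2, -, k2, -⟩ := hty b hb a ha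
    obtain ⟨hd, hb'⟩ := hh hab
    refine ((RV _ s1 _ k1).mul ((RV _ s2 _ k2).mul ((fac_rep ty 0 a b (by norm_num)).mul
      ((fac_rep ty 1 a b (by norm_num)).mul (fac_rep ty 2 a b (by norm_num)))))).cast
      (funext hd) ?_ (by unfold vx vy; ring) hb'
    simp only [hqf, sel_rowOf _ _ ha, sel_rowOf _ _ hb, get_tabOf _ _ _ ha hb, elf, if_neg hab,
      Nat.mul_eq, Nat.cast_mul]
  have RP : ∀ a < 6, ∀ b < 6, Rep τ (dg 1)
      ((get (tabOf fun a b => Nat.sub (Nat.add (get (tabOf qf) a b) off) (get (tabOf qf) b a)) a b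
        : ℕ) - (off : ℤ)) (vx ty v a * vy ty v b - vx ty v b * vy ty v a) 1207959552 := by
    intro a ha b hb
    rw [get_tabOf _ _ _ ha hb, get_tabOf _ _ _ ha hb, get_tabOf _ _ _ hb ha]
    simp only [Nat.sub_eq, Nat.add_eq]
    by_cases hab : a = b
    · subst hab
      exact Rep.zero.cast rfl (by simp) (by simp) (by norm_num)
    · have r2 := RQ b hb a ha (Ne.symm hab)
      have hle := r2.abs_le 1365 (fun a ha => by have := enc_le 1 a ha; omega)
      have hq : qf b a ≤ qf a b + off := by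
        have := le_off _ XX off (by unfold XX; norm_num) hoff hle
        omega
      exact ((RQ a ha b hb hab).sub r2).cast rfl (by push_cast [hq]; ring) rfl (by norm_num)
  generalize (tabOf fun a b => Nat.sub (Nat.add (get (tabOf qf) a b) off) (get (tabOf qf) b a)) = t
    at h RP
  have I : Inv τ t ctx z (tN ty v) := ⟨hτ, fun a b c ha hb hc =>
    (((RP a ha b hb).add (RP b hb c hc)).add (RP c hc a ha)).cast rfl
      (by simp only [tv, Nat.add_eq, hz]; push_cast; ring) (by unfold tN; ring)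
      (by unfold BT; norm_num), hctx⟩
  have r1 : Rep τ (dg 1) (one : ℤ) 1 64 := hone ▸ one_rep
  obtain ⟨n1, P, Q, x, h, hx, rx⟩ := hl_sound I _ _ _ _ _ 64 (-1) h
    (r1.neg.cast rfl (by simp) rfl le_rfl)
  have hc1 : Nat.mod (Nat.div n 16) 16 < 16 := Nat.mod_lt _ (by norm_num)
  have hc2 : Nat.mod n 16 < 16 := Nat.mod_lt _ (by norm_num)
  generalize Nat.mod (Nat.div n 16) 16 = ch at rx hc1
  generalize Nat.mod n 16 = cc at h hc2
  have rx' := rx.cast (B' := 64 + 16 * (2 ^ 88 * (2 * BT))) rfl rfl rfl (by gcongr)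
  cases cc with
  | zero =>
    have := test1_sound hτ h rx' (by unfold BT; norm_num)
    linarith
  | succ m =>
    simp only [dif_eq, frcI_eq] at h
    have rS := (((I.hT 0 1 2 (by norm_num) (by norm_num) (by norm_num)).add
      (I.hT 0 2 3 (by norm_num) (by norm_num) (by norm_num))).add
      (I.hT 0 3 4 (by norm_num) (by norm_num) (by norm_num))).add
      (I.hT 0 4 5 (by norm_num) (by norm_num) (by norm_num))
    have := cl_sound I (zo := z + one) (r1.cast rfl (by push_cast; ring) rfl le_rfl)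
      ((rS.neg.nsmul (256 * num)).cast rfl rfl (by unfold SS; push_cast; ring) (by ring_nf; rfl))
      hnum hden hden0 hc hH hno (m + 1) n1 _ _ _
      (by
        convert h using 2
        show _ = ((256 * num : ℕ) : ℤ) * (((4 * z : ℕ) : ℤ) -
          ((tv t 0 1 2 + tv t 0 2 3 + tv t 0 3 4 + tv t 0 4 5 : ℕ) : ℤ))
        push_cast; ring)
      ((rx'.mul (r1.mul r1)).cast (by ext; rfl) (by
        show _ = ((P : ℤ) - Q) * ((one * one : ℕ) : ℤ)
        push_cast; ring) rfl le_rfl)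
      (by
        have : (m + 1) * (2 ^ 24 * BG) ≤ 16 * (2 ^ 24 * BG) := by gcongr
        unfold BT BG at *
        omega)
    linarith

theorem trv_mod (T : ℕ → ℕ → ℕ → ℝ) (h : ℕ) : trv T (h % 216) = trv T h := by
  unfold trv
  have e1 : h % 216 % 6 = h % 6 := by omega
  have e2 : h % 216 / 6 % 6 = h / 6 % 6 := by omega
  have e3 : h % 216 / 36 % 6 = h / 36 % 6 := by omega
  rw [e1, e2, e3]

theorem hypv_opp (T : ℕ → ℕ → ℕ → ℝ) (h : ℕ) : hypv T (opp h) = - hypv T h := by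
  have e0 : opp h = h / 216 % 216 + 216 * (h % 216) := rfl
  have e1 : opp h % 216 = h / 216 % 216 := by rw [e0]; omega
  have e2 : opp h / 216 = h % 216 := by rw [e0]; omega
  unfold hypv
  rw [← trv_mod T (opp h), e1, e2, trv_mod, trv_mod]; ring

theorem Claim.split {ty : Ty} {c : ℝ} {lo hi : V6} {ctx : List ℕ} (v m : ℕ) (hm : m ≤ 1024)
    (h1 : Claim ty c lo (upd v m hi) ctx) (h2 : Claim ty c (upd v m lo) hi ctx) :
    Claim ty c lo hi ctx := by
  intro p hp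
  rcases le_total (p (min v 5)) m with h | h
  · apply h1 p
    intro i hi'
    rw [sel_upd _ _ _ _ hi']
    split_ifs with e
    · exact ⟨(hp i hi').1, e ▸ h, hm⟩
    · exact hp i hi'
  · apply h2 p
    intro i hi'
    rw [sel_upd _ _ _ _ hi']
    split_ifs with e
    · exact ⟨e ▸ h, (hp i hi').2⟩
    · exact hp i hi'

theorem Claim.br {ty : Ty} {c : ℝ} {lo hi : V6} {ctx : List ℕ} (g : ℕ)
    (h1 : Claim ty c lo hi (g :: ctx)) (h2 : Claim ty c lo hi (opp g :: ctx)) :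
    Claim ty c lo hi ctx := by
  intro p hp hctx
  rcases le_total 0 (hypv (tN ty p) g) with h | h
  · apply h1 p hp
    intro x hx
    rcases List.mem_cons.1 hx with rfl | hx
    · exact h
    · exact hctx x hx
  · apply h2 p hp
    intro x hx
    rcases List.mem_cons.1 hx with rfl | hx
    · rw [hypv_opp]; linarith
    · exact hctx x hx

theorem go_sound {ty : Ty} {c : ℝ} (lf : V6 → V6 → List ℕ → ℕ → Bool)
    (hlf : ∀ lo hi ctx n, lf lo hi ctx n = true → Claim ty c lo hi ctx) (tr : Tr) :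
    ∀ lo hi ctx, go lf tr lo hi ctx = true → Claim ty c lo hi ctx := by
  induction tr with
  | leaf n => intro lo hi ctx h; exact hlf _ _ _ n h
  | split v m l r il ir =>
    intro lo hi ctx h
    have h' : band (Nat.ble m 1024) (band (frcV (upd v m hi) fun hi' => go lf l lo hi' ctx)
      (frcV (upd v m lo) fun lo' => go lf r lo' hi ctx)) = true := h
    simp only [band_eq, frcV_eq] at h'
    exact Claim.split v m (Nat.le_of_ble_eq_true h'.1) (il _ _ _ h'.2.1) (ir _ _ _ h'.2.2)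
  | br g l r il ir =>
    intro lo hi ctx h
    have h' : band (go lf l lo hi (g :: ctx)) (frc (opp g) fun h' => go lf r lo hi (h' :: ctx))
      = true := h
    simp only [band_eq, frc_eq] at h'
    exact Claim.br g (il _ _ _ h'.1) (ir _ _ _ h'.2)

theorem run_sound {ty : Ty} (hty : TyOK ty) {num den : ℕ} {c : ℝ} (hnum : num ≤ 4096)
    (hden : den ≤ 4096) (hden0 : 0 < den) (hc : 4 * c * den = num) {lo hi : V6} {ctx : List ℕ}
    {tr : Tr} (h : run ty num den lo hi ctx tr = true) : Claim ty c lo hi ctx := by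
  unfold run at h
  simp only [mkRow_eq, mkTab_eq, frc_eq] at h
  have hw : ∀ i < 6, sel i (rowOf fun i => Nat.pow (Nat.pow 2 160) (Nat.pow 4 i)) = XX ^ 4 ^ i :=
    fun i hi => by rw [sel_rowOf _ _ hi]; rfl
  generalize (rowOf fun i => Nat.pow (Nat.pow 2 160) (Nat.pow 4 i)) = w at h hw
  have ee : ∀ s < 3, Nat.mul (Nat.succ (sel (2 * s) w)) (Nat.succ (sel (2 * s + 1) w)) = EE s := by
    intro s hs
    rw [hw _ (by omega), hw _ (by omega)]; rfl
  have e0 : Nat.mul (Nat.succ (sel 0 w)) (Nat.succ (sel 1 w)) = EE 0 := ee 0 (by norm_num)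
  have e1 : Nat.mul (Nat.succ (sel 2 w)) (Nat.succ (sel 3 w)) = EE 1 := ee 1 (by norm_num)
  have e2 : Nat.mul (Nat.succ (sel 4 w)) (Nat.succ (sel 5 w)) = EE 2 := ee 2 (by norm_num)
  have e3 : ∀ P, HIr P = HI P := fun _ => rfl
  rw [e0, e1, e2, e3, e3] at h
  have e4 : ∀ m, Nat.pow (Nat.pow 2 160) m = XX ^ m := fun _ => rfl
  rw [e4] at h
  generalize hoff : XX ^ 1366 = off at h
  generalize h1 : HI 1366 = H1 at h
  generalize h3 : HI 4096 = H3 at h
  generalize hone : Nat.mul (EE 0) (Nat.mul (EE 1) (EE 2)) = one at h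
  have hone' : one = EE 0 * (EE 1 * EE 2) := by rw [← hone, Nat.mul_eq, Nat.mul_eq]
  refine go_sound _ (fun lo hi ctx n hh => leaf_sound ty hty hnum hden hden0 hc w hw off _ one
    hoff.symm rfl hone' lo hi ctx n ?_) tr lo hi ctx h
  rw [h1, h3]
  exact hh

end Pool.Agent.MP_5c967c_co.H46
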