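import Pool.Agent.MP_5c967c_co.H46.Sound2
import Pool.Agent.MP_5c967c_co.H46.Order

/-! Transfer from the normalised polygon to the given one. -/

namespace Pool.Agent.MP_5c967c_co.H46

open Set

theorem Cand.scale {t t' : ℕ → ℕ → ℕ → ℝ} {c l : ℝ} (hl : 0 < l)
    (h : ∀ a b d, a < 6 → b < 6 → d < 6 → t' a b d = l * t a b d) (hc : Cand t c) :
    Cand t' c := by
  obtain ⟨j, i, f, e, f', e', s, hj, hi, hf, he, hf', he', s0, s1, hst, hpos, a1, b1, d1, a2, b2,
    d2, hG⟩ := hc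
  have H : ∀ a < 6, ∀ b < 6, HH t' a b = l * HH t a b := fun a ha b hb => h _ _ _ ha (nx_lt a) hb
  have M : ∀ a < 6, hM t' a j s = l * hM t a j s := by
    intro a ha; unfold hM; rw [H a ha j hj, H a ha _ (nx_lt j)]; ring
  have A : ∀ a < 6, cA t' j i s a = l * cA t j i s a := by
    intro a ha; unfold cA; rw [M a ha, H a ha i hi]; ring
  have B : ∀ a < 6, cB t' j i s a = l * cB t j i s a := by
    intro a ha; unfold cB; rw [M a ha, H a ha i hi]; ring
  have D : ∀ a < 6, ∀ b < 6, cD t' a b = l * cD t a b := by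
    intro a ha b hb; unfold cD; rw [H a ha b hb, H a ha _ (nx_lt b)]; ring
  have N : ∀ a < 6, ∀ b < 6, cN t' j i s a b = l ^ 2 * cN t j i s a b := by
    intro a ha b hb; unfold cN; rw [A b hb, B a ha, M a ha, H a ha i hi, H b hb i hi]; ring
  have S : SS t' = l * SS t := by
    unfold SS
    rw [h 0 1 2 (by norm_num) (by norm_num) (by norm_num),
      h 0 2 3 (by norm_num) (by norm_num) (by norm_num),
      h 0 3 4 (by norm_num) (by norm_num) (by norm_num),
      h 0 4 5 (by norm_num) (by norm_num) (by norm_num)]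
    ring
  refine ⟨j, i, f, e, f', e', s, hj, hi, hf, he, hf', he', s0, s1, ?_, ?_, ?_, ?_, ?_, ?_, ?_, ?_,
    ?_⟩
  · intro k hk
    rw [H j hj k hk, H j hj i hi]
    exact mul_le_mul_of_nonneg_left (hst k hk) hl.le
  · rw [H j hj i hi]; positivity
  · rw [A e he]; positivity
  · rw [B f hf]; positivity
  · rw [D f hf e he]; positivity
  · rw [A e' he']; positivity
  · rw [B f' hf']; positivity
  · rw [D f' hf' e' he', ← mul_neg]; positivity
  · rw [N f hf e he, N f' hf' e' he', D f hf e he, D f' hf' e' he', S]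
    have := mul_le_mul_of_nonneg_left hG (pow_pos hl 3).le
    nlinarith

theorem transfer {ty : Ty} {c : ℝ} {lo hi : V6} {ctx : List ℕ} (hcl : Claim ty c lo hi ctx)
    (W : ℕ → Plane) (hc : CvxN 6 W) (A B C : Plane) (hD : 0 < tri A B C) (v : ℕ → ℝ)
    (hv : InBox lo hi v)
    (hx : ∀ a < 6, vx ty v a = 1024 * (1 + tri A (W a) C / tri A B C) ∧
      vy ty v a = 1024 * (1 + tri A B (W a) / tri A B C))
    (hctx : ∀ h ∈ ctx, 0 ≤ hypv (tW W) h) : Cand (tW W) c := by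
  have key : ∀ a b d, a < 6 → b < 6 → d < 6 →
      tN ty v a b d = 1024 ^ 2 / tri A B C * tW W a b d := by
    intro a b d ha hb hd
    unfold tN tW
    rw [(hx a ha).1, (hx a ha).2, (hx b hb).1, (hx b hb).2, (hx d hd).1, (hx d hd).2]
    field_simp
    simp only [tri]
    ring
  have hl : 0 < 1024 ^ 2 / tri A B C := by positivity
  have lt6 : ∀ u : ℕ, u % 6 < 6 := fun u => Nat.mod_lt _ (by norm_num)
  refine Cand.scale (l := tri A B C / 1024 ^ 2) (by positivity) ?_ (hcl v hv ?_ ?_)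
  · intro a b d ha hb hd
    rw [key a b d ha hb hd]; field_simp
  · intro h hh
    have := hctx h hh
    unfold hypv trv at this ⊢
    rw [key _ _ _ (lt6 _) (lt6 _) (lt6 _), key _ _ _ (lt6 _) (lt6 _) (lt6 _), ← mul_sub]
    positivity
  · intro j hj k hk
    have := HH_nonneg W hc j k hj hk
    unfold HH at this ⊢
    rw [key _ _ _ hj (nx_lt j) hk]
    positivity

/-- hypotheses that hold by convexity or by maximality -/
def okS (pa pb pc h : ℕ) : Prop :=
  (h % 6 < h / 6 % 6 ∧ h / 6 % 6 < h / 36 % 6 ∧ h / 216 % 6 = h / 216 / 6 % 6) ∨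
    (h % 6 = pa ∧ h / 6 % 6 = pb ∧ h / 36 % 6 = pc)

instance (pa pb pc h : ℕ) : Decidable (okS pa pb pc h) := by unfold okS; infer_instance

theorem okS_sound {W : ℕ → Plane} (hc : CvxN 6 W) {pa pb pc : ℕ} (hm : Mx 6 W pa pb pc) {h : ℕ}
    (ho : okS pa pb pc h) : 0 ≤ hypv (tW W) h := by
  have lt6 : ∀ u : ℕ, u % 6 < 6 := fun u => Nat.mod_lt _ (by norm_num)
  unfold hypv trv
  rcases ho with ⟨h1, h2, h3⟩ | ⟨h1, h2, h3⟩
  · have := hc _ _ _ h1 h2 (lt6 _)
    rw [h3]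
    have e : tW W (h / 216 / 6 % 6) (h / 216 / 6 % 6) (h / 216 / 36 % 6) = 0 := tri_aab _ _
    linarith
  · rw [h1, h2, h3]
    exact sub_nonneg.2 (hm.2 _ _ _ (lt6 _) (lt6 _) (lt6 _))

theorem s6_0 {α : Type} (a b c d e f : α) : s6 0 a b c d e f = a := rfl
theorem s6_1 {α : Type} (a b c d e f : α) : s6 1 a b c d e f = b := rfl
theorem s6_2 {α : Type} (a b c d e f : α) : s6 2 a b c d e f = c := rfl
theorem s6_3 {α : Type} (a b c d e f : α) : s6 3 a b c d e f = d := rfl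
theorem s6_4 {α : Type} (a b c d e f : α) : s6 4 a b c d e f = e := rfl
theorem s6_5 {α : Type} (a b c d e f : α) : s6 5 a b c d e f = f := rfl
theorem sel_mk (i a b c d e f : ℕ) : sel i ⟨a, b, c, d, e, f⟩ = s6 i a b c d e f := rfl

theorem inBox_of {W : ℕ → Plane} {pa pb pc : ℕ} (hm : Mx 6 W pa pb pc) (hi : V6) (g : ℕ → ℝ)
    (h : ∀ i < 6, (sel i hi = 1024 ∧ 0 ≤ g i ∧ g i ≤ tW W pa pb pc) ∨ (sel i hi = 0 ∧ g i = 0)) :
    InBox ⟨0, 0, 0, 0, 0, 0⟩ hi (fun i => 1024 * g i / tW W pa pb pc) := by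
  intro i hi'
  have e : sel i ⟨0, 0, 0, 0, 0, 0⟩ = 0 := by interval_cases i <;> rfl
  have := hm.1
  rw [e]
  rcases h i hi' with ⟨h1, h2, h3⟩ | ⟨h1, h2⟩
  · rw [h1]
    refine ⟨by push_cast; positivity, ?_, le_rfl⟩
    rw [div_le_iff₀ this]
    push_cast
    linarith
  · rw [h1]
    simp [h2]

theorem PB_of_cand {W : ℕ → Plane} (hc : CvxN 6 W) {c : ℝ} (hc0 : 0 < c) (hS : 0 < SS (tW W))
    (h : Cand (tW W) c) : PB (ENNReal.ofReal (1 / (4 * c))) 6 W := fun hne =>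
  geo W hc c hc0 hS hne h

end Pool.Agent.MP_5c967c_co.H46
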