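import Pool.Agent.MP_5c967c_co.H46.Chk

namespace Pool.Agent.MP_5c967c_co.H46

/-- shape of the normalised polygon -/
def tyA : Ty := ⟨⟨0, 0, 0, 1, 0, 2⟩, ⟨0, 2, 1, 4, 0, 3⟩, ⟨0, 3, 0, 2, 1, 4⟩⟩

/-- coded hypotheses -/
def ctxA : List ℕ := [35502, 7508, 78, 17004, 114, 24780, 150, 32556, 186, 40332, 120, 26076, 156, 33852, 192, 41628, 162, 35148, 198, 42924, 204, 44220, 121, 26292, 157, 34068, 193, 41844, 163, 35364, 199, 43140, 205, 44436, 164, 35580, 200, 43356, 206, 44652, 207, 44868]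

end Pool.Agent.MP_5c967c_co.H46
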