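import Pool.Agent.MP_5c967c_co.H46.Chk

namespace Pool.Agent.MP_5c967c_co.H46

/-- shape of the normalised polygon -/
def tyB : Ty := ⟨⟨0, 0, 0, 0, 1, 2⟩, ⟨0, 1, 4, 0, 3, 3⟩, ⟨0, 0, 2, 1, 4, 4⟩⟩

/-- coded hypotheses -/
def ctxB : List ℕ := [78, 16962, 114, 24738, 150, 32514, 186, 40290, 120, 26034, 156, 33810, 192, 41586, 162, 35106, 198, 42882, 204, 44178, 121, 26250, 157, 34026, 193, 41802, 163, 35322, 199, 43098, 205, 44394, 164, 35538, 200, 43314, 206, 44610, 207, 44826]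

end Pool.Agent.MP_5c967c_co.H46
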