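import Pool.Agent.MP_5c967c_co.H46.Chk

namespace Pool.Agent.MP_5c967c_co.H46

/-- shape of the normalised polygon -/
def tyC : Ty := ⟨⟨0, 0, 0, 0, 1, 2⟩, ⟨0, 1, 0, 3, 3, 3⟩, ⟨0, 0, 1, 4, 4, 4⟩⟩

/-- coded hypotheses -/
def ctxC : List ℕ := [78, 16926, 114, 24702, 150, 32478, 186, 40254, 120, 25998, 156, 33774, 192, 41550, 162, 35070, 198, 42846, 204, 44142, 121, 26214, 157, 33990, 193, 41766, 163, 35286, 199, 43062, 205, 44358, 164, 35502, 200, 43278, 206, 44574, 207, 44790]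

end Pool.Agent.MP_5c967c_co.H46
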